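import Pool.Agent.Helper21_TS.DLab

namespace Pool.Agent.Helper21TS

open Finset

/-- quarter squares -/
def A (j : ℕ) : ℕ := (j / 2 + 1) * ((j + 1) / 2 + 1)

/-- labels except those with tag `4` -/
def L0 (n m : ℕ) : Finset Lab :=
  ((range m).sigma (fun L => range (n - L))).image (fun a => ((0, a.1, a.2, 0) : Lab)) ∪
  (range ((n - m + 1) / 2)).image (fun k => ((1, k, 0, 0) : Lab)) ∪
  (range m).image (fun x => ((2, x, 0, 0) : Lab)) ∪
  ((range (m + 1)).sigma (fun y => range (y - 1)) ×ˢ range ((n - m) / 2)).image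
    (fun a => ((3, a.1.2, a.1.1, a.2) : Lab)) ∪
  ((range (n - 2 * ((n - m) / 2) + 1)).sigma
    (fun t => (range (t - 3)).sigma (fun s => range ((t - s) / 2 - 1)))).image
    (fun a => ((5, a.2.1 + (n - m) / 2, a.1 + (n - m) / 2, a.2.2 + 1) : Lab))

/-- labels with tag `4` -/
def R1 (m : ℕ) : Finset Lab :=
  ((range (m + 1)).sigma (fun y => (range (y - 1)).sigma (fun x => range ((y - x) / 2 + 1)))).image
    (fun a => ((4, a.2.1, a.1, a.2.2) : Lab))

/-- labels with tag `4` except the labels `(4, m - 2k, m, k)` -/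
def R2 (m : ℕ) : Finset Lab :=
  ((range m).sigma (fun y => (range (y - 1)).sigma (fun x => range ((y - x) / 2 + 1)))).image
    (fun a => ((4, a.2.1, a.1, a.2.2) : Lab)) ∪
  ((range (m - 1)).sigma (fun x => range ((m - x + 1) / 2))).image
    (fun a => ((4, a.1, m, a.2) : Lab))

theorem card_L0 (n m : ℕ) : (L0 n m).card ≤
    ∑ L ∈ range m, (n - L) + (n - m + 1) / 2 + m +
    (∑ y ∈ range (m + 1), (y - 1)) * ((n - m) / 2) +
    ∑ t ∈ range (n - 2 * ((n - m) / 2) + 1), ∑ s ∈ range (t - 3), ((t - s) / 2 - 1) := by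
  unfold L0
  refine (card_union_le _ _).trans (add_le_add ?_ ?_)
  · refine (card_union_le _ _).trans (add_le_add ?_ ?_)
    · refine (card_union_le _ _).trans (add_le_add ?_ ?_)
      · refine (card_union_le _ _).trans (add_le_add ?_ ?_)
        · refine card_image_le.trans ?_
          simp [card_sigma]
        · refine card_image_le.trans ?_
          simp
      · refine card_image_le.trans ?_
        simp
    · refine card_image_le.trans ?_
      simp [card_sigma]
  · refine card_image_le.trans ?_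
    simp [card_sigma]

theorem card_R1 (m : ℕ) : (R1 m).card ≤
    ∑ y ∈ range (m + 1), ∑ x ∈ range (y - 1), ((y - x) / 2 + 1) := by
  unfold R1
  refine card_image_le.trans ?_
  simp [card_sigma]

theorem card_R2 (m : ℕ) : (R2 m).card ≤
    ∑ y ∈ range m, ∑ x ∈ range (y - 1), ((y - x) / 2 + 1) +
    ∑ x ∈ range (m - 1), ((m - x + 1) / 2) := by
  unfold R2
  refine (card_union_le _ _).trans (add_le_add ?_ ?_)
  · refine card_image_le.trans ?_
    simp [card_sigma]
  · refine card_image_le.trans ?_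
    simp [card_sigma]

theorem mem_K {n m L s : ℕ} (h1 : L < m) (h2 : s + L < n) : ((0, L, s, 0) : Lab) ∈ L0 n m := by
  unfold L0
  simp only [mem_union, mem_image, mem_sigma, mem_range]
  left; left; left; left
  exact ⟨⟨L, s⟩, ⟨h1, by simp only; omega⟩, rfl⟩

theorem mem_X {n m k : ℕ} (h1 : k < (n - m + 1) / 2) : ((1, k, 0, 0) : Lab) ∈ L0 n m := by
  unfold L0
  simp only [mem_union, mem_image, mem_sigma, mem_range]
  left; left; left; right
  exact ⟨k, h1, rfl⟩

theorem mem_T {n m x : ℕ} (h1 : x < m) : ((2, x, 0, 0) : Lab) ∈ L0 n m := by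
  unfold L0
  simp only [mem_union, mem_image, mem_sigma, mem_range]
  left; left; right
  exact ⟨x, h1, rfl⟩

theorem mem_O {n m x y k : ℕ} (h1 : x + 2 ≤ y) (h2 : y ≤ m) (h3 : k < (n - m) / 2) :
    ((3, x, y, k) : Lab) ∈ L0 n m := by
  unfold L0
  simp only [mem_union, mem_image, mem_sigma, mem_range, mem_product]
  left; right
  exact ⟨(⟨y, x⟩, k), ⟨⟨by simp only; omega, by simp only; omega⟩, h3⟩, rfl⟩

theorem mem_C {n m s t l : ℕ} (h1 : (n - m) / 2 ≤ s) (h2 : t + (n - m) / 2 ≤ n)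
    (h3 : s + 2 * l + 2 ≤ t) (h4 : 1 ≤ l) : ((5, s, t, l) : Lab) ∈ L0 n m := by
  unfold L0
  simp only [mem_union, mem_image, mem_sigma, mem_range, mem_product]
  right
  refine ⟨⟨t - (n - m) / 2, ⟨s - (n - m) / 2, l - 1⟩⟩, ⟨?_, ?_, ?_⟩, ?_⟩
  · simp only; omega
  · simp only; omega
  · simp only; omega
  · have e1 : s - (n - m) / 2 + (n - m) / 2 = s := by omega
    have e2 : t - (n - m) / 2 + (n - m) / 2 = t := by omega
    have e3 : l - 1 + 1 = l := by omega
    simp only [e1, e2, e3]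

theorem mem_R1 {m x y k : ℕ} (h1 : x + 2 ≤ y) (h2 : y ≤ m) (h3 : x + 2 * k ≤ y) :
    ((4, x, y, k) : Lab) ∈ R1 m := by
  unfold R1
  simp only [mem_image, mem_sigma, mem_range]
  exact ⟨⟨y, ⟨x, k⟩⟩, ⟨by simp only; omega, by simp only; omega, by simp only; omega⟩, rfl⟩

theorem mem_R2 {m x y k : ℕ} (h1 : x + 2 ≤ y) (h2 : y ≤ m) (h3 : x + 2 * k ≤ y)
    (h4 : x + 2 * k < m) : ((4, x, y, k) : Lab) ∈ R2 m := by
  unfold R2
  simp only [mem_union, mem_image, mem_sigma, mem_range]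
  by_cases hy : y = m
  · right
    subst hy
    exact ⟨⟨x, k⟩, ⟨by simp only; omega, by simp only; omega⟩, rfl⟩
  · left
    exact ⟨⟨y, ⟨x, k⟩⟩, ⟨by simp only; omega, by simp only; omega, by simp only; omega⟩, rfl⟩

/-- all labels of valid vertices -/
theorem D_mem {n m : ℕ} (hm : 1 ≤ m) (hmn : m ≤ n) (v : V) (hv : Valid n m v) :
    D n m v ∈ L0 n m ∪ R1 m := by
  obtain ⟨s, t, x, y⟩ := v
  have htag := D_tag n m (s, t, x, y)
  rcases hd : D n m (s, t, x, y) with ⟨g, a, b, c⟩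
  rw [hd] at htag
  simp only at htag
  have hv' := hv
  obtain ⟨v1, v2, v3, v4, v5⟩ := hv'
  simp only at v1 v2 v3 v4 v5
  have hcase : g = 0 ∨ g = 1 ∨ g = 2 ∨ g = 3 ∨ g = 4 ∨ g = 5 := by omega
  rw [mem_union]
  rcases hcase with rfl | rfl | rfl | rfl | rfl | rfl
  · obtain ⟨a1, a2, a3, a4, rfl⟩ := D_K hm hmn hv hd
    left
    unfold InK at a4
    apply mem_K <;> rcases a4 with a4 | a4 | a4 | a4 | a4 <;> omega
  · obtain ⟨a1, a2, a3, a4, rfl, rfl⟩ := D_X hm hmn hv hd
    left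
    unfold InX at a4
    apply mem_X ; rcases a4 with a4 | a4 | a4 <;> omega
  · obtain ⟨e1, e2, e3, rfl, rfl⟩ := D_T hv hd
    left
    apply mem_T; omega
  · have e1 := D_O hv hd
    left
    apply mem_O <;> omega
  · have e1 := D_R hv hd
    right
    apply mem_R1 <;> omega
  · have e1 := D_C hv hd
    left
    apply mem_C <;> omega

/-! ### evaluation of the sums -/

theorem A_succ (j : ℕ) : A (j + 1) = A j + (j + 1) / 2 + 1 := by
  unfold A
  have h1 : (j + 1 + 1) / 2 = j / 2 + 1 := by omega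
  rw [h1]
  ring

theorem choose_two_A (m : ℕ) : (m + 3).choose 2 = A (m + 1) + A m := by
  induction m with
  | zero => decide
  | succ k ih =>
    have h1 : (k + 1 + 3).choose 2 = (k + 3).choose 1 + (k + 3).choose 2 := by
      rw [show k + 1 + 3 = (k + 3) + 1 by ring, Nat.choose_succ_succ']
    rw [h1, ih, Nat.choose_one_right, A_succ (k + 1), A_succ k]
    omega

theorem sumR (y : ℕ) : ∑ x ∈ range y, ((y + 1 - x) / 2 + 1) + 2 = A (y + 1) := by
  induction y with
  | zero => decide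
  | succ k ih =>
    rw [sum_range_succ', A_succ (k + 1), ← ih]
    have : ∀ x ∈ range k, ((k + 1 + 1 - (x + 1)) / 2 + 1) = ((k + 1 - x) / 2 + 1) := by
      intro x hx
      have : k + 1 + 1 - (x + 1) = k + 1 - x := by omega
      rw [this]
    rw [sum_congr rfl this]
    omega

theorem sumC (t : ℕ) : ∑ s ∈ range t, ((t + 3 - s) / 2 - 1) + (t + 2) = A (t + 1) := by
  induction t with
  | zero => decide
  | succ k ih =>
    rw [sum_range_succ', A_succ (k + 1), ← ih]
    have : ∀ s ∈ range k, ((k + 1 + 3 - (s + 1)) / 2 - 1) = ((k + 3 - s) / 2 - 1) := by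
      intro s hs
      have : k + 1 + 3 - (s + 1) = k + 3 - s := by omega
      rw [this]
    rw [sum_congr rfl this]
    omega

theorem sumJ (m : ℕ) : ∑ x ∈ range m, ((m + 1 - x + 1) / 2) + 1 = ∑ i ∈ range (m + 1), ((i + 2) / 2) := by
  induction m with
  | zero => decide
  | succ k ih =>
    rw [sum_range_succ', sum_range_succ, ← ih]
    have : ∀ x ∈ range k, ((k + 1 + 1 - (x + 1) + 1) / 2) = ((k + 1 - x + 1) / 2) := by
      intro s hs
      have : k + 1 + 1 - (s + 1) = k + 1 - s := by omega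
      rw [this]
    rw [sum_congr rfl this]
    omega

theorem sumR' (m : ℕ) : ∑ x ∈ range (m + 1 - 1), ((m + 1 - x) / 2 + 1) + 2 = A (m + 1) := by
  rw [Nat.add_sub_cancel]
  exact sumR m

theorem sumC' (m : ℕ) : ∑ s ∈ range (m + 2 - 3), ((m + 2 - s) / 2 - 1) + (m + 1) = A m := by
  rcases m with _ | k
  · decide
  · have := sumC k
    rw [show k + 1 + 2 - 3 = k by omega, show k + 1 + 2 = k + 3 by ring]
    exact this

theorem sumK (m d : ℕ) : ∑ L ∈ range (m + 1), (m + 1 + d - L) =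
    ∑ L ∈ range m, (m + d - L) + (m + 1 + d) := by
  rw [sum_range_succ']
  have : ∀ L ∈ range m, (m + 1 + d - (L + 1)) = (m + d - L) := by
    intro L _; omega
  rw [sum_congr rfl this, Nat.sub_zero]

theorem sumK2 (m d r : ℕ) : ∑ L ∈ range m, (m + d + r - L) =
    ∑ L ∈ range m, (m + d - L) + r * m := by
  induction m with
  | zero => simp
  | succ k ih =>
    have h1 := sumK k (d + r)
    have h2 := sumK k d
    rw [show k + 1 + (d + r) = k + 1 + d + r by ring, show k + (d + r) = k + d + r by ring] at h1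
    rw [h1, h2, ih]
    ring

theorem sumO (m : ℕ) : 2 * m + 1 + ∑ y ∈ range (m + 1), (y - 1) = (m + 2).choose 2 := by
  induction m with
  | zero => decide
  | succ k ih =>
    rw [sum_range_succ, show k + 1 + 2 = (k + 2) + 1 by ring, Nat.choose_succ_succ' (k + 2) 1,
      Nat.choose_one_right, ← ih]
    omega

theorem sumOdd (m : ℕ) : ∑ L ∈ range m, (m + 1 - L) + 1 + m +
    ∑ y ∈ range (m + 1), ∑ x ∈ range (y - 1), ((y - x) / 2 + 1) +
    ∑ t ∈ range (m + 2), ∑ s ∈ range (t - 3), ((t - s) / 2 - 1) = (m + 3).choose 3 := by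
  induction m with
  | zero => decide
  | succ k ih =>
    rw [sum_range_succ (fun y => ∑ x ∈ range (y - 1), ((y - x) / 2 + 1)) (k + 1),
      sum_range_succ (fun t => ∑ s ∈ range (t - 3), ((t - s) / 2 - 1)) (k + 2)]
    have h1 := sumK k 1
    have h2 := sumR' k
    have h3 := sumC' k
    have h4 := choose_two_A k
    rw [show k + 1 + 3 = (k + 3) + 1 by ring, Nat.choose_succ_succ' (k + 3) 2, ← ih, h4]
    rw [h1]
    omega

theorem card_odd (m r : ℕ) : (L0 (m + 1 + 2 * r) m ∪ R1 m).card ≤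
    r * (m + 2).choose 2 + (m + 3).choose 3 := by
  refine (card_union_le _ _).trans ?_
  refine (add_le_add (card_L0 _ _) (card_R1 _)).trans ?_
  have e1 : (m + 1 + 2 * r - m + 1) / 2 = r + 1 := by omega
  have e2 : (m + 1 + 2 * r - m) / 2 = r := by omega
  have e3 : m + 1 + 2 * r - 2 * r + 1 = m + 2 := by omega
  rw [e1, e2, e3, sumK2 m 1 (2 * r), ← sumO m, ← sumOdd m]
  apply le_of_eq
  ring

/-- the low part, even case -/
theorem sumJ' (m : ℕ) : ∑ x ∈ range (m + 1 - 1), ((m + 1 - x + 1) / 2) =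
    ∑ x ∈ range (m - 1), ((m - x + 1) / 2) + (if m = 0 then 0 else (m + 2) / 2) := by
  rcases m with _ | k
  · decide
  · rw [show k + 1 + 1 - 1 = k + 1 by omega, show k + 1 - 1 = k by omega, sum_range_succ']
    have : ∀ x ∈ range k, ((k + 1 + 1 - (x + 1) + 1) / 2) = ((k + 1 - x + 1) / 2) := by
      intro s hs
      have : k + 1 + 1 - (s + 1) = k + 1 - s := by omega
      rw [this]
    rw [sum_congr rfl this]
    simp
    omega

theorem sumR0 (m : ℕ) (hm : 1 ≤ m) : ∑ x ∈ range (m - 1), ((m - x) / 2 + 1) + 2 = A m := by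
  obtain ⟨k, rfl⟩ : ∃ k, m = k + 1 := ⟨m - 1, by omega⟩
  exact sumR' k

theorem sumC0 (m : ℕ) (hm : 1 ≤ m) :
    ∑ s ∈ range (m + 1 - 3), ((m + 1 - s) / 2 - 1) + m = A (m - 1) := by
  obtain ⟨k, rfl⟩ : ∃ k, m = k + 1 := ⟨m - 1, by omega⟩
  exact sumC' k

theorem A_half (m : ℕ) (hm : 1 ≤ m) : A m = A (m - 1) + (m + 2) / 2 := by
  obtain ⟨k, rfl⟩ : ∃ k, m = k + 1 := ⟨m - 1, by omega⟩
  rw [A_succ, Nat.add_sub_cancel]
  omega

theorem sumEven (m : ℕ) (hm : 1 ≤ m) : ∑ L ∈ range m, (m - L) + m +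
    (∑ y ∈ range m, ∑ x ∈ range (y - 1), ((y - x) / 2 + 1) +
      ∑ x ∈ range (m - 1), ((m - x + 1) / 2)) +
    ∑ t ∈ range (m + 1), ∑ s ∈ range (t - 3), ((t - s) / 2 - 1) + A m = (m + 3).choose 3 := by
  induction m, hm using Nat.le_induction with
  | base => decide
  | succ k hk ih =>
    rw [sum_range_succ (fun y => ∑ x ∈ range (y - 1), ((y - x) / 2 + 1)) k,
      sum_range_succ (fun t => ∑ s ∈ range (t - 3), ((t - s) / 2 - 1)) (k + 1), sumJ' k]
    have h1 := sumK k 0
    simp only [add_zero] at h1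
    have h2 := sumR0 k hk
    have h3 := sumC0 k hk
    have h4 := choose_two_A k
    have h5 := A_half k hk
    have h6 := A_succ k
    rw [show k + 1 + 3 = (k + 3) + 1 by ring, Nat.choose_succ_succ' (k + 3) 2, ← ih, h4]
    rw [h1, if_neg (by omega : ¬ k = 0)]
    omega

theorem A_eq (m : ℕ) : A m = (m + 2) ^ 2 / 4 := by
  unfold A
  rcases Nat.even_or_odd' m with ⟨k, rfl | rfl⟩
  · have h1 : 2 * k / 2 = k := by omega
    have h2 : (2 * k + 1) / 2 = k := by omega
    rw [h1, h2]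
    have : (2 * k + 2) ^ 2 = 4 * ((k + 1) * (k + 1)) := by ring
    rw [this, Nat.mul_div_cancel_left _ (by norm_num)]
  · have h1 : (2 * k + 1) / 2 = k := by omega
    have h2 : (2 * k + 1 + 1) / 2 = k + 1 := by omega
    rw [h1, h2]
    have : (2 * k + 1 + 2) ^ 2 = 4 * ((k + 1) * (k + 1 + 1)) + 1 := by ring
    rw [this]
    omega

theorem card_even (m r : ℕ) (hm : 1 ≤ m) : (L0 (m + 2 * r) m ∪ R2 m).card + (m + 2) ^ 2 / 4 ≤
    r * (m + 2).choose 2 + (m + 3).choose 3 := by
  rw [← A_eq]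
  refine (add_le_add_left ((card_union_le _ _).trans
    (add_le_add (card_L0 _ _) (card_R2 _))) _).trans ?_
  have e1 : (m + 2 * r - m + 1) / 2 = r := by omega
  have e2 : (m + 2 * r - m) / 2 = r := by omega
  have e3 : m + 2 * r - 2 * r + 1 = m + 1 := by omega
  have h := sumK2 m 0 (2 * r)
  simp only [add_zero] at h
  rw [e1, e2, e3, h, ← sumO m, ← sumEven m hm]
  apply le_of_eq
  ring

theorem card_two (r : ℕ) : (L0 (2 + 2 * r) 2 ∪ R1 2).card ≤ 6 * (r + 1) + 1 := by
  refine (card_union_le _ _).trans ?_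
  refine (add_le_add (card_L0 _ _) (card_R1 _)).trans ?_
  have e1 : (2 + 2 * r - 2 + 1) / 2 = r := by omega
  have e2 : (2 + 2 * r - 2) / 2 = r := by omega
  have e3 : 2 + 2 * r - 2 * r + 1 = 3 := by omega
  rw [e1, e2, e3]
  simp [sum_range_succ]
  omega

end Pool.Agent.Helper21TS
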