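import Pool.Agent.Helper21_TS.Reduction

namespace Pool.Agent.Helper21TS

universe u

/-- a pair `(s,x) ≤ (t,y)` of points of the grid is recorded as `(s,t,x,y)` -/
abbrev V := ℕ × ℕ × ℕ × ℕ

/-- `v` is a pair of distinct comparable points of `[0,n] × [0,m]` -/
def Valid (n m : ℕ) (v : V) : Prop :=
  v.1 ≤ v.2.1 ∧ v.2.1 ≤ n ∧ v.2.2.1 ≤ v.2.2.2 ∧ v.2.2.2 ≤ m ∧ (v.1 < v.2.1 ∨ v.2.2.1 < v.2.2.2)

/-- `v` below `w` in the product order and not stacked -/
def Below (v w : V) : Prop :=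
  v.1 ≤ w.1 ∧ v.2.1 ≤ w.2.1 ∧ v.2.2.1 ≤ w.2.2.1 ∧ v.2.2.2 ≤ w.2.2.2 ∧
    (w.1 < v.2.1 ∨ w.2.2.1 < v.2.2.2)

/-- adjacency in the conflict graph -/
def Adj (v w : V) : Prop := Below v w ∨ Below w v

/-- independent families -/
def Indep (S : Finset V) : Prop := ∀ v ∈ S, ∀ w ∈ S, v ≠ w → ¬ Adj v w

theorem conjTriv_of_cyclic (G : Type u) [Group G] [IsCyclic G] : ConjTriv G := by
  have hcomm : ∀ a b : G, a * b = b * a := (IsCyclic.commGroup (α := G)).mul_comm
  intro g K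
  ext x
  simp only [Subgroup.mem_map, MulEquiv.coe_toMonoidHom, MulAut.conj_apply]
  constructor
  · rintro ⟨y, hy, rfl⟩
    rw [hcomm g y, mul_assoc, mul_inv_cancel, mul_one]; exact hy
  · intro hx
    exact ⟨x, hx, by rw [hcomm g x, mul_assoc, mul_inv_cancel, mul_one]⟩

theorem le_iff_card_dvd (G : Type u) [Group G] [IsCyclic G] [Finite G] (K H : Subgroup G) :
    K ≤ H ↔ Nat.card K ∣ Nat.card H := by
  classical
  constructor
  · exact Subgroup.card_dvd_of_le
  · intro hd x hx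
    have hpos : 0 < Nat.card H := Nat.card_pos
    have : Fintype G := Fintype.ofFinite G
    have h1 := IsCyclic.card_pow_eq_one_le (α := G) hpos
    have hpow : ∀ (L : Subgroup G) (a : G), a ∈ L → a ^ Nat.card L = 1 := by
      intro L a ha
      have := pow_card_eq_one' (G := L) (x := ⟨a, ha⟩)
      exact congrArg Subtype.val this
    have hsub : (Finset.univ.filter (fun a : G => a ∈ H)) ⊆
        Finset.univ.filter (fun a : G => a ^ Nat.card H = 1) := by
      intro a ha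
      simp only [Finset.mem_filter, Finset.mem_univ, true_and] at ha ⊢
      exact hpow H a ha
    have hcard : (Finset.univ.filter (fun a : G => a ∈ H)).card = Nat.card H := by
      rw [Nat.card_eq_fintype_card, Fintype.card_subtype]
    have heq := Finset.eq_of_subset_of_card_le hsub (by rw [hcard]; exact h1)
    have hx2 : x ∈ Finset.univ.filter (fun a : G => a ^ Nat.card H = 1) := by
      simp only [Finset.mem_filter, Finset.mem_univ, true_and]
      obtain ⟨k, hk⟩ := hd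
      rw [hk, pow_mul, hpow K x hx, one_pow]
    rw [← heq] at hx2
    simpa using hx2

theorem pow_mul_dvd_iff {p q : ℕ} (hp : p.Prime) (hq : q.Prime) (hpq : p ≠ q) (i j k l : ℕ) :
    p ^ i * q ^ j ∣ p ^ k * q ^ l ↔ i ≤ k ∧ j ≤ l := by
  have hc : ∀ a b, Nat.Coprime (p ^ a) (q ^ b) := fun a b =>
    Nat.Coprime.pow a b ((Nat.coprime_primes hp hq).mpr hpq)
  constructor
  · intro h
    constructor
    · have h1 : p ^ i ∣ p ^ k * q ^ l := (Dvd.intro _ rfl).trans h
      have h2 : p ^ i ∣ p ^ k := (hc i l).dvd_of_dvd_mul_right h1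
      exact (Nat.pow_dvd_pow_iff_le_right hp.one_lt).mp h2
    · have h1 : q ^ j ∣ p ^ k * q ^ l := (Dvd.intro_left _ rfl).trans h
      have h2 : q ^ j ∣ q ^ l := ((hc k j).symm).dvd_of_dvd_mul_left h1
      exact (Nat.pow_dvd_pow_iff_le_right hq.one_lt).mp h2
  · rintro ⟨h1, h2⟩
    exact Nat.mul_dvd_mul (pow_dvd_pow p h1) (pow_dvd_pow q h2)

/-- the subgroups of a cyclic group of order `p^n q^m` form the grid `[0,n] × [0,m]` -/
theorem exists_grid (G : Type u) [Group G] [IsCyclic G] {p q n m : ℕ} (hp : p.Prime) (hq : q.Prime)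
    (hpq : p ≠ q) (hG : Nat.card G = p ^ n * q ^ m) :
    ∃ e : Subgroup G → ℕ × ℕ, (∀ K H, K ≤ H ↔ (e K).1 ≤ (e H).1 ∧ (e K).2 ≤ (e H).2) ∧
      (∀ K, (e K).1 ≤ n ∧ (e K).2 ≤ m) ∧ ∀ i ≤ n, ∀ j ≤ m, ∃ K, e K = (i, j) := by
  have hpos : 0 < Nat.card G := by
    rw [hG]; exact Nat.mul_pos (pow_pos hp.pos _) (pow_pos hq.pos _)
  have hfin : Finite G := Nat.finite_of_card_ne_zero hpos.ne'
  have h1 : ∀ K : Subgroup G, ∃ ij : ℕ × ℕ, Nat.card K = p ^ ij.1 * q ^ ij.2 ∧
      ij.1 ≤ n ∧ ij.2 ≤ m := by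
    intro K
    have hd : Nat.card K ∣ p ^ n * q ^ m := hG ▸ Subgroup.card_subgroup_dvd_card K
    obtain ⟨a, b, ha, hb, hab⟩ := (Nat.dvd_mul).mp hd
    obtain ⟨i, hi, rfl⟩ := (Nat.dvd_prime_pow hp).mp ha
    obtain ⟨j, hj, rfl⟩ := (Nat.dvd_prime_pow hq).mp hb
    exact ⟨(i, j), hab.symm, hi, hj⟩
  choose e he hle1 hle2 using h1
  refine ⟨e, ?_, fun K => ⟨hle1 K, hle2 K⟩, ?_⟩
  · intro K H
    rw [le_iff_card_dvd, he K, he H, pow_mul_dvd_iff hp hq hpq]
  · intro i hi j hj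
    have hd : p ^ i * q ^ j ∣ Nat.card G := by
      rw [hG, pow_mul_dvd_iff hp hq hpq]; exact ⟨hi, hj⟩
    obtain ⟨g, hg⟩ := IsCyclic.exists_ofOrder_eq_natCard (α := G)
    obtain ⟨k, hk⟩ := hd
    have hk0 : k ≠ 0 := by
      rintro rfl
      rw [mul_zero] at hk; omega
    have ho : orderOf (g ^ k) = p ^ i * q ^ j := by
      rw [orderOf_pow_of_dvd hk0 (by rw [hg, hk]; exact Dvd.intro_left _ rfl), hg, hk]
      exact Nat.mul_div_cancel _ (Nat.pos_of_ne_zero hk0)
    refine ⟨Subgroup.zpowers (g ^ k), ?_⟩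
    have h2 := he (Subgroup.zpowers (g ^ k))
    rw [Nat.card_zpowers, ho] at h2
    have h3 := (pow_mul_dvd_iff hp hq hpq i j _ _).mp (dvd_of_eq h2)
    have h4 := (pow_mul_dvd_iff hp hq hpq _ _ i j).mp (dvd_of_eq h2.symm)
    exact Prod.ext (le_antisymm h4.1 h3.1) (le_antisymm h4.2 h3.2)

/-- reduction of the complexity to the combinatorial extremal problem -/
theorem isComplexity_of_grid (G : Type u) [Group G] [IsCyclic G] {p q n m : ℕ} (hp : p.Prime)
    (hq : q.Prime) (hpq : p ≠ q) (hG : Nat.card G = p ^ n * q ^ m) (c : ℕ)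
    (h1 : ∀ S : Finset V, (∀ v ∈ S, Valid n m v) → Indep S → S.card ≤ c)
    (h2 : ∃ S : Finset V, (∀ v ∈ S, Valid n m v) ∧ Indep S ∧ c ≤ S.card) :
    IsComplexity G c := by
  classical
  have hpos : 0 < Nat.card G := by
    rw [hG]; exact Nat.mul_pos (pow_pos hp.pos _) (pow_pos hq.pos _)
  have hfin : Finite G := Nat.finite_of_card_ne_zero hpos.ne'
  obtain ⟨e, hle, hbd, hsurj⟩ := exists_grid G hp hq hpq hG
  have hinj : ∀ K H, e K = e H → K = H := by
    intro K H h
    apply le_antisymm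
    · rw [hle, h]; exact ⟨le_rfl, le_rfl⟩
    · rw [hle, h]; exact ⟨le_rfl, le_rfl⟩
  have hlt : ∀ K H, K < H ↔ ((e K).1 ≤ (e H).1 ∧ (e K).2 ≤ (e H).2 ∧
      ((e K).1 < (e H).1 ∨ (e K).2 < (e H).2)) := by
    intro K H
    rw [lt_iff_le_not_ge, hle, hle]
    omega
  let φ : Subgroup G × Subgroup G → V := fun x => ((e x.1).1, (e x.2).1, (e x.1).2, (e x.2).2)
  have hφ : Function.Injective φ := by
    intro x y hxy
    simp only [φ, Prod.mk.injEq] at hxy
    exact Prod.ext (hinj _ _ (Prod.ext hxy.1 hxy.2.2.1)) (hinj _ _ (Prod.ext hxy.2.1 hxy.2.2.2))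
  refine isComplexity_of_star (conjTriv_of_cyclic G) c ?_ ?_
  · intro S hS
    have hSf : S.Finite := Set.toFinite _
    have e1 := h1 (hSf.toFinset.image φ) ?_ ?_
    · rw [Finset.card_image_of_injective _ hφ] at e1
      rw [hSf.encard_eq_coe_toFinset_card]
      exact_mod_cast e1
    · intro v hv
      rw [Finset.mem_image] at hv
      obtain ⟨x, hx, rfl⟩ := hv
      rw [Set.Finite.mem_toFinset] at hx
      have h3 := (hlt _ _).mp (hS.1 x hx)
      have h4 := hbd x.2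
      exact ⟨h3.1, h4.1, h3.2.1, h4.2, h3.2.2⟩
    · have key : ∀ x ∈ S, ∀ y ∈ S, x ≠ y → ¬ Below (φ x) (φ y) := by
        intro x hx y hy hne hb
        have h5 := hS.2 x hx y hy hne ((hle _ _).mpr ⟨hb.1, hb.2.2.1⟩)
          ((hle _ _).mpr ⟨hb.2.1, hb.2.2.2.1⟩)
        have h6 := (hle _ _).mp h5
        have h7 := hb.2.2.2.2
        simp only [φ] at h7
        omega
      intro v hv w hw hne hadj
      rw [Finset.mem_image] at hv hw
      obtain ⟨x, hx, rfl⟩ := hv
      obtain ⟨y, hy, rfl⟩ := hw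
      rw [Set.Finite.mem_toFinset] at hx hy
      have hxy : x ≠ y := fun h => hne (by rw [h])
      rcases hadj with h | h
      · exact key x hx y hy hxy h
      · exact key y hy x hx hxy.symm h
  · obtain ⟨S, hV, hI, hc⟩ := h2
    have hex : ∀ v : V, ∃ x : Subgroup G × Subgroup G, Valid n m v → φ x = v := by
      intro v
      by_cases hv : Valid n m v
      · obtain ⟨K, hK⟩ := hsurj v.1 (hv.1.trans hv.2.1) v.2.2.1 (hv.2.2.1.trans hv.2.2.2.1)
        obtain ⟨H, hH⟩ := hsurj v.2.1 hv.2.1 v.2.2.2 hv.2.2.2.1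
        refine ⟨(K, H), fun _ => ?_⟩
        simp only [φ, hK, hH]
      · exact ⟨(⊥, ⊥), fun h => absurd h hv⟩
    choose ψ hψ using hex
    have hinj2 : Set.InjOn ψ (S : Set V) := by
      intro v hv w hw h
      rw [← hψ v (hV v hv), ← hψ w (hV w hw), h]
    refine ⟨((S.image ψ : Finset _) : Set _), ?_, ?_⟩
    · refine ⟨?_, ?_⟩
      · intro x hx
        rw [Finset.mem_coe, Finset.mem_image] at hx
        obtain ⟨v, hv, rfl⟩ := hx
        rw [hlt]
        have h3 := hψ v (hV v hv)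
        have h4 := hV v hv
        rw [← h3] at h4
        exact ⟨h4.1, h4.2.2.1, h4.2.2.2.2⟩
      · intro x hx y hy hne h3 h4
        rw [Finset.mem_coe, Finset.mem_image] at hx hy
        obtain ⟨v, hv, rfl⟩ := hx
        obtain ⟨w, hw, rfl⟩ := hy
        have hvw : v ≠ w := fun h => hne (by rw [h])
        have h5 := hI v hv w hw hvw
        rw [hle] at h3 h4 ⊢
        by_contra hcon
        apply h5
        left
        have e1 := hψ v (hV v hv)
        have e2 := hψ w (hV w hw)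
        rw [← e1, ← e2]
        refine ⟨h3.1, h4.1, h3.2, h4.2, ?_⟩
        simp only [φ]
        omega
    · rw [Set.encard_coe_eq_coe_finsetCard, Finset.card_image_of_injOn hinj2]
      exact_mod_cast hc

end Pool.Agent.Helper21TS
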