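import Pool.Agent.Helper21_TS.Cyclic

namespace Pool.Agent.Helper21TS

/-- labels -/
abbrev Lab := ℕ × ℕ × ℕ × ℕ

/-- labels for the part `y ≤ x + 1`, `s < t` (here `ρ = x + y`) -/
def XL (n m s t ρ : ℕ) : Lab :=
  if m % 2 = 1 then
    if ρ = m then (if t - s - 1 < m then (0, t - s - 1, s, 0) else (1, min s (n - t), 0, 0))
    else if ρ < m then (if ρ ≤ t - s - 1 then (0, ρ, t - ρ - 1, 0) else (0, t - s - 1, s, 0))
    else (if 2 * m - ρ ≤ t - s - 1 then (0, 2 * m - ρ, s, 0) else (0, t - s - 1, s, 0))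
  else
    if ρ = m + 1 then
      (if t - s - 1 ≤ m - 2 then (0, t - s - 1, s, 0)
       else if n % 2 = 0 ∧ s + t = n then
         (if s = 0 then (0, m - 1, 0, 0) else (1, s - 1, 0, 0))
       else (1, min s (n - t), 0, 0))
    else if ρ ≤ m - 1 then (if ρ ≤ t - s - 1 then (0, ρ, t - ρ - 1, 0) else (0, t - s - 1, s, 0))
    else if ρ = m then (if m - 1 ≤ t - s - 1 then (0, m - 1, s, 0) else (0, t - s - 1, s, 0))
    else (if 2 * m - ρ ≤ t - s - 1 then (0, 2 * m - ρ, s, 0) else (0, t - s - 1, s, 0))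

/-- the label of a vertex -/
def D (n m : ℕ) (v : V) : Lab :=
  if v.2.2.2 ≤ v.2.2.1 + 1 then
    (if v.1 < v.2.1 then XL n m v.1 v.2.1 (v.2.2.1 + v.2.2.2) else (2, v.2.2.1, 0, 0))
  else if min v.1 (n - v.2.1) < (n - m) / 2 then (3, v.2.2.1, v.2.2.2, min v.1 (n - v.2.1))
  else if (v.2.1 - v.1) / 2 ≤ (v.2.2.2 - v.2.2.1) / 2 then
    (4, v.2.2.1, v.2.2.2, (v.2.1 - v.1) / 2)
  else (5, v.1, v.2.1, (v.2.2.2 - v.2.2.1) / 2)

/-- shape of the `K` chains -/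
def InK (n m L s0 s t ρ : ℕ) : Prop :=
  (ρ = L ∧ L < m ∧ t = s0 + L + 1 ∧ s ≤ s0) ∨
  (L < ρ ∧ ρ + L < 2 * m ∧ s = s0 ∧ t = s0 + L + 1) ∨
  (s = s0 ∧ s0 + L + 1 ≤ t ∧ L < m ∧ ρ + L = 2 * m ∧ (m % 2 = 1 ∨ L + 2 ≤ m)) ∨
  (m % 2 = 0 ∧ L + 1 = m ∧ ρ = m ∧ s = s0 ∧ s0 + L + 1 ≤ t) ∨
  (m % 2 = 0 ∧ L + 1 = m ∧ s0 = 0 ∧ ρ = m + 1 ∧ s = 0 ∧ t = n ∧ n % 2 = 0)

theorem XL_K {n m s t ρ L s0 c : ℕ} (hm : 1 ≤ m) (hst : s < t) (htn : t ≤ n) (hmn : m ≤ n)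
    (hρ : ρ ≤ 2 * m) (h : XL n m s t ρ = (0, L, s0, c)) : InK n m L s0 s t ρ ∧ c = 0 := by
  unfold XL at h
  unfold InK
  split_ifs at h <;> simp only [Prod.mk.injEq] at h <;>
    first
    | exact absurd h.1 (by decide)
    | (refine ⟨Or.inl ?_, ?_⟩ <;> omega)
    | (refine ⟨Or.inr (Or.inl ?_), ?_⟩ <;> omega)
    | (refine ⟨Or.inr (Or.inr (Or.inl ?_)), ?_⟩ <;> omega)
    | (refine ⟨Or.inr (Or.inr (Or.inr (Or.inl ?_))), ?_⟩ <;> omega)
    | (refine ⟨Or.inr (Or.inr (Or.inr (Or.inr ?_))), ?_⟩ <;> omega)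

/-- shape of the `XF` chains -/
def InX (n m k s t ρ : ℕ) : Prop :=
  (m % 2 = 1 ∧ ρ = m ∧ s + m + 1 ≤ t ∧ ((s = k ∧ s + t ≤ n) ∨ (t + k = n ∧ n ≤ s + t))) ∨
  (m % 2 = 0 ∧ ρ = m + 1 ∧ s + m ≤ t ∧ (n % 2 = 1 ∨ s + t ≠ n) ∧
    ((s = k ∧ s + t ≤ n) ∨ (t + k = n ∧ n ≤ s + t))) ∨
  (m % 2 = 0 ∧ ρ = m + 1 ∧ s + m ≤ t ∧ n % 2 = 0 ∧ s + t = n ∧ s = k + 1)

theorem XL_X {n m s t ρ k b c : ℕ} (hm : 1 ≤ m) (hst : s < t) (htn : t ≤ n) (hmn : m ≤ n)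
    (hρ : ρ ≤ 2 * m) (h : XL n m s t ρ = (1, k, b, c)) : InX n m k s t ρ ∧ b = 0 ∧ c = 0 := by
  unfold XL at h
  unfold InX
  split_ifs at h <;> simp only [Prod.mk.injEq] at h <;>
    first
    | exact absurd h.1 (by decide)
    | (refine ⟨Or.inl ?_, ?_⟩ <;> omega)
    | (refine ⟨Or.inr (Or.inl ?_), ?_⟩ <;> omega)
    | (refine ⟨Or.inr (Or.inr ?_), ?_⟩ <;> omega)

theorem XL_tag {n m s t ρ : ℕ} : (XL n m s t ρ).1 = 0 ∨ (XL n m s t ρ).1 = 1 := by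
  unfold XL
  split_ifs <;> simp


theorem D_K {n m s t x y L s0 c : ℕ} (hm : 1 ≤ m) (hmn : m ≤ n) (hv : Valid n m (s, t, x, y))
    (h : D n m (s, t, x, y) = (0, L, s0, c)) :
    x ≤ y ∧ y ≤ x + 1 ∧ s < t ∧ InK n m L s0 s t (x + y) ∧ c = 0 := by
  obtain ⟨h1, h2, h3, h4, h5⟩ := hv
  simp only at h1 h2 h3 h4 h5
  unfold D at h
  simp only at h
  split_ifs at h with a b d e
  · exact ⟨h3, a, b, XL_K hm b h2 hmn (by omega) h⟩
  all_goals simp only [Prod.mk.injEq] at h; exact absurd h.1 (by decide)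

theorem D_X {n m s t x y k b c : ℕ} (hm : 1 ≤ m) (hmn : m ≤ n) (hv : Valid n m (s, t, x, y))
    (h : D n m (s, t, x, y) = (1, k, b, c)) :
    x ≤ y ∧ y ≤ x + 1 ∧ s < t ∧ InX n m k s t (x + y) ∧ b = 0 ∧ c = 0 := by
  obtain ⟨h1, h2, h3, h4, h5⟩ := hv
  simp only at h1 h2 h3 h4 h5
  unfold D at h
  simp only at h
  split_ifs at h with a b d e
  · exact ⟨h3, a, b, XL_X hm b h2 hmn (by omega) h⟩
  all_goals simp only [Prod.mk.injEq] at h; exact absurd h.1 (by decide)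

theorem D_T {n m s t x y x0 b c : ℕ} (hv : Valid n m (s, t, x, y))
    (h : D n m (s, t, x, y) = (2, x0, b, c)) :
    y = x + 1 ∧ s = t ∧ x = x0 ∧ b = 0 ∧ c = 0 := by
  obtain ⟨h1, h2, h3, h4, h5⟩ := hv
  simp only at h1 h2 h3 h4 h5
  unfold D at h
  simp only at h
  split_ifs at h with a b d e
  · exfalso
    have := XL_tag (n := n) (m := m) (s := s) (t := t) (ρ := x + y)
    rw [h] at this; simp only at this; omega
  · simp only [Prod.mk.injEq] at h; omega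
  all_goals simp only [Prod.mk.injEq] at h; exact absurd h.1 (by decide)

theorem D_O {n m s t x y x0 y0 k : ℕ} (hv : Valid n m (s, t, x, y))
    (h : D n m (s, t, x, y) = (3, x0, y0, k)) :
    x + 2 ≤ y ∧ x = x0 ∧ y = y0 ∧ k < (n - m) / 2 ∧
      ((s = k ∧ s + t ≤ n) ∨ (t + k = n ∧ n ≤ s + t)) := by
  obtain ⟨h1, h2, h3, h4, h5⟩ := hv
  simp only at h1 h2 h3 h4 h5
  unfold D at h
  simp only at h
  split_ifs at h with a b d e
  · exfalso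
    have := XL_tag (n := n) (m := m) (s := s) (t := t) (ρ := x + y)
    rw [h] at this; simp only at this; omega
  all_goals simp only [Prod.mk.injEq] at h
  · exact absurd h.1 (by decide)
  · omega
  all_goals exact absurd h.1 (by decide)

theorem D_R {n m s t x y x0 y0 k : ℕ} (hv : Valid n m (s, t, x, y))
    (h : D n m (s, t, x, y) = (4, x0, y0, k)) :
    x + 2 ≤ y ∧ x = x0 ∧ y = y0 ∧ (n - m) / 2 ≤ s ∧ t + (n - m) / 2 ≤ n ∧
      s + 2 * k ≤ t ∧ t ≤ s + 2 * k + 1 ∧ x + 2 * k ≤ y := by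
  obtain ⟨h1, h2, h3, h4, h5⟩ := hv
  simp only at h1 h2 h3 h4 h5
  unfold D at h
  simp only at h
  split_ifs at h with a b d e
  · exfalso
    have := XL_tag (n := n) (m := m) (s := s) (t := t) (ρ := x + y)
    rw [h] at this; simp only at this; omega
  all_goals simp only [Prod.mk.injEq] at h
  · exact absurd h.1 (by decide)
  · exact absurd h.1 (by decide)
  · omega
  · exact absurd h.1 (by decide)

theorem D_C {n m s t x y s0 t0 l : ℕ} (hv : Valid n m (s, t, x, y))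
    (h : D n m (s, t, x, y) = (5, s0, t0, l)) :
    x + 2 ≤ y ∧ s = s0 ∧ t = t0 ∧ (n - m) / 2 ≤ s ∧ t + (n - m) / 2 ≤ n ∧
      x + 2 * l ≤ y ∧ y ≤ x + 2 * l + 1 ∧ s + 2 * l + 2 ≤ t ∧ 1 ≤ l := by
  obtain ⟨h1, h2, h3, h4, h5⟩ := hv
  simp only at h1 h2 h3 h4 h5
  unfold D at h
  simp only at h
  split_ifs at h with a b d e
  · exfalso
    have := XL_tag (n := n) (m := m) (s := s) (t := t) (ρ := x + y)
    rw [h] at this; simp only at this; omega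
  all_goals simp only [Prod.mk.injEq] at h
  · exact absurd h.1 (by decide)
  · exact absurd h.1 (by decide)
  · exact absurd h.1 (by decide)
  · omega

theorem D_tag (n m : ℕ) (v : V) : (D n m v).1 ≤ 5 := by
  unfold D
  have := XL_tag (n := n) (m := m) (s := v.1) (t := v.2.1) (ρ := v.2.2.1 + v.2.2.2)
  split_ifs <;> first | omega | norm_num

/-- two vertices with the same label are equal or adjacent -/
theorem D_clique {n m : ℕ} (hm : 1 ≤ m) (hmn : m ≤ n) (v w : V) (hv : Valid n m v)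
    (hw : Valid n m w) (h : D n m v = D n m w) : v = w ∨ Adj v w := by
  obtain ⟨s, t, x, y⟩ := v
  obtain ⟨s', t', x', y'⟩ := w
  have htag := D_tag n m (s, t, x, y)
  rcases hd : D n m (s, t, x, y) with ⟨g, a, b, c⟩
  rw [hd] at h htag
  simp only at htag
  have hw' := hw
  have hv' := hv
  obtain ⟨v1, v2, v3, v4, v5⟩ := hv'
  obtain ⟨w1, w2, w3, w4, w5⟩ := hw'
  simp only at v1 v2 v3 v4 v5 w1 w2 w3 w4 w5
  have hcase : g = 0 ∨ g = 1 ∨ g = 2 ∨ g = 3 ∨ g = 4 ∨ g = 5 := by omega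
  unfold Adj Below
  simp only [Prod.mk.injEq]
  rcases hcase with rfl | rfl | rfl | rfl | rfl | rfl
  · obtain ⟨a1, a2, a3, a4, a5⟩ := D_K hm hmn hv hd
    obtain ⟨b1, b2, b3, b4, b5⟩ := D_K hm hmn hw h.symm
    unfold InK at a4 b4
    rcases a4 with a4 | a4 | a4 | a4 | a4 <;> rcases b4 with b4 | b4 | b4 | b4 | b4 <;> omega
  · obtain ⟨a1, a2, a3, a4, a5⟩ := D_X hm hmn hv hd
    obtain ⟨b1, b2, b3, b4, b5⟩ := D_X hm hmn hw h.symm
    unfold InX at a4 b4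
    rcases a4 with a4 | a4 | a4 <;> rcases b4 with b4 | b4 | b4 <;> omega
  · have e1 := D_T hv hd
    have e2 := D_T hw h.symm
    omega
  · have e1 := D_O hv hd
    have e2 := D_O hw h.symm
    omega
  · have e1 := D_R hv hd
    have e2 := D_R hw h.symm
    omega
  · have e1 := D_C hv hd
    have e2 := D_C hw h.symm
    omega

end Pool.Agent.Helper21TS
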