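import Mathlib

/-!
Transfer systems for a group, bases, minimal bases and complexity, as in problem MP_0ca1b9_co.
-/

namespace Pool.Agent.Helper21TS

universe u

/-- A transfer system for the group `G`: a partial order `rel` on the subgroups of `G` which refines
inclusion, is invariant under conjugation and is closed under restriction. -/
structure TransferSystem (G : Type u) [Group G] where
  /-- the relation `K → H` -/
  rel : Subgroup G → Subgroup G → Prop
  refl : ∀ H, rel H H
  trans : ∀ {K H L}, rel K H → rel H L → rel K L
  antisymm : ∀ {K H}, rel K H → rel H K → K = H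
  le_of_rel : ∀ {K H}, rel K H → K ≤ H
  conj : ∀ (g : G) {K H}, rel K H →
    rel (K.map (MulAut.conj g).toMonoidHom) (H.map (MulAut.conj g).toMonoidHom)
  restrict : ∀ {K H L}, rel K H → L ≤ H → rel (K ⊓ L) L

namespace TransferSystem

variable {G : Type u} [Group G]

/-- `S` is a basis of `T`: it consists of pairs `(K, H)` with `K < H` and `K → H` in `T`, and `T` is
the smallest transfer system containing `S`. -/
def IsBasis (T : TransferSystem G) (S : Set (Subgroup G × Subgroup G)) : Prop :=
  (∀ x ∈ S, x.1 < x.2) ∧ (∀ x ∈ S, T.rel x.1 x.2) ∧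
    ∀ T' : TransferSystem G, (∀ x ∈ S, T'.rel x.1 x.2) → ∀ K H, T.rel K H → T'.rel K H

/-- A basis is minimal if no proper subset of it is a basis of `T`. -/
def IsMinimalBasis (T : TransferSystem G) (S : Set (Subgroup G × Subgroup G)) : Prop :=
  T.IsBasis S ∧ ∀ S', S' ⊂ S → ¬ T.IsBasis S'

/-- `T` has minimal bases, and every minimal basis of `T` has exactly `k` elements. -/
def HasRank (T : TransferSystem G) (k : ℕ) : Prop :=
  (∃ S, T.IsMinimalBasis S) ∧ ∀ S, T.IsMinimalBasis S → S.encard = k

end TransferSystem

/-- The complexity of `G` is `c`: every transfer system for `G` has a well-defined rank, which is at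
most `c`, and some transfer system for `G` has rank `c`. -/
def IsComplexity (G : Type u) [Group G] (c : ℕ) : Prop :=
  (∀ T : TransferSystem G, ∃ k ≤ c, T.HasRank k) ∧ ∃ T : TransferSystem G, T.HasRank c

/-- The conjectured value of the complexity of `C_{p^n q^m}`, for `n ≥ m ≥ 2`. -/
def F (n m : ℕ) : ℕ :=
  if (n + m) % 2 = 1 then (n - m - 1) / 2 * (m + 2).choose 2 + (m + 3).choose 3
  else if 3 ≤ m then (n - m) / 2 * (m + 2).choose 2 + (m + 3).choose 3 - (m + 2) ^ 2 / 4
  else 6 * (n / 2) + 1

end Pool.Agent.Helper21TS
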