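import Pool.Agent.Helper21_TS.LinkEvenDef

namespace Pool.Agent.Helper21TS

open Finset

theorem LinkE_mid {h r : ℕ} (hh : 2 ≤ h) (v : V)
    (hv : Valid (2 * h + 2 * r) (2 * h) v) (hr : rk v = 2 * (2 * h + r)) :
    (∃ a b, LinkE h r a v b) ∨ ((∀ p b, ¬ LinkE h r (D (2 * h + 2 * r) (2 * h) v) p b) ∧
      D (2 * h + 2 * r) (2 * h) v ∈ L0 (2 * h + 2 * r) (2 * h) ∪ R2 (2 * h)) := by
  have hmem := D_mem (by omega : 1 ≤ 2 * h) (by omega : 2 * h ≤ 2 * h + 2 * r) v hv
  obtain ⟨s, t, x, z⟩ := v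
  have htag := D_tag (2 * h + 2 * r) (2 * h) (s, t, x, z)
  rcases hd : D (2 * h + 2 * r) (2 * h) (s, t, x, z) with ⟨g, a, b, c⟩
  rw [hd] at htag hmem
  simp only at htag
  have hv' := hv
  obtain ⟨v1, v2, v3, v4, v5⟩ := hv'
  simp only [rk] at v1 v2 v3 v4 v5 hr
  have e1 : (2 * h + 2 * r - 2 * h) / 2 = r := by omega
  have hnat : g ≠ 4 → ((g, a, b, c) : Lab) ∈ L0 (2 * h + 2 * r) (2 * h) ∪ R2 (2 * h) := by
    intro h4
    rw [mem_union] at hmem ⊢
    rcases hmem with h | h
    · exact Or.inl h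
    · exfalso
      unfold R1 at h
      rw [mem_image] at h
      obtain ⟨q, _, hq⟩ := h
      simp only [Prod.mk.injEq] at hq
      exact h4 hq.1.symm
  have hcase : g = 0 ∨ g = 1 ∨ g = 2 ∨ g = 3 ∨ g = 4 ∨ g = 5 := by omega
  rcases hcase with rfl | rfl | rfl | rfl | rfl | rfl
  · obtain ⟨a1, a2, a3, a4, rfl⟩ := D_K (by omega) (by omega) hv hd
    unfold InK at a4
    by_cases q1 : a = 1 ∧ b = r
    · left
      refine ⟨(0, 1, r, 0), (0, 0, r + 1, 0), ?_⟩
      right; right; right; right; right; right; right; right; right; right; right; right; right; right; right; right; right; left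
      exact ⟨by omega, tup (by omega) (by omega) (by omega) (by omega), tup (by omega) (by omega) (by omega) (by omega), tup (by omega) (by omega) (by omega) (by omega)⟩
    by_cases q2 : b = r + 1 ∧ a = 0
    · left
      refine ⟨(4, 2 * h - 3, 2 * h - 1, 0), (2, 2 * h - 2, 0, 0), ?_⟩
      right; right; right; right; right; right; right; right; right; right; right; right; right; right; left
      exact ⟨by omega, tup (by omega) (by omega) (by omega) (by omega), tup (by omega) (by omega) (by omega) (by omega), tup (by omega) (by omega) (by omega) (by omega)⟩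
    by_cases q3 : b = r + 1 ∧ 1 ≤ a ∧ a + 3 ≤ 2 * h
    · left
      refine ⟨(0, (a - 1), r + 1, 0), (0, (a - 1) + 1, r + 1, 0), ?_⟩
      right; right; right; right; right; right; right; right; right; right; right; right; right; right; right; right; right; right; left
      exact ⟨a - 1, by omega, tup (by omega) (by omega) (by omega) (by omega), tup (by omega) (by omega) (by omega) (by omega), tup (by omega) (by omega) (by omega) (by omega)⟩
    right
    refine ⟨?_, hnat (by decide)⟩
    intro p b' h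
    unfold LinkE at h
    rcases h with ⟨k, y, c1, c2, c3, ha, hp, hb⟩ |
        ⟨y, c1, c2, ha, hp, hb⟩ |
        ⟨k, y, c1, c2, c3, ha, hp, hb⟩ |
        ⟨y, c1, c2, ha, hp, hb⟩ |
        ⟨k, y, c1, c2, c3, ha, hp, hb⟩ |
        ⟨k, y, c1, c2, c3, ha, hp, hb⟩ |
        ⟨k, y, c1, c2, c3, ha, hp, hb⟩ |
        ⟨k, c1, c2, ha, hp, hb⟩ |
        ⟨k, c1, c2, ha, hp, hb⟩ |
        ⟨k, c1, c2, ha, hp, hb⟩ |
        ⟨k, c1, c2, ha, hp, hb⟩ |
        ⟨k, c1, c2, ha, hp, hb⟩ |
        ⟨k, c1, c2, ha, hp, hb⟩ |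
        ⟨k, c1, c2, ha, hp, hb⟩ |
        ⟨c1, ha, hp, hb⟩ |
        ⟨c1, ha, hp, hb⟩ |
        ⟨c1, ha, hp, hb⟩ |
        ⟨c1, ha, hp, hb⟩ |
        ⟨k, c1, ha, hp, hb⟩ |
        ⟨c1, ha, hp, hb⟩ |
        ⟨k, c1, c2, ha, hp, hb⟩ |
        ⟨c1, ha, hp, hb⟩ |
        ⟨c1, ha, hp, hb⟩ <;>
      simp only [Prod.mk.injEq] at ha <;> omega
  · right
    refine ⟨?_, hnat (by decide)⟩
    intro p b' h
    unfold LinkE at h
    rcases h with ⟨k, y, c1, c2, c3, ha, hp, hb⟩ |
        ⟨y, c1, c2, ha, hp, hb⟩ |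
        ⟨k, y, c1, c2, c3, ha, hp, hb⟩ |
        ⟨y, c1, c2, ha, hp, hb⟩ |
        ⟨k, y, c1, c2, c3, ha, hp, hb⟩ |
        ⟨k, y, c1, c2, c3, ha, hp, hb⟩ |
        ⟨k, y, c1, c2, c3, ha, hp, hb⟩ |
        ⟨k, c1, c2, ha, hp, hb⟩ |
        ⟨k, c1, c2, ha, hp, hb⟩ |
        ⟨k, c1, c2, ha, hp, hb⟩ |
        ⟨k, c1, c2, ha, hp, hb⟩ |
        ⟨k, c1, c2, ha, hp, hb⟩ |
        ⟨k, c1, c2, ha, hp, hb⟩ |
        ⟨k, c1, c2, ha, hp, hb⟩ |
        ⟨c1, ha, hp, hb⟩ |
        ⟨c1, ha, hp, hb⟩ |
        ⟨c1, ha, hp, hb⟩ |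
        ⟨c1, ha, hp, hb⟩ |
        ⟨k, c1, ha, hp, hb⟩ |
        ⟨c1, ha, hp, hb⟩ |
        ⟨k, c1, c2, ha, hp, hb⟩ |
        ⟨c1, ha, hp, hb⟩ |
        ⟨c1, ha, hp, hb⟩ <;>
      simp only [Prod.mk.injEq] at ha <;> omega
  · have := D_T hv hd
    omega
  · right
    refine ⟨?_, hnat (by decide)⟩
    intro p b' h
    unfold LinkE at h
    rcases h with ⟨k, y, c1, c2, c3, ha, hp, hb⟩ |
        ⟨y, c1, c2, ha, hp, hb⟩ |
        ⟨k, y, c1, c2, c3, ha, hp, hb⟩ |
        ⟨y, c1, c2, ha, hp, hb⟩ |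
        ⟨k, y, c1, c2, c3, ha, hp, hb⟩ |
        ⟨k, y, c1, c2, c3, ha, hp, hb⟩ |
        ⟨k, y, c1, c2, c3, ha, hp, hb⟩ |
        ⟨k, c1, c2, ha, hp, hb⟩ |
        ⟨k, c1, c2, ha, hp, hb⟩ |
        ⟨k, c1, c2, ha, hp, hb⟩ |
        ⟨k, c1, c2, ha, hp, hb⟩ |
        ⟨k, c1, c2, ha, hp, hb⟩ |
        ⟨k, c1, c2, ha, hp, hb⟩ |
        ⟨k, c1, c2, ha, hp, hb⟩ |
        ⟨c1, ha, hp, hb⟩ |
        ⟨c1, ha, hp, hb⟩ |
        ⟨c1, ha, hp, hb⟩ |
        ⟨c1, ha, hp, hb⟩ |
        ⟨k, c1, ha, hp, hb⟩ |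
        ⟨c1, ha, hp, hb⟩ |
        ⟨k, c1, c2, ha, hp, hb⟩ |
        ⟨c1, ha, hp, hb⟩ |
        ⟨c1, ha, hp, hb⟩ <;>
      simp only [Prod.mk.injEq] at ha <;> omega
  · have h1 := D_R hv hd
    rw [e1] at h1
    obtain ⟨f1, rfl, rfl, f4, f5, f6, f7, f8⟩ := h1
    by_cases j0 : z = x + 2 * c
    · left
      by_cases q1 : x % 2 = 0 ∧ x + 2 * c + 4 ≤ 2 * h
      · refine ⟨(4, (x), (x) + 2 * (c), (c)), (4, (x), (x) + 2 * (c), (c) - 1), ?_⟩
        left
        exact ⟨c, x, by omega, by omega, by omega, tup (by omega) (by omega) (by omega) (by omega), tup (by omega) (by omega) (by omega) (by omega), tup (by omega) (by omega) (by omega) (by omega)⟩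
      by_cases q2 : x % 2 = 1 ∧ x + 2 * c + 3 ≤ 2 * h
      · refine ⟨(4, (x - 1) + 1, (x - 1) + 1 + 2 * (c), (c) - 1), (4, (x - 1) + 1, (x - 1) + 1 + 2 * (c), (c)), ?_⟩
        right; right; right; right; right; left
        exact ⟨c, x - 1, by omega, by omega, by omega, tup (by omega) (by omega) (by omega) (by omega), tup (by omega) (by omega) (by omega) (by omega), tup (by omega) (by omega) (by omega) (by omega)⟩
      by_cases q3 : x + 2 * c + 2 = 2 * h
      · by_cases q4 : c + 1 = h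
        · refine ⟨(4, 0, 2 * h - 2, (c)), (4, 0, 2 * h - 2, (c) - 1), ?_⟩
          right; right; right; right; right; right; right; right; right; left
          exact ⟨c, by omega, by omega, tup (by omega) (by omega) (by omega) (by omega), tup (by omega) (by omega) (by omega) (by omega), tup (by omega) (by omega) (by omega) (by omega)⟩
        · refine ⟨(4, 2 * h - 2 * (c) - 3, 2 * h - 2, (c)), (4, 2 * h - 2 * (c) - 2, 2 * h - 2, (c) - 1), ?_⟩
          right; right; right; right; right; right; right; right; right; right; left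
          exact ⟨c, by omega, by omega, tup (by omega) (by omega) (by omega) (by omega), tup (by omega) (by omega) (by omega) (by omega), tup (by omega) (by omega) (by omega) (by omega)⟩
      by_cases q5 : x + 2 * c + 1 = 2 * h
      · by_cases q6 : c + 1 = h
        · by_cases q7 : h = 2
          · refine ⟨(0, 1, r + 1, 0), (4, 1, 4, 1), ?_⟩
            right; right; right; right; right; right; right; right; right; right; right; right; right; right; right; right; right; right; right; right; right; right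
            exact ⟨by omega, tup (by omega) (by omega) (by omega) (by omega), tup (by omega) (by omega) (by omega) (by omega), tup (by omega) (by omega) (by omega) (by omega)⟩
          · refine ⟨(5, r + 1, 2 * h + r - 1, h - 2), (4, 1, 2 * h, h - 1), ?_⟩
            right; right; right; right; right; right; right; right; right; right; right; right; right; right; right; right; right; right; right; right; right; left
            exact ⟨by omega, tup (by omega) (by omega) (by omega) (by omega), tup (by omega) (by omega) (by omega) (by omega), tup (by omega) (by omega) (by omega) (by omega)⟩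
        · refine ⟨(4, 2 * h - 2 * (c) - 2, 2 * h - 1, (c)), (4, 2 * h - 2 * (c) - 1, 2 * h, (c)), ?_⟩
          right; right; right; right; right; right; right; right; right; right; right; right; left
          exact ⟨c, by omega, by omega, tup (by omega) (by omega) (by omega) (by omega), tup (by omega) (by omega) (by omega) (by omega), tup (by omega) (by omega) (by omega) (by omega)⟩
      by_cases q8 : c = 1
      · refine ⟨(4, 2 * h - 2, 2 * h, 0), (0, 1, r, 0), ?_⟩
        right; right; right; right; right; right; right; right; right; right; right; right; right; right; right; right; left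
        exact ⟨by omega, tup (by omega) (by omega) (by omega) (by omega), tup (by omega) (by omega) (by omega) (by omega), tup (by omega) (by omega) (by omega) (by omega)⟩
      · refine ⟨(5, r, r + 2 * (c), (c) - 1), (5, r, r + 2 * (c), (c) - 1), ?_⟩
        right; right; right; right; right; right; right; right; right; right; right; right; right; left
        exact ⟨c, by omega, by omega, tup (by omega) (by omega) (by omega) (by omega), tup (by omega) (by omega) (by omega) (by omega), tup (by omega) (by omega) (by omega) (by omega)⟩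
    by_cases j1 : z = x + 2 * c + 1
    · by_cases q1 : x % 2 = 1 ∧ x + 2 * c + 3 ≤ 2 * h
      · left
        refine ⟨(4, (x), (x) + 2 * (c), (c)), (4, (x) + 1, (x) + 1 + 2 * (c), (c)), ?_⟩
        right; right; right; right; right; right; left
        exact ⟨c, x, by omega, by omega, by omega, tup (by omega) (by omega) (by omega) (by omega), tup (by omega) (by omega) (by omega) (by omega), tup (by omega) (by omega) (by omega) (by omega)⟩
      by_cases q2 : x + 2 * c + 1 = 2 * h
      · left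
        refine ⟨(4, 2 * h - 2 * (c) - 1, 2 * h, (c)), (4, 2 * h - 2 * (c), 2 * h, (c)), ?_⟩
        right; right; right; right; right; right; right; right; left
        exact ⟨c, by omega, by omega, tup (by omega) (by omega) (by omega) (by omega), tup (by omega) (by omega) (by omega) (by omega), tup (by omega) (by omega) (by omega) (by omega)⟩
      by_cases q3 : x + 2 * c + 2 = 2 * h ∧ c + 2 ≤ h
      · left
        refine ⟨(4, 2 * h - 2 * (c) - 2, 2 * h - 2, (c)), (4, 2 * h - 2 * (c) - 2, 2 * h - 1, (c)), ?_⟩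
        right; right; right; right; right; right; right; right; right; right; right; left
        exact ⟨c, by omega, by omega, tup (by omega) (by omega) (by omega) (by omega), tup (by omega) (by omega) (by omega) (by omega), tup (by omega) (by omega) (by omega) (by omega)⟩
      right
      refine ⟨?_, ?_⟩
      · intro p b' h
        unfold LinkE at h
        rcases h with ⟨k, y, c1, c2, c3, ha, hp, hb⟩ |
            ⟨y, c1, c2, ha, hp, hb⟩ |
            ⟨k, y, c1, c2, c3, ha, hp, hb⟩ |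
            ⟨y, c1, c2, ha, hp, hb⟩ |
            ⟨k, y, c1, c2, c3, ha, hp, hb⟩ |
            ⟨k, y, c1, c2, c3, ha, hp, hb⟩ |
            ⟨k, y, c1, c2, c3, ha, hp, hb⟩ |
            ⟨k, c1, c2, ha, hp, hb⟩ |
            ⟨k, c1, c2, ha, hp, hb⟩ |
            ⟨k, c1, c2, ha, hp, hb⟩ |
            ⟨k, c1, c2, ha, hp, hb⟩ |
            ⟨k, c1, c2, ha, hp, hb⟩ |
            ⟨k, c1, c2, ha, hp, hb⟩ |
            ⟨k, c1, c2, ha, hp, hb⟩ |
            ⟨c1, ha, hp, hb⟩ |
            ⟨c1, ha, hp, hb⟩ |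
            ⟨c1, ha, hp, hb⟩ |
            ⟨c1, ha, hp, hb⟩ |
            ⟨k, c1, ha, hp, hb⟩ |
            ⟨c1, ha, hp, hb⟩ |
            ⟨k, c1, c2, ha, hp, hb⟩ |
            ⟨c1, ha, hp, hb⟩ |
            ⟨c1, ha, hp, hb⟩ <;>
          simp only [Prod.mk.injEq] at ha <;> omega
      · rw [mem_union]; right
        apply mem_R2 <;> omega
    by_cases j2 : z = x + 2 * c + 2
    · by_cases q1 : x % 2 = 0 ∧ x + 2 * c + 4 ≤ 2 * h
      · left
        by_cases q2 : c = 0
        · refine ⟨(4, (x), (x) + 2, 0), (2, (x) + 1, 0, 0), ?_⟩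
          right; left
          exact ⟨x, by omega, by omega, tup (by omega) (by omega) (by omega) (by omega), tup (by omega) (by omega) (by omega) (by omega), tup (by omega) (by omega) (by omega) (by omega)⟩
        · refine ⟨(4, (x), (x) + 2 * (c + 1), (c + 1) - 1), (4, (x) + 1, (x) + 2 * (c + 1), (c + 1) - 1), ?_⟩
          right; right; left
          exact ⟨c + 1, x, by omega, by omega, by omega, tup (by omega) (by omega) (by omega) (by omega), tup (by omega) (by omega) (by omega) (by omega), tup (by omega) (by omega) (by omega) (by omega)⟩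
      by_cases q3 : x % 2 = 1 ∧ x + 2 * c + 5 ≤ 2 * h ∧ 1 ≤ c
      · left
        refine ⟨(4, (x - 1) + 1, (x - 1) + 2 * (c + 1), (c + 1) - 1), (4, (x - 1) + 1, (x - 1) + 1 + 2 * (c + 1), (c + 1) - 1), ?_⟩
        right; right; right; right; left
        exact ⟨c + 1, x - 1, by omega, by omega, by omega, tup (by omega) (by omega) (by omega) (by omega), tup (by omega) (by omega) (by omega) (by omega), tup (by omega) (by omega) (by omega) (by omega)⟩
      by_cases q4 : x % 2 = 1 ∧ c = 0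
      · left
        refine ⟨(2, (x - 1) + 1, 0, 0), (4, (x - 1) + 1, (x - 1) + 3, 0), ?_⟩
        right; right; right; left
        exact ⟨x - 1, by omega, by omega, tup (by omega) (by omega) (by omega) (by omega), tup (by omega) (by omega) (by omega) (by omega), tup (by omega) (by omega) (by omega) (by omega)⟩
      by_cases q5 : x + 2 = 2 * h ∧ c = 0
      · left
        refine ⟨(2, 2 * h - 2, 0, 0), (4, 2 * h - 2, 2 * h, 0), ?_⟩
        right; right; right; right; right; right; right; right; right; right; right; right; right; right; right; left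
        exact ⟨by omega, tup (by omega) (by omega) (by omega) (by omega), tup (by omega) (by omega) (by omega) (by omega), tup (by omega) (by omega) (by omega) (by omega)⟩
      right
      refine ⟨?_, ?_⟩
      · intro p b' h
        unfold LinkE at h
        rcases h with ⟨k, y, c1, c2, c3, ha, hp, hb⟩ |
            ⟨y, c1, c2, ha, hp, hb⟩ |
            ⟨k, y, c1, c2, c3, ha, hp, hb⟩ |
            ⟨y, c1, c2, ha, hp, hb⟩ |
            ⟨k, y, c1, c2, c3, ha, hp, hb⟩ |
            ⟨k, y, c1, c2, c3, ha, hp, hb⟩ |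
            ⟨k, y, c1, c2, c3, ha, hp, hb⟩ |
            ⟨k, c1, c2, ha, hp, hb⟩ |
            ⟨k, c1, c2, ha, hp, hb⟩ |
            ⟨k, c1, c2, ha, hp, hb⟩ |
            ⟨k, c1, c2, ha, hp, hb⟩ |
            ⟨k, c1, c2, ha, hp, hb⟩ |
            ⟨k, c1, c2, ha, hp, hb⟩ |
            ⟨k, c1, c2, ha, hp, hb⟩ |
            ⟨c1, ha, hp, hb⟩ |
            ⟨c1, ha, hp, hb⟩ |
            ⟨c1, ha, hp, hb⟩ |
            ⟨c1, ha, hp, hb⟩ |
            ⟨k, c1, ha, hp, hb⟩ |
            ⟨c1, ha, hp, hb⟩ |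
            ⟨k, c1, c2, ha, hp, hb⟩ |
            ⟨c1, ha, hp, hb⟩ |
            ⟨c1, ha, hp, hb⟩ <;>
          simp only [Prod.mk.injEq] at ha <;> omega
      · rw [mem_union]; right
        apply mem_R2 <;> omega
    right
    refine ⟨?_, ?_⟩
    · intro p b' h
      unfold LinkE at h
      rcases h with ⟨k, y, c1, c2, c3, ha, hp, hb⟩ |
          ⟨y, c1, c2, ha, hp, hb⟩ |
          ⟨k, y, c1, c2, c3, ha, hp, hb⟩ |
          ⟨y, c1, c2, ha, hp, hb⟩ |
          ⟨k, y, c1, c2, c3, ha, hp, hb⟩ |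
          ⟨k, y, c1, c2, c3, ha, hp, hb⟩ |
          ⟨k, y, c1, c2, c3, ha, hp, hb⟩ |
          ⟨k, c1, c2, ha, hp, hb⟩ |
          ⟨k, c1, c2, ha, hp, hb⟩ |
          ⟨k, c1, c2, ha, hp, hb⟩ |
          ⟨k, c1, c2, ha, hp, hb⟩ |
          ⟨k, c1, c2, ha, hp, hb⟩ |
          ⟨k, c1, c2, ha, hp, hb⟩ |
          ⟨k, c1, c2, ha, hp, hb⟩ |
          ⟨c1, ha, hp, hb⟩ |
          ⟨c1, ha, hp, hb⟩ |
          ⟨c1, ha, hp, hb⟩ |
          ⟨c1, ha, hp, hb⟩ |
          ⟨k, c1, ha, hp, hb⟩ |
          ⟨c1, ha, hp, hb⟩ |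
          ⟨k, c1, c2, ha, hp, hb⟩ |
          ⟨c1, ha, hp, hb⟩ |
          ⟨c1, ha, hp, hb⟩ <;>
        simp only [Prod.mk.injEq] at ha <;> omega
    · rw [mem_union]; right
      apply mem_R2 <;> omega
  · have h1 := D_C hv hd
    rw [e1] at h1
    obtain ⟨f1, rfl, rfl, f4, f5, f6, f7, f8, f9⟩ := h1
    by_cases q1 : s = r ∧ t = r + 2 * (c + 1)
    · left
      refine ⟨(4, 2 * h - 2 * (c) - 1, 2 * h - 1, (c)), (4, 2 * h - 2 * (c) - 1, 2 * h - 1, (c)), ?_⟩
      right; right; right; right; right; right; right; left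
      exact ⟨c, by omega, by omega, tup (by omega) (by omega) (by omega) (by omega), tup (by omega) (by omega) (by omega) (by omega), tup (by omega) (by omega) (by omega) (by omega)⟩
    by_cases q2 : s = r + 1 ∧ t = 2 * h + r - 1
    · left
      by_cases q3 : c = 1
      · refine ⟨(0, 2 * h - 3, r + 1, 0), (5, r + 1, 2 * h + r - 1, 1), ?_⟩
        right; right; right; right; right; right; right; right; right; right; right; right; right; right; right; right; right; right; right; left
        exact ⟨by omega, tup (by omega) (by omega) (by omega) (by omega), tup (by omega) (by omega) (by omega) (by omega), tup (by omega) (by omega) (by omega) (by omega)⟩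
      · refine ⟨(5, r + 1, 2 * h + r - 1, (c - 1)), (5, r + 1, 2 * h + r - 1, (c - 1) + 1), ?_⟩
        right; right; right; right; right; right; right; right; right; right; right; right; right; right; right; right; right; right; right; right; left
        exact ⟨c - 1, by omega, by omega, tup (by omega) (by omega) (by omega) (by omega), tup (by omega) (by omega) (by omega) (by omega), tup (by omega) (by omega) (by omega) (by omega)⟩
    right
    refine ⟨?_, hnat (by decide)⟩
    intro p b' h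
    unfold LinkE at h
    rcases h with ⟨k, y, c1, c2, c3, ha, hp, hb⟩ |
        ⟨y, c1, c2, ha, hp, hb⟩ |
        ⟨k, y, c1, c2, c3, ha, hp, hb⟩ |
        ⟨y, c1, c2, ha, hp, hb⟩ |
        ⟨k, y, c1, c2, c3, ha, hp, hb⟩ |
        ⟨k, y, c1, c2, c3, ha, hp, hb⟩ |
        ⟨k, y, c1, c2, c3, ha, hp, hb⟩ |
        ⟨k, c1, c2, ha, hp, hb⟩ |
        ⟨k, c1, c2, ha, hp, hb⟩ |
        ⟨k, c1, c2, ha, hp, hb⟩ |
        ⟨k, c1, c2, ha, hp, hb⟩ |
        ⟨k, c1, c2, ha, hp, hb⟩ |
        ⟨k, c1, c2, ha, hp, hb⟩ |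
        ⟨k, c1, c2, ha, hp, hb⟩ |
        ⟨c1, ha, hp, hb⟩ |
        ⟨c1, ha, hp, hb⟩ |
        ⟨c1, ha, hp, hb⟩ |
        ⟨c1, ha, hp, hb⟩ |
        ⟨k, c1, ha, hp, hb⟩ |
        ⟨c1, ha, hp, hb⟩ |
        ⟨k, c1, c2, ha, hp, hb⟩ |
        ⟨c1, ha, hp, hb⟩ |
        ⟨c1, ha, hp, hb⟩ <;>
      simp only [Prod.mk.injEq] at ha <;> omega

theorem LinkE_up {h r : ℕ} (hh : 2 ≤ h) (v : V)
    (hv : Valid (2 * h + 2 * r) (2 * h) v) (hr : 2 * (2 * h + r) < rk v) :
    (∃ a p, LinkE h r a p (D (2 * h + 2 * r) (2 * h) v)) ∨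
      ((∀ p b, ¬ LinkE h r (D (2 * h + 2 * r) (2 * h) v) p b) ∧
      D (2 * h + 2 * r) (2 * h) v ∈ L0 (2 * h + 2 * r) (2 * h) ∪ R2 (2 * h)) := by
  have hmem := D_mem (by omega : 1 ≤ 2 * h) (by omega : 2 * h ≤ 2 * h + 2 * r) v hv
  obtain ⟨s, t, x, z⟩ := v
  have htag := D_tag (2 * h + 2 * r) (2 * h) (s, t, x, z)
  rcases hd : D (2 * h + 2 * r) (2 * h) (s, t, x, z) with ⟨g, a, b, c⟩
  rw [hd] at htag hmem
  simp only at htag
  have hv' := hv
  obtain ⟨v1, v2, v3, v4, v5⟩ := hv'
  simp only [rk] at v1 v2 v3 v4 v5 hr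
  have e1 : (2 * h + 2 * r - 2 * h) / 2 = r := by omega
  have hnat : g ≠ 4 → ((g, a, b, c) : Lab) ∈ L0 (2 * h + 2 * r) (2 * h) ∪ R2 (2 * h) := by
    intro h4
    rw [mem_union] at hmem ⊢
    rcases hmem with h | h
    · exact Or.inl h
    · exfalso
      unfold R1 at h
      rw [mem_image] at h
      obtain ⟨q, _, hq⟩ := h
      simp only [Prod.mk.injEq] at hq
      exact h4 hq.1.symm
  have hcase : g = 0 ∨ g = 1 ∨ g = 2 ∨ g = 3 ∨ g = 4 ∨ g = 5 := by omega
  rcases hcase with rfl | rfl | rfl | rfl | rfl | rfl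
  · obtain ⟨a1, a2, a3, a4, rfl⟩ := D_K (by omega) (by omega) hv hd
    by_cases q1 : a = 1 ∧ b = r
    · left
      refine ⟨(4, 2 * h - 2, 2 * h, 0), (r, r + 2, 2 * h - 2, 2 * h), ?_⟩
      right; right; right; right; right; right; right; right; right; right; right; right; right; right; right; right; left
      exact ⟨by omega, tup (by omega) (by omega) (by omega) (by omega), tup (by omega) (by omega) (by omega) (by omega), tup (by omega) (by omega) (by omega) (by omega)⟩
    by_cases q2 : b = r + 1 ∧ a = 0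
    · left
      refine ⟨(0, 1, r, 0), (r, r + 2, 2 * h - 1, 2 * h - 1), ?_⟩
      right; right; right; right; right; right; right; right; right; right; right; right; right; right; right; right; right; left
      exact ⟨by omega, tup (by omega) (by omega) (by omega) (by omega), tup (by omega) (by omega) (by omega) (by omega), tup (by omega) (by omega) (by omega) (by omega)⟩
    by_cases q3 : b = r + 1 ∧ 1 ≤ a ∧ a + 3 ≤ 2 * h
    · left
      refine ⟨(0, (a - 1), r + 1, 0), (r + 1, r + (a - 1) + 3, (4 * h - 4 - (a - 1)) / 2, (4 * h - 3 - (a - 1)) / 2), ?_⟩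
      right; right; right; right; right; right; right; right; right; right; right; right; right; right; right; right; right; right; left
      exact ⟨a - 1, by omega, tup (by omega) (by omega) (by omega) (by omega), tup (by omega) (by omega) (by omega) (by omega), tup (by omega) (by omega) (by omega) (by omega)⟩
    right
    refine ⟨?_, hnat (by decide)⟩
    intro p b' h
    unfold LinkE at h
    rcases h with ⟨k, y, c1, c2, c3, ha, hp, hb⟩ |
        ⟨y, c1, c2, ha, hp, hb⟩ |
        ⟨k, y, c1, c2, c3, ha, hp, hb⟩ |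
        ⟨y, c1, c2, ha, hp, hb⟩ |
        ⟨k, y, c1, c2, c3, ha, hp, hb⟩ |
        ⟨k, y, c1, c2, c3, ha, hp, hb⟩ |
        ⟨k, y, c1, c2, c3, ha, hp, hb⟩ |
        ⟨k, c1, c2, ha, hp, hb⟩ |
        ⟨k, c1, c2, ha, hp, hb⟩ |
        ⟨k, c1, c2, ha, hp, hb⟩ |
        ⟨k, c1, c2, ha, hp, hb⟩ |
        ⟨k, c1, c2, ha, hp, hb⟩ |
        ⟨k, c1, c2, ha, hp, hb⟩ |
        ⟨k, c1, c2, ha, hp, hb⟩ |
        ⟨c1, ha, hp, hb⟩ |
        ⟨c1, ha, hp, hb⟩ |
        ⟨c1, ha, hp, hb⟩ |
        ⟨c1, ha, hp, hb⟩ |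
        ⟨k, c1, ha, hp, hb⟩ |
        ⟨c1, ha, hp, hb⟩ |
        ⟨k, c1, c2, ha, hp, hb⟩ |
        ⟨c1, ha, hp, hb⟩ |
        ⟨c1, ha, hp, hb⟩ <;>
      simp only [Prod.mk.injEq] at ha <;> omega
  · right
    refine ⟨?_, hnat (by decide)⟩
    intro p b' h
    unfold LinkE at h
    rcases h with ⟨k, y, c1, c2, c3, ha, hp, hb⟩ |
        ⟨y, c1, c2, ha, hp, hb⟩ |
        ⟨k, y, c1, c2, c3, ha, hp, hb⟩ |
        ⟨y, c1, c2, ha, hp, hb⟩ |
        ⟨k, y, c1, c2, c3, ha, hp, hb⟩ |
        ⟨k, y, c1, c2, c3, ha, hp, hb⟩ |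
        ⟨k, y, c1, c2, c3, ha, hp, hb⟩ |
        ⟨k, c1, c2, ha, hp, hb⟩ |
        ⟨k, c1, c2, ha, hp, hb⟩ |
        ⟨k, c1, c2, ha, hp, hb⟩ |
        ⟨k, c1, c2, ha, hp, hb⟩ |
        ⟨k, c1, c2, ha, hp, hb⟩ |
        ⟨k, c1, c2, ha, hp, hb⟩ |
        ⟨k, c1, c2, ha, hp, hb⟩ |
        ⟨c1, ha, hp, hb⟩ |
        ⟨c1, ha, hp, hb⟩ |
        ⟨c1, ha, hp, hb⟩ |
        ⟨c1, ha, hp, hb⟩ |
        ⟨k, c1, ha, hp, hb⟩ |
        ⟨c1, ha, hp, hb⟩ |
        ⟨k, c1, c2, ha, hp, hb⟩ |
        ⟨c1, ha, hp, hb⟩ |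
        ⟨c1, ha, hp, hb⟩ <;>
      simp only [Prod.mk.injEq] at ha <;> omega
  · obtain ⟨f1, f2, rfl, rfl, rfl⟩ := D_T hv hd
    by_cases q1 : x % 2 = 1 ∧ x + 3 ≤ 2 * h
    · left
      refine ⟨(4, (x - 1), (x - 1) + 2, 0), (2 * h + r - 1 - (x - 1), 2 * h + r - 1 - (x - 1), (x - 1), (x - 1) + 2), ?_⟩
      right; left
      exact ⟨x - 1, by omega, by omega, tup (by omega) (by omega) (by omega) (by omega), tup (by omega) (by omega) (by omega) (by omega), tup (by omega) (by omega) (by omega) (by omega)⟩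
    by_cases q2 : x + 2 = 2 * h
    · left
      refine ⟨(4, 2 * h - 3, 2 * h - 1, 0), (r + 1, r + 2, 2 * h - 2, 2 * h - 1), ?_⟩
      right; right; right; right; right; right; right; right; right; right; right; right; right; right; left
      exact ⟨by omega, tup (by omega) (by omega) (by omega) (by omega), tup (by omega) (by omega) (by omega) (by omega), tup (by omega) (by omega) (by omega) (by omega)⟩
    right
    refine ⟨?_, hnat (by decide)⟩
    intro p b' h
    unfold LinkE at h
    rcases h with ⟨k, y, c1, c2, c3, ha, hp, hb⟩ |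
        ⟨y, c1, c2, ha, hp, hb⟩ |
        ⟨k, y, c1, c2, c3, ha, hp, hb⟩ |
        ⟨y, c1, c2, ha, hp, hb⟩ |
        ⟨k, y, c1, c2, c3, ha, hp, hb⟩ |
        ⟨k, y, c1, c2, c3, ha, hp, hb⟩ |
        ⟨k, y, c1, c2, c3, ha, hp, hb⟩ |
        ⟨k, c1, c2, ha, hp, hb⟩ |
        ⟨k, c1, c2, ha, hp, hb⟩ |
        ⟨k, c1, c2, ha, hp, hb⟩ |
        ⟨k, c1, c2, ha, hp, hb⟩ |
        ⟨k, c1, c2, ha, hp, hb⟩ |
        ⟨k, c1, c2, ha, hp, hb⟩ |
        ⟨k, c1, c2, ha, hp, hb⟩ |
        ⟨c1, ha, hp, hb⟩ |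
        ⟨c1, ha, hp, hb⟩ |
        ⟨c1, ha, hp, hb⟩ |
        ⟨c1, ha, hp, hb⟩ |
        ⟨k, c1, ha, hp, hb⟩ |
        ⟨c1, ha, hp, hb⟩ |
        ⟨k, c1, c2, ha, hp, hb⟩ |
        ⟨c1, ha, hp, hb⟩ |
        ⟨c1, ha, hp, hb⟩ <;>
      simp only [Prod.mk.injEq] at ha <;> omega
  · right
    refine ⟨?_, hnat (by decide)⟩
    intro p b' h
    unfold LinkE at h
    rcases h with ⟨k, y, c1, c2, c3, ha, hp, hb⟩ |
        ⟨y, c1, c2, ha, hp, hb⟩ |
        ⟨k, y, c1, c2, c3, ha, hp, hb⟩ |
        ⟨y, c1, c2, ha, hp, hb⟩ |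
        ⟨k, y, c1, c2, c3, ha, hp, hb⟩ |
        ⟨k, y, c1, c2, c3, ha, hp, hb⟩ |
        ⟨k, y, c1, c2, c3, ha, hp, hb⟩ |
        ⟨k, c1, c2, ha, hp, hb⟩ |
        ⟨k, c1, c2, ha, hp, hb⟩ |
        ⟨k, c1, c2, ha, hp, hb⟩ |
        ⟨k, c1, c2, ha, hp, hb⟩ |
        ⟨k, c1, c2, ha, hp, hb⟩ |
        ⟨k, c1, c2, ha, hp, hb⟩ |
        ⟨k, c1, c2, ha, hp, hb⟩ |
        ⟨c1, ha, hp, hb⟩ |
        ⟨c1, ha, hp, hb⟩ |
        ⟨c1, ha, hp, hb⟩ |
        ⟨c1, ha, hp, hb⟩ |
        ⟨k, c1, ha, hp, hb⟩ |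
        ⟨c1, ha, hp, hb⟩ |
        ⟨k, c1, c2, ha, hp, hb⟩ |
        ⟨c1, ha, hp, hb⟩ |
        ⟨c1, ha, hp, hb⟩ <;>
      simp only [Prod.mk.injEq] at ha <;> omega
  · have h1 := D_R hv hd
    rw [e1] at h1
    obtain ⟨f1, rfl, rfl, f4, f5, f6, f7, f8⟩ := h1
    by_cases j0 : z = x + 2 * c
    · left
      by_cases q1 : x % 2 = 0 ∧ x + 2 * c + 2 ≤ 2 * h
      · refine ⟨(4, (x - 1), (x - 1) + 2 * (c), (c)), (2 * h + r - 2 * (c) - (x - 1) - 1, 2 * h + r - (x - 1), (x - 1), (x - 1) + 2 * (c) + 1), ?_⟩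
        right; right; right; right; right; right; left
        exact ⟨c, x - 1, by omega, by omega, by omega, tup (by omega) (by omega) (by omega) (by omega), tup (by omega) (by omega) (by omega) (by omega), tup (by omega) (by omega) (by omega) (by omega)⟩
      by_cases q2 : x % 2 = 1 ∧ x + 2 * c + 3 ≤ 2 * h
      · refine ⟨(4, (x - 1) + 1, (x - 1) + 1 + 2 * (c), (c) - 1), (2 * h + r - 2 * (c) - (x - 1) - 1, 2 * h + r - (x - 1) - 1, (x - 1) + 1, (x - 1) + 1 + 2 * (c)), ?_⟩
        right; right; right; right; right; left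
        exact ⟨c, x - 1, by omega, by omega, by omega, tup (by omega) (by omega) (by omega) (by omega), tup (by omega) (by omega) (by omega) (by omega), tup (by omega) (by omega) (by omega) (by omega)⟩
      by_cases q3 : x + 2 * c + 1 = 2 * h
      · refine ⟨(4, 2 * h - 2 * (c) - 1, 2 * h - 1, (c)), (r, r + 2 * (c) + 2, 2 * h - 2 * (c) - 1, 2 * h - 1), ?_⟩
        right; right; right; right; right; right; right; left
        exact ⟨c, by omega, by omega, tup (by omega) (by omega) (by omega) (by omega), tup (by omega) (by omega) (by omega) (by omega), tup (by omega) (by omega) (by omega) (by omega)⟩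
      · refine ⟨(4, 2 * h - 2 * (c) - 1, 2 * h, (c)), (r, r + 2 * (c) + 1, 2 * h - 2 * (c) - 1, 2 * h), ?_⟩
        right; right; right; right; right; right; right; right; left
        exact ⟨c, by omega, by omega, tup (by omega) (by omega) (by omega) (by omega), tup (by omega) (by omega) (by omega) (by omega), tup (by omega) (by omega) (by omega) (by omega)⟩
    by_cases j1 : z = x + 2 * c + 1
    · by_cases q1 : x % 2 = 1 ∧ x + 2 * c + 3 ≤ 2 * h
      · left
        refine ⟨(4, (x - 1), (x - 1) + 2 * (c + 1), (c + 1) - 1), (2 * h + r + 1 - 2 * (c + 1) - (x - 1), 2 * h + r - 1 - (x - 1), (x - 1), (x - 1) + 2 * (c + 1)), ?_⟩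
        right; right; left
        exact ⟨c + 1, x - 1, by omega, by omega, by omega, tup (by omega) (by omega) (by omega) (by omega), tup (by omega) (by omega) (by omega) (by omega), tup (by omega) (by omega) (by omega) (by omega)⟩
      by_cases q2 : x + 2 * c + 1 = 2 * h
      · left
        by_cases q6 : c + 1 = h
        · by_cases q7 : h = 2
          · refine ⟨(0, 1, r + 1, 0), (r + 1, r + 3, 1, 3), ?_⟩
            right; right; right; right; right; right; right; right; right; right; right; right; right; right; right; right; right; right; right; right; right; right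
            exact ⟨by omega, tup (by omega) (by omega) (by omega) (by omega), tup (by omega) (by omega) (by omega) (by omega), tup (by omega) (by omega) (by omega) (by omega)⟩
          · refine ⟨(5, r + 1, 2 * h + r - 1, h - 2), (r + 1, 2 * h + r - 1, 1, 2 * h - 1), ?_⟩
            right; right; right; right; right; right; right; right; right; right; right; right; right; right; right; right; right; right; right; right; right; left
            exact ⟨by omega, tup (by omega) (by omega) (by omega) (by omega), tup (by omega) (by omega) (by omega) (by omega), tup (by omega) (by omega) (by omega) (by omega)⟩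
        · refine ⟨(4, 2 * h - 2 * (c) - 2, 2 * h - 1, (c)), (r + 1, r + 2 * (c) + 1, 2 * h - 2 * (c) - 1, 2 * h - 1), ?_⟩
          right; right; right; right; right; right; right; right; right; right; right; right; left
          exact ⟨c, by omega, by omega, tup (by omega) (by omega) (by omega) (by omega), tup (by omega) (by omega) (by omega) (by omega), tup (by omega) (by omega) (by omega) (by omega)⟩
      by_cases q3 : x + 2 * c + 2 = 2 * h ∧ c + 2 ≤ h
      · left
        refine ⟨(4, 2 * h - 2 * (c) - 2, 2 * h - 2, (c)), (r + 1, r + 2 * (c) + 2, 2 * h - 2 * (c) - 2, 2 * h - 1), ?_⟩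
        right; right; right; right; right; right; right; right; right; right; right; left
        exact ⟨c, by omega, by omega, tup (by omega) (by omega) (by omega) (by omega), tup (by omega) (by omega) (by omega) (by omega), tup (by omega) (by omega) (by omega) (by omega)⟩
      right
      refine ⟨?_, ?_⟩
      · intro p b' h
        unfold LinkE at h
        rcases h with ⟨k, y, c1, c2, c3, ha, hp, hb⟩ |
            ⟨y, c1, c2, ha, hp, hb⟩ |
            ⟨k, y, c1, c2, c3, ha, hp, hb⟩ |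
            ⟨y, c1, c2, ha, hp, hb⟩ |
            ⟨k, y, c1, c2, c3, ha, hp, hb⟩ |
            ⟨k, y, c1, c2, c3, ha, hp, hb⟩ |
            ⟨k, y, c1, c2, c3, ha, hp, hb⟩ |
            ⟨k, c1, c2, ha, hp, hb⟩ |
            ⟨k, c1, c2, ha, hp, hb⟩ |
            ⟨k, c1, c2, ha, hp, hb⟩ |
            ⟨k, c1, c2, ha, hp, hb⟩ |
            ⟨k, c1, c2, ha, hp, hb⟩ |
            ⟨k, c1, c2, ha, hp, hb⟩ |
            ⟨k, c1, c2, ha, hp, hb⟩ |
            ⟨c1, ha, hp, hb⟩ |
            ⟨c1, ha, hp, hb⟩ |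
            ⟨c1, ha, hp, hb⟩ |
            ⟨c1, ha, hp, hb⟩ |
            ⟨k, c1, ha, hp, hb⟩ |
            ⟨c1, ha, hp, hb⟩ |
            ⟨k, c1, c2, ha, hp, hb⟩ |
            ⟨c1, ha, hp, hb⟩ |
            ⟨c1, ha, hp, hb⟩ <;>
          simp only [Prod.mk.injEq] at ha <;> omega
      · rw [mem_union]; right
        apply mem_R2 <;> omega
    by_cases j2 : z = x + 2 * c + 2
    · by_cases q1 : x % 2 = 0 ∧ x + 2 * c + 6 ≤ 2 * h
      · left
        refine ⟨(4, (x), (x) + 2 * (c + 1), (c + 1)), (2 * h + r - 2 * (c + 1) - (x), 2 * h + r - (x), (x), (x) + 2 * (c + 1)), ?_⟩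
        left
        exact ⟨c + 1, x, by omega, by omega, by omega, tup (by omega) (by omega) (by omega) (by omega), tup (by omega) (by omega) (by omega) (by omega), tup (by omega) (by omega) (by omega) (by omega)⟩
      by_cases q2 : x + 2 * c + 4 = 2 * h
      · left
        by_cases q3 : c + 2 = h
        · refine ⟨(4, 0, 2 * h - 2, (c + 1)), (r + 2, 2 * h + r, 0, 2 * h - 2), ?_⟩
          right; right; right; right; right; right; right; right; right; left
          exact ⟨c + 1, by omega, by omega, tup (by omega) (by omega) (by omega) (by omega), tup (by omega) (by omega) (by omega) (by omega), tup (by omega) (by omega) (by omega) (by omega)⟩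
        · refine ⟨(4, 2 * h - 2 * (c + 1) - 3, 2 * h - 2, (c + 1)), (r + 2, r + 2 * (c + 1) + 2, 2 * h - 2 * (c + 1) - 2, 2 * h - 2), ?_⟩
          right; right; right; right; right; right; right; right; right; right; left
          exact ⟨c + 1, by omega, by omega, tup (by omega) (by omega) (by omega) (by omega), tup (by omega) (by omega) (by omega) (by omega), tup (by omega) (by omega) (by omega) (by omega)⟩
      by_cases q4 : x % 2 = 1 ∧ x + 2 * c + 5 ≤ 2 * h ∧ 1 ≤ c
      · left
        refine ⟨(4, (x - 1) + 1, (x - 1) + 2 * (c + 1), (c + 1) - 1), (2 * h + r - 2 * (c + 1) - (x - 1), 2 * h + r - 2 - (x - 1), (x - 1) + 1, (x - 1) + 1 + 2 * (c + 1)), ?_⟩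
        right; right; right; right; left
        exact ⟨c + 1, x - 1, by omega, by omega, by omega, tup (by omega) (by omega) (by omega) (by omega), tup (by omega) (by omega) (by omega) (by omega), tup (by omega) (by omega) (by omega) (by omega)⟩
      by_cases q5 : x % 2 = 1 ∧ c = 0
      · left
        refine ⟨(2, (x - 1) + 1, 0, 0), (2 * h + r - 2 - (x - 1), 2 * h + r - 2 - (x - 1), (x - 1) + 1, (x - 1) + 3), ?_⟩
        right; right; right; left
        exact ⟨x - 1, by omega, by omega, tup (by omega) (by omega) (by omega) (by omega), tup (by omega) (by omega) (by omega) (by omega), tup (by omega) (by omega) (by omega) (by omega)⟩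
      by_cases q6 : x + 2 = 2 * h ∧ c = 0
      · left
        refine ⟨(2, 2 * h - 2, 0, 0), (r + 1, r + 1, 2 * h - 2, 2 * h), ?_⟩
        right; right; right; right; right; right; right; right; right; right; right; right; right; right; right; left
        exact ⟨by omega, tup (by omega) (by omega) (by omega) (by omega), tup (by omega) (by omega) (by omega) (by omega), tup (by omega) (by omega) (by omega) (by omega)⟩
      right
      refine ⟨?_, ?_⟩
      · intro p b' h
        unfold LinkE at h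
        rcases h with ⟨k, y, c1, c2, c3, ha, hp, hb⟩ |
            ⟨y, c1, c2, ha, hp, hb⟩ |
            ⟨k, y, c1, c2, c3, ha, hp, hb⟩ |
            ⟨y, c1, c2, ha, hp, hb⟩ |
            ⟨k, y, c1, c2, c3, ha, hp, hb⟩ |
            ⟨k, y, c1, c2, c3, ha, hp, hb⟩ |
            ⟨k, y, c1, c2, c3, ha, hp, hb⟩ |
            ⟨k, c1, c2, ha, hp, hb⟩ |
            ⟨k, c1, c2, ha, hp, hb⟩ |
            ⟨k, c1, c2, ha, hp, hb⟩ |
            ⟨k, c1, c2, ha, hp, hb⟩ |
            ⟨k, c1, c2, ha, hp, hb⟩ |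
            ⟨k, c1, c2, ha, hp, hb⟩ |
            ⟨k, c1, c2, ha, hp, hb⟩ |
            ⟨c1, ha, hp, hb⟩ |
            ⟨c1, ha, hp, hb⟩ |
            ⟨c1, ha, hp, hb⟩ |
            ⟨c1, ha, hp, hb⟩ |
            ⟨k, c1, ha, hp, hb⟩ |
            ⟨c1, ha, hp, hb⟩ |
            ⟨k, c1, c2, ha, hp, hb⟩ |
            ⟨c1, ha, hp, hb⟩ |
            ⟨c1, ha, hp, hb⟩ <;>
          simp only [Prod.mk.injEq] at ha <;> omega
      · rw [mem_union]; right
        apply mem_R2 <;> omega
    right
    refine ⟨?_, ?_⟩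
    · intro p b' h
      unfold LinkE at h
      rcases h with ⟨k, y, c1, c2, c3, ha, hp, hb⟩ |
          ⟨y, c1, c2, ha, hp, hb⟩ |
          ⟨k, y, c1, c2, c3, ha, hp, hb⟩ |
          ⟨y, c1, c2, ha, hp, hb⟩ |
          ⟨k, y, c1, c2, c3, ha, hp, hb⟩ |
          ⟨k, y, c1, c2, c3, ha, hp, hb⟩ |
          ⟨k, y, c1, c2, c3, ha, hp, hb⟩ |
          ⟨k, c1, c2, ha, hp, hb⟩ |
          ⟨k, c1, c2, ha, hp, hb⟩ |
          ⟨k, c1, c2, ha, hp, hb⟩ |
          ⟨k, c1, c2, ha, hp, hb⟩ |
          ⟨k, c1, c2, ha, hp, hb⟩ |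
          ⟨k, c1, c2, ha, hp, hb⟩ |
          ⟨k, c1, c2, ha, hp, hb⟩ |
          ⟨c1, ha, hp, hb⟩ |
          ⟨c1, ha, hp, hb⟩ |
          ⟨c1, ha, hp, hb⟩ |
          ⟨c1, ha, hp, hb⟩ |
          ⟨k, c1, ha, hp, hb⟩ |
          ⟨c1, ha, hp, hb⟩ |
          ⟨k, c1, c2, ha, hp, hb⟩ |
          ⟨c1, ha, hp, hb⟩ |
          ⟨c1, ha, hp, hb⟩ <;>
        simp only [Prod.mk.injEq] at ha <;> omega
    · rw [mem_union]; right
      apply mem_R2 <;> omega
  · have h1 := D_C hv hd
    rw [e1] at h1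
    obtain ⟨f1, rfl, rfl, f4, f5, f6, f7, f8, f9⟩ := h1
    by_cases q1 : s = r ∧ t = r + 2 * (c + 1)
    · left
      refine ⟨(5, r, r + 2 * (c + 1), (c + 1) - 1), (r, r + 2 * (c + 1), 2 * h - 2 * (c + 1), 2 * h), ?_⟩
      right; right; right; right; right; right; right; right; right; right; right; right; right; left
      exact ⟨c + 1, by omega, by omega, tup (by omega) (by omega) (by omega) (by omega), tup (by omega) (by omega) (by omega) (by omega), tup (by omega) (by omega) (by omega) (by omega)⟩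
    by_cases q2 : s = r + 1 ∧ t = 2 * h + r - 1
    · left
      by_cases q3 : c = 1
      · refine ⟨(0, 2 * h - 3, r + 1, 0), (r + 1, 2 * h + r - 1, h - 1, h + 1), ?_⟩
        right; right; right; right; right; right; right; right; right; right; right; right; right; right; right; right; right; right; right; left
        exact ⟨by omega, tup (by omega) (by omega) (by omega) (by omega), tup (by omega) (by omega) (by omega) (by omega), tup (by omega) (by omega) (by omega) (by omega)⟩
      · refine ⟨(5, r + 1, 2 * h + r - 1, (c - 1)), (r + 1, 2 * h + r - 1, h - (c - 1) - 1, h + (c - 1) + 1), ?_⟩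
        right; right; right; right; right; right; right; right; right; right; right; right; right; right; right; right; right; right; right; right; left
        exact ⟨c - 1, by omega, by omega, tup (by omega) (by omega) (by omega) (by omega), tup (by omega) (by omega) (by omega) (by omega), tup (by omega) (by omega) (by omega) (by omega)⟩
    right
    refine ⟨?_, hnat (by decide)⟩
    intro p b' h
    unfold LinkE at h
    rcases h with ⟨k, y, c1, c2, c3, ha, hp, hb⟩ |
        ⟨y, c1, c2, ha, hp, hb⟩ |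
        ⟨k, y, c1, c2, c3, ha, hp, hb⟩ |
        ⟨y, c1, c2, ha, hp, hb⟩ |
        ⟨k, y, c1, c2, c3, ha, hp, hb⟩ |
        ⟨k, y, c1, c2, c3, ha, hp, hb⟩ |
        ⟨k, y, c1, c2, c3, ha, hp, hb⟩ |
        ⟨k, c1, c2, ha, hp, hb⟩ |
        ⟨k, c1, c2, ha, hp, hb⟩ |
        ⟨k, c1, c2, ha, hp, hb⟩ |
        ⟨k, c1, c2, ha, hp, hb⟩ |
        ⟨k, c1, c2, ha, hp, hb⟩ |
        ⟨k, c1, c2, ha, hp, hb⟩ |
        ⟨k, c1, c2, ha, hp, hb⟩ |
        ⟨c1, ha, hp, hb⟩ |
        ⟨c1, ha, hp, hb⟩ |
        ⟨c1, ha, hp, hb⟩ |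
        ⟨c1, ha, hp, hb⟩ |
        ⟨k, c1, ha, hp, hb⟩ |
        ⟨c1, ha, hp, hb⟩ |
        ⟨k, c1, c2, ha, hp, hb⟩ |
        ⟨c1, ha, hp, hb⟩ |
        ⟨c1, ha, hp, hb⟩ <;>
      simp only [Prod.mk.injEq] at ha <;> omega

theorem bound_even {h r : ℕ} (hh : 2 ≤ h) (S : Finset V)
    (hV : ∀ v ∈ S, Valid (2 * h + 2 * r) (2 * h) v) (hI : Indep S) :
    S.card ≤ (L0 (2 * h + 2 * r) (2 * h) ∪ R2 (2 * h)).card :=
  bound_of_relink (by omega) (by omega) (2 * (2 * h + r)) (LinkE h r) _
    LinkE_fun (LinkE_Lp hh) (LinkE_pU hh) (LinkE_LU hh)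
    (LinkE_mid hh) (LinkE_up hh) (low_mem (by omega)) LinkE_mem S hV hI

end Pool.Agent.Helper21TS
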