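import Pool.Agent.Helper21_TS.LinkOdd

namespace Pool.Agent.Helper21TS

open Finset

/-- relinking data for `m = 2h`, `n = 2h + 2r` -/
def LinkE (h r : ℕ) (a : Lab) (p : V) (b : Lab) : Prop :=
  (∃ k y, 1 ≤ k ∧ y % 2 = 0 ∧ y + 2 * k + 4 ≤ 2 * h ∧ a = (4, y, y + 2 * k, k) ∧
    p = (2 * h + r - 2 * k - y, 2 * h + r - y, y, y + 2 * k) ∧ b = (4, y, y + 2 * k, k - 1)) ∨
  (∃ y, y % 2 = 0 ∧ y + 4 ≤ 2 * h ∧ a = (4, y, y + 2, 0) ∧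
    p = (2 * h + r - 1 - y, 2 * h + r - 1 - y, y, y + 2) ∧ b = (2, y + 1, 0, 0)) ∨
  (∃ k y, 2 ≤ k ∧ y % 2 = 0 ∧ y + 2 * k + 2 ≤ 2 * h ∧ a = (4, y, y + 2 * k, k - 1) ∧
    p = (2 * h + r + 1 - 2 * k - y, 2 * h + r - 1 - y, y, y + 2 * k) ∧ b = (4, y + 1, y + 2 * k, k - 1)) ∨
  (∃ y, y % 2 = 0 ∧ y + 4 ≤ 2 * h ∧ a = (2, y + 1, 0, 0) ∧
    p = (2 * h + r - 2 - y, 2 * h + r - 2 - y, y + 1, y + 3) ∧ b = (4, y + 1, y + 3, 0)) ∨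
  (∃ k y, 2 ≤ k ∧ y % 2 = 0 ∧ y + 2 * k + 4 ≤ 2 * h ∧ a = (4, y + 1, y + 2 * k, k - 1) ∧
    p = (2 * h + r - 2 * k - y, 2 * h + r - 2 - y, y + 1, y + 1 + 2 * k) ∧ b = (4, y + 1, y + 1 + 2 * k, k - 1)) ∨
  (∃ k y, 1 ≤ k ∧ y % 2 = 0 ∧ y + 2 * k + 4 ≤ 2 * h ∧ a = (4, y + 1, y + 1 + 2 * k, k - 1) ∧
    p = (2 * h + r - 2 * k - y - 1, 2 * h + r - y - 1, y + 1, y + 1 + 2 * k) ∧ b = (4, y + 1, y + 1 + 2 * k, k)) ∨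
  (∃ k y, 1 ≤ k ∧ y % 2 = 1 ∧ y + 2 * k + 3 ≤ 2 * h ∧ a = (4, y, y + 2 * k, k) ∧
    p = (2 * h + r - 2 * k - y - 1, 2 * h + r - y, y, y + 2 * k + 1) ∧ b = (4, y + 1, y + 1 + 2 * k, k)) ∨
  (∃ k, 1 ≤ k ∧ k + 1 ≤ h ∧ a = (4, 2 * h - 2 * k - 1, 2 * h - 1, k) ∧
    p = (r, r + 2 * k + 2, 2 * h - 2 * k - 1, 2 * h - 1) ∧ b = (4, 2 * h - 2 * k - 1, 2 * h - 1, k)) ∨
  (∃ k, 1 ≤ k ∧ k + 1 ≤ h ∧ a = (4, 2 * h - 2 * k - 1, 2 * h, k) ∧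
    p = (r, r + 2 * k + 1, 2 * h - 2 * k - 1, 2 * h) ∧ b = (4, 2 * h - 2 * k, 2 * h, k)) ∨
  (∃ k, 1 ≤ k ∧ k + 1 = h ∧ a = (4, 0, 2 * h - 2, k) ∧
    p = (r + 2, 2 * h + r, 0, 2 * h - 2) ∧ b = (4, 0, 2 * h - 2, k - 1)) ∨
  (∃ k, 1 ≤ k ∧ k + 2 ≤ h ∧ a = (4, 2 * h - 2 * k - 3, 2 * h - 2, k) ∧
    p = (r + 2, r + 2 * k + 2, 2 * h - 2 * k - 2, 2 * h - 2) ∧ b = (4, 2 * h - 2 * k - 2, 2 * h - 2, k - 1)) ∨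
  (∃ k, 1 ≤ k ∧ k + 2 ≤ h ∧ a = (4, 2 * h - 2 * k - 2, 2 * h - 2, k) ∧
    p = (r + 1, r + 2 * k + 2, 2 * h - 2 * k - 2, 2 * h - 1) ∧ b = (4, 2 * h - 2 * k - 2, 2 * h - 1, k)) ∨
  (∃ k, 1 ≤ k ∧ k + 2 ≤ h ∧ a = (4, 2 * h - 2 * k - 2, 2 * h - 1, k) ∧
    p = (r + 1, r + 2 * k + 1, 2 * h - 2 * k - 1, 2 * h - 1) ∧ b = (4, 2 * h - 2 * k - 1, 2 * h, k)) ∨
  (∃ k, 2 ≤ k ∧ k ≤ h ∧ a = (5, r, r + 2 * k, k - 1) ∧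
    p = (r, r + 2 * k, 2 * h - 2 * k, 2 * h) ∧ b = (5, r, r + 2 * k, k - 1)) ∨
  (2 ≤ h ∧ a = (4, 2 * h - 3, 2 * h - 1, 0) ∧
    p = (r + 1, r + 2, 2 * h - 2, 2 * h - 1) ∧ b = (2, 2 * h - 2, 0, 0)) ∨
  (2 ≤ h ∧ a = (2, 2 * h - 2, 0, 0) ∧
    p = (r + 1, r + 1, 2 * h - 2, 2 * h) ∧ b = (4, 2 * h - 2, 2 * h, 0)) ∨
  (2 ≤ h ∧ a = (4, 2 * h - 2, 2 * h, 0) ∧
    p = (r, r + 2, 2 * h - 2, 2 * h) ∧ b = (0, 1, r, 0)) ∨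
  (2 ≤ h ∧ a = (0, 1, r, 0) ∧
    p = (r, r + 2, 2 * h - 1, 2 * h - 1) ∧ b = (0, 0, r + 1, 0)) ∨
  (∃ k, k + 4 ≤ 2 * h ∧ a = (0, k, r + 1, 0) ∧
    p = (r + 1, r + k + 3, (4 * h - 4 - k) / 2, (4 * h - 3 - k) / 2) ∧ b = (0, k + 1, r + 1, 0)) ∨
  (3 ≤ h ∧ a = (0, 2 * h - 3, r + 1, 0) ∧
    p = (r + 1, 2 * h + r - 1, h - 1, h + 1) ∧ b = (5, r + 1, 2 * h + r - 1, 1)) ∨
  (∃ k, 1 ≤ k ∧ k + 3 ≤ h ∧ a = (5, r + 1, 2 * h + r - 1, k) ∧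
    p = (r + 1, 2 * h + r - 1, h - k - 1, h + k + 1) ∧ b = (5, r + 1, 2 * h + r - 1, k + 1)) ∨
  (3 ≤ h ∧ a = (5, r + 1, 2 * h + r - 1, h - 2) ∧
    p = (r + 1, 2 * h + r - 1, 1, 2 * h - 1) ∧ b = (4, 1, 2 * h, h - 1)) ∨
  (h = 2 ∧ a = (0, 1, r + 1, 0) ∧
    p = (r + 1, r + 3, 1, 3) ∧ b = (4, 1, 4, 1))

theorem LinkE_fun {h r : ℕ} (a : Lab) (p : V) (b : Lab) (p' : V) (b' : Lab)
    (h1 : LinkE h r a p b) (h1' : LinkE h r a p' b') : p = p' ∧ b = b' := by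
  unfold LinkE at h1 h1'
  rcases h1 with ⟨k, y, c1, c2, c3, ha, hp, hb⟩ |
    ⟨y, c1, c2, ha, hp, hb⟩ |
    ⟨k, y, c1, c2, c3, ha, hp, hb⟩ |
    ⟨y, c1, c2, ha, hp, hb⟩ |
    ⟨k, y, c1, c2, c3, ha, hp, hb⟩ |
    ⟨k, y, c1, c2, c3, ha, hp, hb⟩ |
    ⟨k, y, c1, c2, c3, ha, hp, hb⟩ |
    ⟨k, c1, c2, ha, hp, hb⟩ |
    ⟨k, c1, c2, ha, hp, hb⟩ |
    ⟨k, c1, c2, ha, hp, hb⟩ |
    ⟨k, c1, c2, ha, hp, hb⟩ |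
    ⟨k, c1, c2, ha, hp, hb⟩ |
    ⟨k, c1, c2, ha, hp, hb⟩ |
    ⟨k, c1, c2, ha, hp, hb⟩ |
    ⟨c1, ha, hp, hb⟩ |
    ⟨c1, ha, hp, hb⟩ |
    ⟨c1, ha, hp, hb⟩ |
    ⟨c1, ha, hp, hb⟩ |
    ⟨k, c1, ha, hp, hb⟩ |
    ⟨c1, ha, hp, hb⟩ |
    ⟨k, c1, c2, ha, hp, hb⟩ |
    ⟨c1, ha, hp, hb⟩ |
    ⟨c1, ha, hp, hb⟩ <;>
  rcases h1' with ⟨k', y', c1', c2', c3', ha', hp', hb'⟩ |
    ⟨y', c1', c2', ha', hp', hb'⟩ |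
    ⟨k', y', c1', c2', c3', ha', hp', hb'⟩ |
    ⟨y', c1', c2', ha', hp', hb'⟩ |
    ⟨k', y', c1', c2', c3', ha', hp', hb'⟩ |
    ⟨k', y', c1', c2', c3', ha', hp', hb'⟩ |
    ⟨k', y', c1', c2', c3', ha', hp', hb'⟩ |
    ⟨k', c1', c2', ha', hp', hb'⟩ |
    ⟨k', c1', c2', ha', hp', hb'⟩ |
    ⟨k', c1', c2', ha', hp', hb'⟩ |
    ⟨k', c1', c2', ha', hp', hb'⟩ |
    ⟨k', c1', c2', ha', hp', hb'⟩ |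
    ⟨k', c1', c2', ha', hp', hb'⟩ |
    ⟨k', c1', c2', ha', hp', hb'⟩ |
    ⟨c1', ha', hp', hb'⟩ |
    ⟨c1', ha', hp', hb'⟩ |
    ⟨c1', ha', hp', hb'⟩ |
    ⟨c1', ha', hp', hb'⟩ |
    ⟨k', c1', ha', hp', hb'⟩ |
    ⟨c1', ha', hp', hb'⟩ |
    ⟨k', c1', c2', ha', hp', hb'⟩ |
    ⟨c1', ha', hp', hb'⟩ |
    ⟨c1', ha', hp', hb'⟩ <;>
  rw [ha] at ha' <;> simp only [Prod.mk.injEq] at ha' <;> rw [hp, hp', hb, hb'] <;>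
  simp only [Prod.mk.injEq, true_and, and_true] <;> omega

theorem LinkE_Lp {h r : ℕ} (hh : 2 ≤ h) (a : Lab) (p : V) (b : Lab) (w : V)
    (h1 : LinkE h r a p b) (hw : Valid (2 * h + 2 * r) (2 * h) w)
    (hD : D (2 * h + 2 * r) (2 * h) w = a)
    (hr : rk w < 2 * (2 * h + r)) : Adj w p := by
  obtain ⟨s, t, x, z⟩ := w
  have hw' := hw
  obtain ⟨v1, v2, v3, v4, v5⟩ := hw'
  simp only [rk] at v1 v2 v3 v4 v5 hr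
  have e1 : (2 * h + 2 * r - 2 * h) / 2 = r := by omega
  unfold LinkE at h1
  left
  rcases h1 with ⟨k, y, c1, c2, c3, ha, hp, hb⟩ |
    ⟨y, c1, c2, ha, hp, hb⟩ |
    ⟨k, y, c1, c2, c3, ha, hp, hb⟩ |
    ⟨y, c1, c2, ha, hp, hb⟩ |
    ⟨k, y, c1, c2, c3, ha, hp, hb⟩ |
    ⟨k, y, c1, c2, c3, ha, hp, hb⟩ |
    ⟨k, y, c1, c2, c3, ha, hp, hb⟩ |
    ⟨k, c1, c2, ha, hp, hb⟩ |
    ⟨k, c1, c2, ha, hp, hb⟩ |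
    ⟨k, c1, c2, ha, hp, hb⟩ |
    ⟨k, c1, c2, ha, hp, hb⟩ |
    ⟨k, c1, c2, ha, hp, hb⟩ |
    ⟨k, c1, c2, ha, hp, hb⟩ |
    ⟨k, c1, c2, ha, hp, hb⟩ |
    ⟨c1, ha, hp, hb⟩ |
    ⟨c1, ha, hp, hb⟩ |
    ⟨c1, ha, hp, hb⟩ |
    ⟨c1, ha, hp, hb⟩ |
    ⟨k, c1, ha, hp, hb⟩ |
    ⟨c1, ha, hp, hb⟩ |
    ⟨k, c1, c2, ha, hp, hb⟩ |
    ⟨c1, ha, hp, hb⟩ |
    ⟨c1, ha, hp, hb⟩ <;>
  rw [ha] at hD <;> rw [hp] <;> simp only [Below] <;>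
  first
  | (have h1 := D_R hw hD; rw [e1] at h1; omega)
  | (have h1 := D_T hw hD; omega)
  | (have h1 := D_C hw hD; rw [e1] at h1; omega)
  | (obtain ⟨k1, k2, k3, k4, k5⟩ := D_K (by omega) (by omega) hw hD
     unfold InK at k4
     rcases k4 with k4 | k4 | k4 | k4 | k4 <;> omega)

theorem LinkE_pU {h r : ℕ} (hh : 2 ≤ h) (a : Lab) (p : V) (b : Lab) (w : V)
    (h1 : LinkE h r a p b) (hw : Valid (2 * h + 2 * r) (2 * h) w)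
    (hD : D (2 * h + 2 * r) (2 * h) w = b)
    (hr : 2 * (2 * h + r) < rk w) : Adj p w := by
  obtain ⟨s, t, x, z⟩ := w
  have hw' := hw
  obtain ⟨v1, v2, v3, v4, v5⟩ := hw'
  simp only [rk] at v1 v2 v3 v4 v5 hr
  have e1 : (2 * h + 2 * r - 2 * h) / 2 = r := by omega
  unfold LinkE at h1
  left
  rcases h1 with ⟨k, y, c1, c2, c3, ha, hp, hb⟩ |
    ⟨y, c1, c2, ha, hp, hb⟩ |
    ⟨k, y, c1, c2, c3, ha, hp, hb⟩ |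
    ⟨y, c1, c2, ha, hp, hb⟩ |
    ⟨k, y, c1, c2, c3, ha, hp, hb⟩ |
    ⟨k, y, c1, c2, c3, ha, hp, hb⟩ |
    ⟨k, y, c1, c2, c3, ha, hp, hb⟩ |
    ⟨k, c1, c2, ha, hp, hb⟩ |
    ⟨k, c1, c2, ha, hp, hb⟩ |
    ⟨k, c1, c2, ha, hp, hb⟩ |
    ⟨k, c1, c2, ha, hp, hb⟩ |
    ⟨k, c1, c2, ha, hp, hb⟩ |
    ⟨k, c1, c2, ha, hp, hb⟩ |
    ⟨k, c1, c2, ha, hp, hb⟩ |
    ⟨c1, ha, hp, hb⟩ |
    ⟨c1, ha, hp, hb⟩ |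
    ⟨c1, ha, hp, hb⟩ |
    ⟨c1, ha, hp, hb⟩ |
    ⟨k, c1, ha, hp, hb⟩ |
    ⟨c1, ha, hp, hb⟩ |
    ⟨k, c1, c2, ha, hp, hb⟩ |
    ⟨c1, ha, hp, hb⟩ |
    ⟨c1, ha, hp, hb⟩ <;>
  rw [hb] at hD <;> rw [hp] <;> simp only [Below] <;>
  first
  | (have h1 := D_R hw hD; rw [e1] at h1; omega)
  | (have h1 := D_T hw hD; omega)
  | (have h1 := D_C hw hD; rw [e1] at h1; omega)
  | (obtain ⟨k1, k2, k3, k4, k5⟩ := D_K (by omega) (by omega) hw hD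
     unfold InK at k4
     rcases k4 with k4 | k4 | k4 | k4 | k4 <;> omega)

theorem LinkE_LU {h r : ℕ} (hh : 2 ≤ h) (a : Lab) (p : V) (b : Lab) (w v : V)
    (h1 : LinkE h r a p b) (hw : Valid (2 * h + 2 * r) (2 * h) w)
    (hD : D (2 * h + 2 * r) (2 * h) w = a)
    (hr : rk w < 2 * (2 * h + r)) (hv : Valid (2 * h + 2 * r) (2 * h) v)
    (hD' : D (2 * h + 2 * r) (2 * h) v = b)
    (hr' : 2 * (2 * h + r) < rk v) : Adj w v := by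
  obtain ⟨s, t, x, z⟩ := w
  obtain ⟨s', t', x', z'⟩ := v
  have hw' := hw
  obtain ⟨v1, v2, v3, v4, v5⟩ := hw'
  have hv' := hv
  obtain ⟨u1, u2, u3, u4, u5⟩ := hv'
  simp only [rk] at v1 v2 v3 v4 v5 hr u1 u2 u3 u4 u5 hr'
  have e1 : (2 * h + 2 * r - 2 * h) / 2 = r := by omega
  unfold LinkE at h1
  left
  rcases h1 with ⟨k, y, c1, c2, c3, ha, hp, hb⟩ |
    ⟨y, c1, c2, ha, hp, hb⟩ |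
    ⟨k, y, c1, c2, c3, ha, hp, hb⟩ |
    ⟨y, c1, c2, ha, hp, hb⟩ |
    ⟨k, y, c1, c2, c3, ha, hp, hb⟩ |
    ⟨k, y, c1, c2, c3, ha, hp, hb⟩ |
    ⟨k, y, c1, c2, c3, ha, hp, hb⟩ |
    ⟨k, c1, c2, ha, hp, hb⟩ |
    ⟨k, c1, c2, ha, hp, hb⟩ |
    ⟨k, c1, c2, ha, hp, hb⟩ |
    ⟨k, c1, c2, ha, hp, hb⟩ |
    ⟨k, c1, c2, ha, hp, hb⟩ |
    ⟨k, c1, c2, ha, hp, hb⟩ |
    ⟨k, c1, c2, ha, hp, hb⟩ |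
    ⟨c1, ha, hp, hb⟩ |
    ⟨c1, ha, hp, hb⟩ |
    ⟨c1, ha, hp, hb⟩ |
    ⟨c1, ha, hp, hb⟩ |
    ⟨k, c1, ha, hp, hb⟩ |
    ⟨c1, ha, hp, hb⟩ |
    ⟨k, c1, c2, ha, hp, hb⟩ |
    ⟨c1, ha, hp, hb⟩ |
    ⟨c1, ha, hp, hb⟩ <;>
  rw [ha] at hD <;> rw [hb] at hD' <;> simp only [Below] <;>
  first
  | (have h1 := D_R hw hD; have h2 := D_R hv hD'; rw [e1] at h1 h2; omega)
  | (have h1 := D_R hw hD; have h2 := D_T hv hD'; rw [e1] at h1; omega)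
  | (have h1 := D_T hw hD; have h2 := D_R hv hD'; rw [e1] at h2; omega)
  | (have h1 := D_C hw hD; have h2 := D_C hv hD'; rw [e1] at h1 h2; omega)
  | (have h1 := D_C hw hD; have h2 := D_R hv hD'; rw [e1] at h1 h2; omega)
  | (obtain ⟨k1, k2, k3, k4, k5⟩ := D_K (by omega) (by omega) hw hD
     have h2 := D_C hv hD'
     rw [e1] at h2
     unfold InK at k4
     rcases k4 with k4 | k4 | k4 | k4 | k4 <;> omega)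
  | (obtain ⟨k1, k2, k3, k4, k5⟩ := D_K (by omega) (by omega) hw hD
     have h2 := D_R hv hD'
     rw [e1] at h2
     unfold InK at k4
     rcases k4 with k4 | k4 | k4 | k4 | k4 <;> omega)
  | (obtain ⟨k1, k2, k3, k4, k5⟩ := D_K (by omega) (by omega) hv hD'
     have h2 := D_R hw hD
     rw [e1] at h2
     unfold InK at k4
     rcases k4 with k4 | k4 | k4 | k4 | k4 <;> omega)
  | (obtain ⟨k1, k2, k3, k4, k5⟩ := D_K (by omega) (by omega) hv hD'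
     obtain ⟨l1, l2, l3, l4, l5⟩ := D_K (by omega) (by omega) hw hD
     unfold InK at k4 l4
     rcases k4 with k4 | k4 | k4 | k4 | k4 <;> rcases l4 with l4 | l4 | l4 | l4 | l4 <;> omega)

theorem LinkE_mem {h r : ℕ} (a : Lab) (p : V) (b : Lab)
    (h1 : LinkE h r a p b) : a ∈ L0 (2 * h + 2 * r) (2 * h) ∪ R2 (2 * h) := by
  have e1 : (2 * h + 2 * r - 2 * h) / 2 = r := by omega
  unfold LinkE at h1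
  rw [mem_union]
  rcases h1 with ⟨k, y, c1, c2, c3, ha, hp, hb⟩ |
    ⟨y, c1, c2, ha, hp, hb⟩ |
    ⟨k, y, c1, c2, c3, ha, hp, hb⟩ |
    ⟨y, c1, c2, ha, hp, hb⟩ |
    ⟨k, y, c1, c2, c3, ha, hp, hb⟩ |
    ⟨k, y, c1, c2, c3, ha, hp, hb⟩ |
    ⟨k, y, c1, c2, c3, ha, hp, hb⟩ |
    ⟨k, c1, c2, ha, hp, hb⟩ |
    ⟨k, c1, c2, ha, hp, hb⟩ |
    ⟨k, c1, c2, ha, hp, hb⟩ |
    ⟨k, c1, c2, ha, hp, hb⟩ |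
    ⟨k, c1, c2, ha, hp, hb⟩ |
    ⟨k, c1, c2, ha, hp, hb⟩ |
    ⟨k, c1, c2, ha, hp, hb⟩ |
    ⟨c1, ha, hp, hb⟩ |
    ⟨c1, ha, hp, hb⟩ |
    ⟨c1, ha, hp, hb⟩ |
    ⟨c1, ha, hp, hb⟩ |
    ⟨k, c1, ha, hp, hb⟩ |
    ⟨c1, ha, hp, hb⟩ |
    ⟨k, c1, c2, ha, hp, hb⟩ |
    ⟨c1, ha, hp, hb⟩ |
    ⟨c1, ha, hp, hb⟩ <;> rw [ha] <;>
  first
  | (right; apply mem_R2 <;> omega)
  | (left; apply mem_T; omega)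
  | (left; apply mem_K <;> omega)
  | (left; apply mem_C <;> omega)

end Pool.Agent.Helper21TS
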