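import Pool.Agent.Helper21_TS.Relink

namespace Pool.Agent.Helper21TS

open Finset

theorem tup {a b c d a' b' c' d' : ℕ} (h1 : a = a') (h2 : b = b') (h3 : c = c') (h4 : d = d') :
    (a, b, c, d) = (a', b', c', d') := by
  rw [h1, h2, h3, h4]

/-- relinking data for `m` odd, `n = m + 2r` -/
def LinkO (m r : ℕ) (a : Lab) (p : V) (b : Lab) : Prop :=
  (∃ k y, 1 ≤ k ∧ y % 2 = 0 ∧ y + 2 * k + 1 ≤ m ∧ a = (4, y, y + 2 * k, k) ∧
    p = (m + r - 2 * k - y, m + r - y, y, y + 2 * k) ∧ b = (4, y, y + 2 * k, k - 1)) ∨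
  (∃ y, y % 2 = 0 ∧ y + 3 ≤ m ∧ a = (4, y, y + 2, 0) ∧
    p = (m + r - 1 - y, m + r - 1 - y, y, y + 2) ∧ b = (2, y + 1, 0, 0)) ∨
  (∃ k y, 2 ≤ k ∧ y % 2 = 0 ∧ y + 2 * k + 1 ≤ m ∧ a = (4, y, y + 2 * k, k - 1) ∧
    p = (m + r + 1 - 2 * k - y, m + r - 1 - y, y, y + 2 * k) ∧ b = (4, y + 1, y + 2 * k, k - 1)) ∨
  (∃ y, y % 2 = 0 ∧ y + 3 ≤ m ∧ a = (2, y + 1, 0, 0) ∧
    p = (m + r - 2 - y, m + r - 2 - y, y + 1, y + 3) ∧ b = (4, y + 1, y + 3, 0)) ∨
  (∃ k y, 2 ≤ k ∧ y % 2 = 0 ∧ y + 2 * k + 1 ≤ m ∧ a = (4, y + 1, y + 2 * k, k - 1) ∧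
    p = (m + r - 2 * k - y, m + r - 2 - y, y + 1, y + 1 + 2 * k) ∧
    b = (4, y + 1, y + 1 + 2 * k, k - 1)) ∨
  (∃ k y, 1 ≤ k ∧ y % 2 = 0 ∧ y + 2 * k + 1 ≤ m ∧ a = (4, y + 1, y + 1 + 2 * k, k - 1) ∧
    p = (m + r - 2 * k - y - 1, m + r - y - 1, y + 1, y + 1 + 2 * k) ∧
    b = (4, y + 1, y + 1 + 2 * k, k)) ∨
  (∃ k y, 1 ≤ k ∧ y % 2 = 1 ∧ y + 2 * k + 2 ≤ m ∧ a = (4, y, y + 2 * k, k) ∧
    p = (m + r - 2 * k - y - 1, m + r - y, y, y + 2 * k + 1) ∧
    b = (4, y + 1, y + 1 + 2 * k, k))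

theorem LinkO_fun {m r : ℕ} (a : Lab) (p : V) (b : Lab) (p' : V) (b' : Lab)
    (h : LinkO m r a p b) (h' : LinkO m r a p' b') : p = p' ∧ b = b' := by
  unfold LinkO at h h'
  rcases h with ⟨k, y, c1, c2, c3, ha, hp, hb⟩ | ⟨y, c2, c3, ha, hp, hb⟩ |
    ⟨k, y, c1, c2, c3, ha, hp, hb⟩ | ⟨y, c2, c3, ha, hp, hb⟩ | ⟨k, y, c1, c2, c3, ha, hp, hb⟩ |
    ⟨k, y, c1, c2, c3, ha, hp, hb⟩ | ⟨k, y, c1, c2, c3, ha, hp, hb⟩ <;>
  rcases h' with ⟨k', y', c1', c2', c3', ha', hp', hb'⟩ | ⟨y', c2', c3', ha', hp', hb'⟩ |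
    ⟨k', y', c1', c2', c3', ha', hp', hb'⟩ | ⟨y', c2', c3', ha', hp', hb'⟩ |
    ⟨k', y', c1', c2', c3', ha', hp', hb'⟩ |
    ⟨k', y', c1', c2', c3', ha', hp', hb'⟩ | ⟨k', y', c1', c2', c3', ha', hp', hb'⟩ <;>
  rw [ha] at ha' <;> simp only [Prod.mk.injEq] at ha' <;> rw [hp, hp', hb, hb'] <;>
  simp only [Prod.mk.injEq, true_and, and_true] <;> omega

theorem LinkO_Lp {m r : ℕ} (hm : 1 ≤ m) (a : Lab) (p : V) (b : Lab) (w : V)
    (h : LinkO m r a p b) (hw : Valid (m + 2 * r) m w) (hD : D (m + 2 * r) m w = a)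
    (hr : rk w < 2 * (m + r)) : Adj w p := by
  obtain ⟨s, t, x, z⟩ := w
  have hw' := hw
  obtain ⟨v1, v2, v3, v4, v5⟩ := hw'
  simp only [rk] at v1 v2 v3 v4 v5 hr
  have e1 : (m + 2 * r - m) / 2 = r := by omega
  unfold LinkO at h
  left
  rcases h with ⟨k, y, c1, c2, c3, ha, hp, hb⟩ | ⟨y, c2, c3, ha, hp, hb⟩ |
    ⟨k, y, c1, c2, c3, ha, hp, hb⟩ | ⟨y, c2, c3, ha, hp, hb⟩ | ⟨k, y, c1, c2, c3, ha, hp, hb⟩ |
    ⟨k, y, c1, c2, c3, ha, hp, hb⟩ | ⟨k, y, c1, c2, c3, ha, hp, hb⟩ <;>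
  rw [ha] at hD <;> rw [hp] <;> simp only [Below] <;>
  first
  | (have h1 := D_R hw hD; rw [e1] at h1; omega)
  | (have h1 := D_T hw hD; omega)

theorem LinkO_pU {m r : ℕ} (hm : 1 ≤ m) (a : Lab) (p : V) (b : Lab) (w : V)
    (h : LinkO m r a p b) (hw : Valid (m + 2 * r) m w) (hD : D (m + 2 * r) m w = b)
    (hr : 2 * (m + r) < rk w) : Adj p w := by
  obtain ⟨s, t, x, z⟩ := w
  have hw' := hw
  obtain ⟨v1, v2, v3, v4, v5⟩ := hw'
  simp only [rk] at v1 v2 v3 v4 v5 hr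
  have e1 : (m + 2 * r - m) / 2 = r := by omega
  unfold LinkO at h
  left
  rcases h with ⟨k, y, c1, c2, c3, ha, hp, hb⟩ | ⟨y, c2, c3, ha, hp, hb⟩ |
    ⟨k, y, c1, c2, c3, ha, hp, hb⟩ | ⟨y, c2, c3, ha, hp, hb⟩ | ⟨k, y, c1, c2, c3, ha, hp, hb⟩ |
    ⟨k, y, c1, c2, c3, ha, hp, hb⟩ | ⟨k, y, c1, c2, c3, ha, hp, hb⟩ <;>
  rw [hb] at hD <;> rw [hp] <;> simp only [Below] <;>
  first
  | (have h1 := D_R hw hD; rw [e1] at h1; omega)
  | (have h1 := D_T hw hD; omega)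

theorem LinkO_LU {m r : ℕ} (hm : 1 ≤ m) (a : Lab) (p : V) (b : Lab) (w v : V)
    (h : LinkO m r a p b) (hw : Valid (m + 2 * r) m w) (hD : D (m + 2 * r) m w = a)
    (hr : rk w < 2 * (m + r)) (hv : Valid (m + 2 * r) m v) (hD' : D (m + 2 * r) m v = b)
    (hr' : 2 * (m + r) < rk v) : Adj w v := by
  obtain ⟨s, t, x, z⟩ := w
  obtain ⟨s', t', x', z'⟩ := v
  have hw' := hw
  obtain ⟨v1, v2, v3, v4, v5⟩ := hw'
  have hv' := hv
  obtain ⟨u1, u2, u3, u4, u5⟩ := hv'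
  simp only [rk] at v1 v2 v3 v4 v5 hr u1 u2 u3 u4 u5 hr'
  have e1 : (m + 2 * r - m) / 2 = r := by omega
  unfold LinkO at h
  left
  rcases h with ⟨k, y, c1, c2, c3, ha, hp, hb⟩ | ⟨y, c2, c3, ha, hp, hb⟩ |
    ⟨k, y, c1, c2, c3, ha, hp, hb⟩ | ⟨y, c2, c3, ha, hp, hb⟩ | ⟨k, y, c1, c2, c3, ha, hp, hb⟩ |
    ⟨k, y, c1, c2, c3, ha, hp, hb⟩ | ⟨k, y, c1, c2, c3, ha, hp, hb⟩ <;>
  rw [ha] at hD <;> rw [hb] at hD' <;> simp only [Below] <;>
  first
  | (have h1 := D_R hw hD; have h2 := D_R hv hD'; rw [e1] at h1 h2; omega)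
  | (have h1 := D_R hw hD; have h2 := D_T hv hD'; rw [e1] at h1; omega)
  | (have h1 := D_T hw hD; have h2 := D_R hv hD'; rw [e1] at h2; omega)

/-- only labels with tags `4`, `2` are relinked -/
theorem LinkO_tag {m r : ℕ} {a : Lab} {p : V} {b : Lab} (h : LinkO m r a p b) :
    a.1 = 4 ∨ a.1 = 2 := by
  unfold LinkO at h
  rcases h with ⟨k, y, c1, c2, c3, ha, hp, hb⟩ | ⟨y, c2, c3, ha, hp, hb⟩ |
    ⟨k, y, c1, c2, c3, ha, hp, hb⟩ | ⟨y, c2, c3, ha, hp, hb⟩ | ⟨k, y, c1, c2, c3, ha, hp, hb⟩ |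
    ⟨k, y, c1, c2, c3, ha, hp, hb⟩ | ⟨k, y, c1, c2, c3, ha, hp, hb⟩ <;> rw [ha] <;> simp

theorem LinkO_mid {m r : ℕ} (hm : 1 ≤ m) (hodd : m % 2 = 1) (v : V)
    (hv : Valid (m + 2 * r) m v) (hr : rk v = 2 * (m + r)) :
    (∃ a b, LinkO m r a v b) ∨ ((∀ p b, ¬ LinkO m r (D (m + 2 * r) m v) p b) ∧
      D (m + 2 * r) m v ∈ L0 (m + 2 * r) m ∪ R2 m) := by
  have hmem := D_mem hm (by omega : m ≤ m + 2 * r) v hv
  obtain ⟨s, t, x, z⟩ := v
  have htag := D_tag (m + 2 * r) m (s, t, x, z)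
  rcases hd : D (m + 2 * r) m (s, t, x, z) with ⟨g, a, b, c⟩
  rw [hd] at htag hmem
  simp only at htag
  have hv' := hv
  obtain ⟨v1, v2, v3, v4, v5⟩ := hv'
  simp only [rk] at v1 v2 v3 v4 v5 hr
  have e1 : (m + 2 * r - m) / 2 = r := by omega
  have hnat : g ≠ 4 → g ≠ 2 → ((∀ p b', ¬ LinkO m r (g, a, b, c) p b') ∧
      ((g, a, b, c) : Lab) ∈ L0 (m + 2 * r) m ∪ R2 m) := by
    intro h4 h2
    refine ⟨?_, ?_⟩
    · intro p b' h
      rcases LinkO_tag h with h | h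
      · exact h4 h
      · exact h2 h
    · rw [mem_union] at hmem ⊢
      rcases hmem with h | h
      · exact Or.inl h
      · exfalso
        unfold R1 at h
        rw [mem_image] at h
        obtain ⟨q, _, hq⟩ := h
        simp only [Prod.mk.injEq] at hq
        exact h4 hq.1.symm
  by_cases h4 : g = 4
  swap
  · by_cases h2 : g = 2
    · subst h2
      have := D_T hv hd
      omega
    · exact Or.inr (hnat h4 h2)
  subst h4
  have h1 := D_R hv hd
  rw [e1] at h1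
  obtain ⟨f1, rfl, rfl, f4, f5, f6, f7, f8⟩ := h1
  -- length of J
  by_cases j0 : z = x + 2 * c
  · -- even row
    left
    by_cases hx : x % 2 = 0
    · refine ⟨(4, x, x + 2 * c, c), (4, x, x + 2 * c, c - 1), ?_⟩
      left
      exact ⟨c, x, by omega, hx, by omega, rfl, tup (by omega) (by omega) (by omega) (by omega), rfl⟩
    · refine ⟨(4, x, x + 2 * c, c - 1), (4, x, x + 2 * c, c), ?_⟩
      right; right; right; right; right; left
      exact ⟨c, x - 1, by omega, by omega, by omega, tup (by omega) (by omega) (by omega) (by omega),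
        tup (by omega) (by omega) (by omega) (by omega), tup (by omega) (by omega) (by omega) (by omega)⟩
  by_cases j1 : z = x + 2 * c + 1
  · by_cases hx : x % 2 = 0
    · right
      refine ⟨?_, ?_⟩
      · intro p b' h
        unfold LinkO at h
        rcases h with ⟨k, y, c1, c2, c3, ha, hp, hb⟩ | ⟨y, c2, c3, ha, hp, hb⟩ |
          ⟨k, y, c1, c2, c3, ha, hp, hb⟩ | ⟨y, c2, c3, ha, hp, hb⟩ |
          ⟨k, y, c1, c2, c3, ha, hp, hb⟩ | ⟨k, y, c1, c2, c3, ha, hp, hb⟩ |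
          ⟨k, y, c1, c2, c3, ha, hp, hb⟩ <;> simp only [Prod.mk.injEq] at ha <;> omega
      · rw [mem_union]; right
        apply mem_R2 <;> omega
    · left
      refine ⟨(4, x, x + 2 * c, c), (4, x + 1, x + 1 + 2 * c, c), ?_⟩
      right; right; right; right; right; right
      exact ⟨c, x, by omega, by omega, by omega, rfl, tup (by omega) (by omega) (by omega) (by omega), rfl⟩
  by_cases j2 : z = x + 2 * c + 2
  · left
    by_cases hx : x % 2 = 0
    · by_cases hc : c = 0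
      · subst hc
        refine ⟨(4, x, x + 2, 0), (2, x + 1, 0, 0), ?_⟩
        right; left
        exact ⟨x, hx, by omega, rfl, tup (by omega) (by omega) (by omega) (by omega), rfl⟩
      · refine ⟨(4, x, x + 2 * (c + 1), c), (4, x + 1, x + 2 * (c + 1), c), ?_⟩
        right; right; left
        exact ⟨c + 1, x, by omega, hx, by omega, tup (by omega) (by omega) (by omega) (by omega), tup (by omega) (by omega) (by omega) (by omega), tup (by omega) (by omega) (by omega) (by omega)⟩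
    · by_cases hc : c = 0
      · subst hc
        refine ⟨(2, x, 0, 0), (4, x, x + 2, 0), ?_⟩
        right; right; right; left
        exact ⟨x - 1, by omega, by omega, tup (by omega) (by omega) (by omega) (by omega), tup (by omega) (by omega) (by omega) (by omega), tup (by omega) (by omega) (by omega) (by omega)⟩
      · refine ⟨(4, x, x + 2 * c + 1, c), (4, x, x + 2 * c + 2, c), ?_⟩
        right; right; right; right; left
        exact ⟨c + 1, x - 1, by omega, by omega, by omega, tup (by omega) (by omega) (by omega) (by omega), tup (by omega) (by omega) (by omega) (by omega), tup (by omega) (by omega) (by omega) (by omega)⟩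
  · right
    refine ⟨?_, ?_⟩
    · intro p b' h
      unfold LinkO at h
      rcases h with ⟨k, y, c1, c2, c3, ha, hp, hb⟩ | ⟨y, c2, c3, ha, hp, hb⟩ |
        ⟨k, y, c1, c2, c3, ha, hp, hb⟩ | ⟨y, c2, c3, ha, hp, hb⟩ |
        ⟨k, y, c1, c2, c3, ha, hp, hb⟩ | ⟨k, y, c1, c2, c3, ha, hp, hb⟩ |
        ⟨k, y, c1, c2, c3, ha, hp, hb⟩ <;> simp only [Prod.mk.injEq] at ha <;> omega
    · rw [mem_union]; right
      apply mem_R2 <;> omega

theorem LinkO_up {m r : ℕ} (hm : 1 ≤ m) (hodd : m % 2 = 1) (v : V)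
    (hv : Valid (m + 2 * r) m v) (hr : 2 * (m + r) < rk v) :
    (∃ a p, LinkO m r a p (D (m + 2 * r) m v)) ∨
      ((∀ p b, ¬ LinkO m r (D (m + 2 * r) m v) p b) ∧
      D (m + 2 * r) m v ∈ L0 (m + 2 * r) m ∪ R2 m) := by
  have hmem := D_mem hm (by omega : m ≤ m + 2 * r) v hv
  obtain ⟨s, t, x, z⟩ := v
  have htag := D_tag (m + 2 * r) m (s, t, x, z)
  rcases hd : D (m + 2 * r) m (s, t, x, z) with ⟨g, a, b, c⟩
  rw [hd] at htag hmem
  simp only at htag
  have hv' := hv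
  obtain ⟨v1, v2, v3, v4, v5⟩ := hv'
  simp only [rk] at v1 v2 v3 v4 v5 hr
  have e1 : (m + 2 * r - m) / 2 = r := by omega
  have hnat : g ≠ 4 → g ≠ 2 → ((∀ p b', ¬ LinkO m r (g, a, b, c) p b') ∧
      ((g, a, b, c) : Lab) ∈ L0 (m + 2 * r) m ∪ R2 m) := by
    intro h4 h2
    refine ⟨?_, ?_⟩
    · intro p b' h
      rcases LinkO_tag h with h | h
      · exact h4 h
      · exact h2 h
    · rw [mem_union] at hmem ⊢
      rcases hmem with h | h
      · exact Or.inl h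
      · exfalso
        unfold R1 at h
        rw [mem_image] at h
        obtain ⟨q, _, hq⟩ := h
        simp only [Prod.mk.injEq] at hq
        exact h4 hq.1.symm
  by_cases h4 : g = 4
  swap
  · by_cases h2 : g = 2
    · subst h2
      obtain ⟨f1, f2, rfl, rfl, rfl⟩ := D_T hv hd
      by_cases hx : x % 2 = 1 ∧ x + 2 ≤ m
      · left
        refine ⟨(4, x - 1, x + 1, 0), (m + r - x, m + r - x, x - 1, x + 1), ?_⟩
        right; left
        exact ⟨x - 1, by omega, by omega, tup (by omega) (by omega) (by omega) (by omega), tup (by omega) (by omega) (by omega) (by omega), tup (by omega) (by omega) (by omega) (by omega)⟩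
      · right
        refine ⟨?_, ?_⟩
        · intro p b' h
          unfold LinkO at h
          rcases h with ⟨k, y, c1, c2, c3, ha, hp, hb⟩ | ⟨y, c2, c3, ha, hp, hb⟩ |
            ⟨k, y, c1, c2, c3, ha, hp, hb⟩ | ⟨y, c2, c3, ha, hp, hb⟩ |
            ⟨k, y, c1, c2, c3, ha, hp, hb⟩ | ⟨k, y, c1, c2, c3, ha, hp, hb⟩ |
            ⟨k, y, c1, c2, c3, ha, hp, hb⟩ <;> simp only [Prod.mk.injEq] at ha <;> omega
        · rw [mem_union]; left
          apply mem_T; omega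
    · exact Or.inr (hnat h4 h2)
  subst h4
  have h1 := D_R hv hd
  rw [e1] at h1
  obtain ⟨f1, rfl, rfl, f4, f5, f6, f7, f8⟩ := h1
  -- length of J
  by_cases j0 : z = x + 2 * c
  · -- even row
    left
    by_cases hx : x % 2 = 0
    · refine ⟨(4, x - 1, x - 1 + 2 * c, c), (m + r - 2 * c - x, m + r + 1 - x, x - 1, x + 2 * c), ?_⟩
      right; right; right; right; right; right
      exact ⟨c, x - 1, by omega, by omega, by omega, tup (by omega) (by omega) (by omega) (by omega), tup (by omega) (by omega) (by omega) (by omega), tup (by omega) (by omega) (by omega) (by omega)⟩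
    · refine ⟨(4, x, x + 2 * c, c - 1), (m + r - 2 * c - x, m + r - x, x, x + 2 * c), ?_⟩
      right; right; right; right; right; left
      exact ⟨c, x - 1, by omega, by omega, by omega, tup (by omega) (by omega) (by omega) (by omega), tup (by omega) (by omega) (by omega) (by omega), tup (by omega) (by omega) (by omega) (by omega)⟩
  by_cases j1 : z = x + 2 * c + 1
  · by_cases hx : x % 2 = 0
    · right
      refine ⟨?_, ?_⟩
      · intro p b' h
        unfold LinkO at h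
        rcases h with ⟨k, y, c1, c2, c3, ha, hp, hb⟩ | ⟨y, c2, c3, ha, hp, hb⟩ |
          ⟨k, y, c1, c2, c3, ha, hp, hb⟩ | ⟨y, c2, c3, ha, hp, hb⟩ |
          ⟨k, y, c1, c2, c3, ha, hp, hb⟩ | ⟨k, y, c1, c2, c3, ha, hp, hb⟩ |
          ⟨k, y, c1, c2, c3, ha, hp, hb⟩ <;> simp only [Prod.mk.injEq] at ha <;> omega
      · rw [mem_union]; right
        apply mem_R2 <;> omega
    · left
      refine ⟨(4, x - 1, x + 2 * c + 1, c),
        (m + r - 2 * c - x, m + r - x, x - 1, x + 2 * c + 1), ?_⟩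
      right; right; left
      exact ⟨c + 1, x - 1, by omega, by omega, by omega, tup (by omega) (by omega) (by omega) (by omega), tup (by omega) (by omega) (by omega) (by omega), tup (by omega) (by omega) (by omega) (by omega)⟩
  by_cases j2 : z = x + 2 * c + 2
  · left
    by_cases hx : x % 2 = 0
    · refine ⟨(4, x, x + 2 * c + 2, c + 1),
        (m + r - 2 * c - 2 - x, m + r - x, x, x + 2 * c + 2), ?_⟩
      left
      exact ⟨c + 1, x, by omega, by omega, by omega, tup (by omega) (by omega) (by omega) (by omega), tup (by omega) (by omega) (by omega) (by omega), tup (by omega) (by omega) (by omega) (by omega)⟩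
    · by_cases hc : c = 0
      · subst hc
        refine ⟨(2, x, 0, 0), (m + r - 1 - x, m + r - 1 - x, x, x + 2), ?_⟩
        right; right; right; left
        exact ⟨x - 1, by omega, by omega, tup (by omega) (by omega) (by omega) (by omega), tup (by omega) (by omega) (by omega) (by omega), tup (by omega) (by omega) (by omega) (by omega)⟩
      · refine ⟨(4, x, x + 2 * c + 1, c),
          (m + r - 2 * c - 1 - x, m + r - 1 - x, x, x + 2 * c + 2), ?_⟩
        right; right; right; right; left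
        exact ⟨c + 1, x - 1, by omega, by omega, by omega, tup (by omega) (by omega) (by omega) (by omega), tup (by omega) (by omega) (by omega) (by omega), tup (by omega) (by omega) (by omega) (by omega)⟩
  · right
    refine ⟨?_, ?_⟩
    · intro p b' h
      unfold LinkO at h
      rcases h with ⟨k, y, c1, c2, c3, ha, hp, hb⟩ | ⟨y, c2, c3, ha, hp, hb⟩ |
        ⟨k, y, c1, c2, c3, ha, hp, hb⟩ | ⟨y, c2, c3, ha, hp, hb⟩ |
        ⟨k, y, c1, c2, c3, ha, hp, hb⟩ | ⟨k, y, c1, c2, c3, ha, hp, hb⟩ |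
        ⟨k, y, c1, c2, c3, ha, hp, hb⟩ <;> simp only [Prod.mk.injEq] at ha <;> omega
    · rw [mem_union]; right
      apply mem_R2 <;> omega

/-- labels of low vertices are not exceptional -/
theorem low_mem {m r : ℕ} (hm : 1 ≤ m) (v : V) (hv : Valid (m + 2 * r) m v)
    (hr : rk v < 2 * (m + r)) : D (m + 2 * r) m v ∈ L0 (m + 2 * r) m ∪ R2 m := by
  have hmem := D_mem hm (by omega : m ≤ m + 2 * r) v hv
  obtain ⟨s, t, x, z⟩ := v
  have htag := D_tag (m + 2 * r) m (s, t, x, z)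
  rcases hd : D (m + 2 * r) m (s, t, x, z) with ⟨g, a, b, c⟩
  rw [hd] at htag hmem
  simp only at htag
  have hv' := hv
  obtain ⟨v1, v2, v3, v4, v5⟩ := hv'
  simp only [rk] at v1 v2 v3 v4 v5 hr
  have e1 : (m + 2 * r - m) / 2 = r := by omega
  by_cases h4 : g = 4
  · subst h4
    have h1 := D_R hv hd
    rw [e1] at h1
    obtain ⟨f1, rfl, rfl, f4, f5, f6, f7, f8⟩ := h1
    rw [mem_union]; right
    apply mem_R2 <;> omega
  · rw [mem_union] at hmem ⊢
    rcases hmem with h | h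
    · exact Or.inl h
    · exfalso
      unfold R1 at h
      rw [mem_image] at h
      obtain ⟨q, _, hq⟩ := h
      simp only [Prod.mk.injEq] at hq
      exact h4 hq.1.symm

theorem LinkO_mem {m r : ℕ} (a : Lab) (p : V) (b : Lab) (h : LinkO m r a p b) :
    a ∈ L0 (m + 2 * r) m ∪ R2 m := by
  unfold LinkO at h
  rw [mem_union]
  rcases h with ⟨k, y, c1, c2, c3, ha, hp, hb⟩ | ⟨y, c2, c3, ha, hp, hb⟩ |
    ⟨k, y, c1, c2, c3, ha, hp, hb⟩ | ⟨y, c2, c3, ha, hp, hb⟩ | ⟨k, y, c1, c2, c3, ha, hp, hb⟩ |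
    ⟨k, y, c1, c2, c3, ha, hp, hb⟩ | ⟨k, y, c1, c2, c3, ha, hp, hb⟩ <;> rw [ha] <;>
  first
  | (right; apply mem_R2 <;> omega)
  | (left; apply mem_T; omega)

theorem bound_odd {m r : ℕ} (hm : 1 ≤ m) (hodd : m % 2 = 1) (S : Finset V)
    (hV : ∀ v ∈ S, Valid (m + 2 * r) m v) (hI : Indep S) :
    S.card ≤ (L0 (m + 2 * r) m ∪ R2 m).card :=
  bound_of_relink hm (by omega) (2 * (m + r)) (LinkO m r) _
    LinkO_fun (LinkO_Lp hm) (LinkO_pU hm) (LinkO_LU hm)
    (LinkO_mid hm hodd) (LinkO_up hm hodd) (low_mem hm) LinkO_mem S hV hI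

end Pool.Agent.Helper21TS
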