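import Pool.Agent.Helper21_TS.Count

namespace Pool.Agent.Helper21TS

open Finset

/-- a family on one level is independent -/
theorem indep_of_level (S : Finset V) (l : ℕ)
    (h : ∀ v ∈ S, v.1 + v.2.1 + v.2.2.1 + v.2.2.2 = l) : Indep S := by
  have key : ∀ v ∈ S, ∀ w ∈ S, v ≠ w → ¬ Below v w := by
    intro v hv w hw hne hb
    obtain ⟨b1, b2, b3, b4, _⟩ := hb
    have e1 := h v hv
    have e2 := h w hw
    apply hne
    obtain ⟨s, t, x, y⟩ := v
    obtain ⟨s', t', x', y'⟩ := w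
    simp only at b1 b2 b3 b4 e1 e2
    simp only [Prod.mk.injEq]
    omega
  intro v hv w hw hne hadj
  rcases hadj with h | h
  · exact key v hv w hw hne h
  · exact key w hw v hv hne.symm h

/-- index sets -/
def P1 (N r : ℕ) : Finset ((_ : ℕ) × (ℕ × ℕ)) :=
  (range N).sigma (fun c => range (c / 2 + 1) ×ˢ range (r + (c + 1) / 2 + 1))

def P2 (N r : ℕ) : Finset ((_ : ℕ) × (ℕ × ℕ)) :=
  (range N).sigma (fun c => range ((c + 1) / 2 + 1) ×ˢ range (r + c / 2 + 1))

theorem card_P1 (N r : ℕ) : (P1 N r).card =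
    ∑ c ∈ range N, (c / 2 + 1) * (r + (c + 1) / 2 + 1) := by
  simp [P1, card_sigma]

theorem card_P2 (N r : ℕ) : (P2 N r).card =
    ∑ c ∈ range N, ((c + 1) / 2 + 1) * (r + c / 2 + 1) := by
  simp [P2, card_sigma]

theorem exists_odd (m r : ℕ) : ∃ S : Finset V, (∀ v ∈ S, Valid (m + 1 + 2 * r) m v) ∧ Indep S ∧
    r * (m + 2).choose 2 + (m + 3).choose 3 ≤ S.card := by
  classical
  let f1 : ((_ : ℕ) × (ℕ × ℕ)) → V := fun a =>
    ((m - a.1) + a.2.2, m + 1 + 2 * r - a.2.2, a.2.1, a.1 - a.2.1)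
  let f2 : ((_ : ℕ) × (ℕ × ℕ)) → V := fun a =>
    (a.2.2, 1 + 2 * r + a.1 - a.2.2, (m - a.1) + a.2.1, m - a.2.1)
  have hm1 : ∀ a, a ∈ P1 (m + 1) r ↔ a.1 ≤ m ∧ a.2.1 ≤ a.1 / 2 ∧ a.2.2 ≤ r + (a.1 + 1) / 2 := by
    rintro ⟨c, i, k⟩
    simp only [P1, mem_sigma, mem_range, mem_product]
    omega
  have hm2 : ∀ a, a ∈ P1 m r ↔ a.1 < m ∧ a.2.1 ≤ a.1 / 2 ∧ a.2.2 ≤ r + (a.1 + 1) / 2 := by
    rintro ⟨c, i, k⟩
    simp only [P1, mem_sigma, mem_range, mem_product]
    omega
  have hi1 : Set.InjOn f1 (P1 (m + 1) r : Set _) := by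
    rintro ⟨c, i, k⟩ ha ⟨c', i', k'⟩ hb h
    rw [mem_coe, hm1] at ha hb
    simp only at ha hb
    simp only [f1, Prod.mk.injEq] at h
    obtain rfl : c = c' := by omega
    obtain rfl : i = i' := by omega
    obtain rfl : k = k' := by omega
    rfl
  have hi2 : Set.InjOn f2 (P1 m r : Set _) := by
    rintro ⟨c, i, k⟩ ha ⟨c', i', k'⟩ hb h
    rw [mem_coe, hm2] at ha hb
    simp only at ha hb
    simp only [f2, Prod.mk.injEq] at h
    obtain rfl : c = c' := by omega
    obtain rfl : i = i' := by omega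
    obtain rfl : k = k' := by omega
    rfl
  refine ⟨(P1 (m + 1) r).image f1 ∪ (P1 m r).image f2, ?_, ?_, ?_⟩
  · intro v hv
    rw [mem_union, mem_image, mem_image] at hv
    rcases hv with ⟨⟨c, i, k⟩, ha, rfl⟩ | ⟨⟨c, i, k⟩, ha, rfl⟩
    · rw [hm1] at ha
      simp only [f1, Valid] at ha ⊢
      omega
    · rw [hm2] at ha
      simp only [f2, Valid] at ha ⊢
      omega
  · apply indep_of_level _ (2 * m + 1 + 2 * r)
    intro v hv
    rw [mem_union, mem_image, mem_image] at hv
    rcases hv with ⟨⟨c, i, k⟩, ha, rfl⟩ | ⟨⟨c, i, k⟩, ha, rfl⟩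
    · rw [hm1] at ha
      simp only [f1] at ha ⊢
      omega
    · rw [hm2] at ha
      simp only [f2] at ha ⊢
      omega
  · rw [card_union_of_disjoint, card_image_of_injOn hi1, card_image_of_injOn hi2, card_P1, card_P1]
    · clear hm1 hm2 hi1 hi2 f1 f2
      apply le_of_eq
      induction m with
      | zero => simp
      | succ k ih =>
        have c3 : (k + 1 + 3).choose 3 = (k + 3).choose 2 + (k + 3).choose 3 :=
          Nat.choose_succ_succ' (k + 3) 2
        have c2 : (k + 1 + 2).choose 2 = (k + 2) + (k + 2).choose 2 := by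
          have := Nat.choose_succ_succ' (k + 2) 1
          rw [Nat.choose_one_right] at this
          exact this
        have cA : k + 2 + (k + 2).choose 2 = A (k + 1) + A k := by
          rw [← c2]; exact choose_two_A k
        rw [sum_range_succ _ (k + 1), c3, c2]
        rw [sum_range_succ _ k] at ih ⊢
        have h1 : ((k + 1) / 2 + 1) * (r + (k + 1 + 1) / 2 + 1) = r * ((k + 1) / 2 + 1) + A (k + 1) := by
          unfold A; ring
        have h2 : (k / 2 + 1) * (r + (k + 1) / 2 + 1) = r * (k / 2 + 1) + A k := by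
          unfold A; ring
        rw [h1, h2]
        have h3 : r * (k + 2 + (k + 2).choose 2) =
            r * (k + 2).choose 2 + (r * ((k + 1) / 2 + 1) + r * (k / 2 + 1)) := by
          rw [← mul_add, ← mul_add]
          congr 1
          omega
        rw [h3]
        omega
    · rw [disjoint_left]
      intro v hv hw
      rw [mem_image] at hv hw
      obtain ⟨⟨c, i, k⟩, ha, rfl⟩ := hv
      obtain ⟨⟨c', i', k'⟩, hb, h⟩ := hw
      rw [hm1] at ha
      rw [hm2] at hb
      simp only [f1, f2, Prod.mk.injEq] at ha hb h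
      omega

theorem exists_even (m r : ℕ) (hm : 1 ≤ m) : ∃ S : Finset V,
    (∀ v ∈ S, Valid (m + 2 * r) m v) ∧ Indep S ∧
    r * (m + 2).choose 2 + (m + 3).choose 3 - (m + 2) ^ 2 / 4 ≤ S.card := by
  classical
  let f1 : ((_ : ℕ) × (ℕ × ℕ)) → V := fun a =>
    ((m - 1 - a.1) + a.2.2, m + 2 * r - a.2.2, a.2.1, a.1 - a.2.1)
  let f2 : ((_ : ℕ) × (ℕ × ℕ)) → V := fun a =>
    (a.2.2, 2 * r + a.1 - a.2.2, (m - 1 - a.1) + a.2.1, m - a.2.1)
  let f3 : ℕ → V := fun k => (k, 2 * r - 1 - k, m, m)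
  have hm1 : ∀ a, a ∈ P1 m r ↔ a.1 < m ∧ a.2.1 ≤ a.1 / 2 ∧ a.2.2 ≤ r + (a.1 + 1) / 2 := by
    rintro ⟨c, i, k⟩
    simp only [P1, mem_sigma, mem_range, mem_product]
    omega
  have hm2 : ∀ a, a ∈ P2 m r ↔ a.1 < m ∧ a.2.1 ≤ (a.1 + 1) / 2 ∧ a.2.2 ≤ r + a.1 / 2 := by
    rintro ⟨c, i, k⟩
    simp only [P2, mem_sigma, mem_range, mem_product]
    omega
  have hi1 : Set.InjOn f1 (P1 m r : Set _) := by
    rintro ⟨c, i, k⟩ ha ⟨c', i', k'⟩ hb h
    rw [mem_coe, hm1] at ha hb
    simp only at ha hb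
    simp only [f1, Prod.mk.injEq] at h
    obtain rfl : c = c' := by omega
    obtain rfl : i = i' := by omega
    obtain rfl : k = k' := by omega
    rfl
  have hi2 : Set.InjOn f2 (P2 m r : Set _) := by
    rintro ⟨c, i, k⟩ ha ⟨c', i', k'⟩ hb h
    rw [mem_coe, hm2] at ha hb
    simp only at ha hb
    simp only [f2, Prod.mk.injEq] at h
    obtain rfl : c = c' := by omega
    obtain rfl : i = i' := by omega
    obtain rfl : k = k' := by omega
    rfl
  have hi3 : Set.InjOn f3 (range r : Set _) := by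
    intro a ha b hb h
    simp only [f3, Prod.mk.injEq] at h
    exact h.1
  refine ⟨((P1 m r).image f1 ∪ (P2 m r).image f2) ∪ (range r).image f3, ?_, ?_, ?_⟩
  · intro v hv
    rw [mem_union, mem_union, mem_image, mem_image, mem_image] at hv
    rcases hv with (⟨⟨c, i, k⟩, ha, rfl⟩ | ⟨⟨c, i, k⟩, ha, rfl⟩) | ⟨k, ha, rfl⟩
    · rw [hm1] at ha
      simp only [f1, Valid] at ha ⊢
      omega
    · rw [hm2] at ha
      simp only [f2, Valid] at ha ⊢
      omega
    · rw [mem_range] at ha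
      simp only [f3, Valid] at ha ⊢
      omega
  · apply indep_of_level _ (2 * m + 2 * r - 1)
    intro v hv
    rw [mem_union, mem_union, mem_image, mem_image, mem_image] at hv
    rcases hv with (⟨⟨c, i, k⟩, ha, rfl⟩ | ⟨⟨c, i, k⟩, ha, rfl⟩) | ⟨k, ha, rfl⟩
    · rw [hm1] at ha
      simp only [f1] at ha ⊢
      omega
    · rw [hm2] at ha
      simp only [f2] at ha ⊢
      omega
    · rw [mem_range] at ha
      simp only [f3] at ha ⊢
      omega
  · rw [card_union_of_disjoint, card_union_of_disjoint, card_image_of_injOn hi1,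
      card_image_of_injOn hi2, card_image_of_injOn hi3, card_P1, card_P2, card_range, ← A_eq]
    · clear hm1 hm2 hi1 hi2 hi3 f1 f2 f3
      have key : ∑ c ∈ range m, (c / 2 + 1) * (r + (c + 1) / 2 + 1) +
          ∑ c ∈ range m, ((c + 1) / 2 + 1) * (r + c / 2 + 1) + r + A m =
          r * (m + 2).choose 2 + (m + 3).choose 3 := by
        clear hm
        induction m with
        | zero => simp [A]
        | succ k ih =>
          have c3 : (k + 1 + 3).choose 3 = (k + 3).choose 2 + (k + 3).choose 3 :=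
            Nat.choose_succ_succ' (k + 3) 2
          have c2 : (k + 1 + 2).choose 2 = (k + 2) + (k + 2).choose 2 := by
            have := Nat.choose_succ_succ' (k + 2) 1
            rw [Nat.choose_one_right] at this
            exact this
          have cA : k + 2 + (k + 2).choose 2 = A (k + 1) + A k := by
            rw [← c2]; exact choose_two_A k
          rw [sum_range_succ _ k, sum_range_succ _ k, c3, c2]
          have h1 : ((k + 1) / 2 + 1) * (r + k / 2 + 1) = r * ((k + 1) / 2 + 1) + A k := by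
            unfold A; ring
          have h2 : (k / 2 + 1) * (r + (k + 1) / 2 + 1) = r * (k / 2 + 1) + A k := by
            unfold A; ring
          rw [h1, h2]
          have h3 : r * (k + 2 + (k + 2).choose 2) =
              r * (k + 2).choose 2 + (r * ((k + 1) / 2 + 1) + r * (k / 2 + 1)) := by
            rw [← mul_add, ← mul_add]
            congr 1
            omega
          rw [h3]
          omega
      omega
    · rw [disjoint_left]
      intro v hv hw
      rw [mem_image] at hv hw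
      obtain ⟨⟨c, i, k⟩, ha, rfl⟩ := hv
      obtain ⟨⟨c', i', k'⟩, hb, h⟩ := hw
      rw [hm1] at ha
      rw [hm2] at hb
      simp only [f1, f2, Prod.mk.injEq] at ha hb h
      omega
    · rw [disjoint_left]
      intro v hv hw
      rw [mem_union, mem_image, mem_image] at hv
      rw [mem_image] at hw
      obtain ⟨k', hb, h⟩ := hw
      rcases hv with ⟨⟨c, i, k⟩, ha, rfl⟩ | ⟨⟨c, i, k⟩, ha, rfl⟩
      · rw [hm1] at ha
        simp only [f1, f3, Prod.mk.injEq] at ha h
        omega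
      · rw [hm2] at ha
        simp only [f2, f3, Prod.mk.injEq] at ha h
        omega

/-- the shape of the extremal family for `m = 2`, `n = 2r + 2` -/
def InT (r s t x y : ℕ) : Prop :=
  (x = 0 ∧ y = 0 ∧ s = r + 1 ∧ t = r + 2) ∨
  (x = 0 ∧ y = 0 ∧ s = r + 2 ∧ t = r + 3 ∧ 1 ≤ r) ∨
  (x = 0 ∧ y = 0 ∧ 2 ≤ s ∧ s ≤ r ∧ s + t = 2 * r + 4) ∨
  (x = 0 ∧ y = 1 ∧ s = r + 2 ∧ t = r + 2) ∨
  (x = 0 ∧ y = 1 ∧ 1 ≤ s ∧ s ≤ r ∧ s + t = 2 * r + 3) ∨
  (x = 1 ∧ y = 1 ∧ s ≤ r ∧ s + t = 2 * r + 2) ∨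
  (x = 0 ∧ y = 2 ∧ s ≤ r + 1 ∧ s + t = 2 * r + 2) ∨
  (x = 1 ∧ y = 2 ∧ s = r ∧ t = r) ∨
  (x = 1 ∧ y = 2 ∧ s + 1 ≤ r ∧ s + t = 2 * r + 1) ∨
  (x = 2 ∧ y = 2 ∧ s = r ∧ t = r + 1) ∨
  (x = 2 ∧ y = 2 ∧ s + 1 = r ∧ t = r) ∨
  (x = 2 ∧ y = 2 ∧ s + 2 ≤ r ∧ s + t = 2 * r)

/-- parametrisation of the extremal family -/
def gT (r : ℕ) (a : ℕ × ℕ) : V :=
  if a.1 = 0 then
    (if a.2 = 0 then (r + 1, r + 2, 0, 0) else if a.2 = 1 then (r + 2, r + 3, 0, 0)
      else (a.2, 2 * r + 4 - a.2, 0, 0))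
  else if a.1 = 1 then
    (if a.2 = 0 then (r + 2, r + 2, 0, 1) else (a.2, 2 * r + 3 - a.2, 0, 1))
  else if a.1 = 2 then (a.2, 2 * r + 2 - a.2, 1, 1)
  else if a.1 = 3 then (a.2, 2 * r + 2 - a.2, 0, 2)
  else if a.1 = 4 then
    (if a.2 = r then (r, r, 1, 2) else (a.2, 2 * r + 1 - a.2, 1, 2))
  else
    (if a.2 = r then (r, r + 1, 2, 2) else if a.2 + 1 = r then (a.2, r, 2, 2)
      else (a.2, 2 * r - a.2, 2, 2))

theorem gT_inT {r : ℕ} {a : ℕ × ℕ} (h : (a.1 < 6 ∧ a.2 < r + 1) ∨ a = (3, r + 1)) :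
    InT r (gT r a).1 (gT r a).2.1 (gT r a).2.2.1 (gT r a).2.2.2 := by
  obtain ⟨j, i⟩ := a
  simp only [Prod.mk.injEq] at h
  unfold gT
  simp only
  split_ifs <;> simp only <;> unfold InT <;>
    first
    | (left; omega)
    | (right; left; omega)
    | (right; right; left; omega)
    | (right; right; right; left; omega)
    | (right; right; right; right; left; omega)
    | (right; right; right; right; right; left; omega)
    | (right; right; right; right; right; right; left; omega)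
    | (right; right; right; right; right; right; right; left; omega)
    | (right; right; right; right; right; right; right; right; left; omega)
    | (right; right; right; right; right; right; right; right; right; left; omega)
    | (right; right; right; right; right; right; right; right; right; right; left; omega)
    | (right; right; right; right; right; right; right; right; right; right; right; omega)

theorem inT_not_below {r s t x y s' t' x' y' : ℕ} (h1 : InT r s t x y) (h2 : InT r s' t' x' y')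
    (hne : ¬ (s = s' ∧ t = t' ∧ x = x' ∧ y = y')) (b1 : s ≤ s') (b2 : t ≤ t') (b3 : x ≤ x')
    (b4 : y ≤ y') (b5 : s' < t ∨ x' < y) : False := by
  unfold InT at h1 h2
  rcases h1 with h1 | h1 | h1 | h1 | h1 | h1 | h1 | h1 | h1 | h1 | h1 | h1 <;>
    rcases h2 with h2 | h2 | h2 | h2 | h2 | h2 | h2 | h2 | h2 | h2 | h2 | h2 <;> omega

theorem gT_inj (r : ℕ) :
    Set.InjOn (gT r) {a : ℕ × ℕ | (a.1 < 6 ∧ a.2 < r + 1) ∨ a = (3, r + 1)} := by
  rintro ⟨j, i⟩ ha ⟨j', i'⟩ hb h
  simp only [Set.mem_ofPred_eq, Prod.mk.injEq] at ha hb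
  unfold gT at h
  simp only at h
  simp only [Prod.mk.injEq]
  split_ifs at h <;> simp only [Prod.mk.injEq] at h <;> omega

theorem exists_two (r : ℕ) : ∃ S : Finset V, (∀ v ∈ S, Valid (2 + 2 * r) 2 v) ∧ Indep S ∧
    6 * (r + 1) + 1 ≤ S.card := by
  classical
  let I : Finset (ℕ × ℕ) := (range 6 ×ˢ range (r + 1)) ∪ {(3, r + 1)}
  have hI : ∀ a, a ∈ I ↔ (a.1 < 6 ∧ a.2 < r + 1) ∨ a = (3, r + 1) := by
    intro a
    simp only [I, mem_union, mem_product, mem_range, mem_singleton]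
  have hcard : I.card = 6 * (r + 1) + 1 := by
    simp only [I]
    rw [card_union_of_disjoint]
    · simp
    · rw [disjoint_left]
      intro a ha hb
      rw [mem_singleton] at hb
      subst hb
      simp at ha
  refine ⟨I.image (gT r), ?_, ?_, ?_⟩
  · intro v hv
    rw [mem_image] at hv
    obtain ⟨a, ha, rfl⟩ := hv
    have h := gT_inT ((hI a).mp ha)
    unfold Valid
    unfold InT at h
    rcases h with h | h | h | h | h | h | h | h | h | h | h | h <;> omega
  · have key : ∀ v ∈ I.image (gT r), ∀ w ∈ I.image (gT r), v ≠ w → ¬ Below v w := by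
      intro v hv w hw hne hb
      rw [mem_image] at hv hw
      obtain ⟨a, ha, rfl⟩ := hv
      obtain ⟨b, hb', rfl⟩ := hw
      have h1 := gT_inT ((hI a).mp ha)
      have h2 := gT_inT ((hI b).mp hb')
      obtain ⟨b1, b2, b3, b4, b5⟩ := hb
      refine inT_not_below h1 h2 ?_ b1 b2 b3 b4 b5
      rintro ⟨e1, e2, e3, e4⟩
      exact hne (Prod.ext e1 (Prod.ext e2 (Prod.ext e3 e4)))
    intro v hv w hw hne hadj
    rcases hadj with h | h
    · exact key v hv w hw hne h
    · exact key w hw v hv hne.symm h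
  · rw [card_image_of_injOn, hcard]
    intro a ha b hb h
    rw [mem_coe, hI] at ha hb
    exact gT_inj r ha hb h

end Pool.Agent.Helper21TS
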