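import Pool.Agent.Helper21_TS.LinkEven
import Pool.Agent.Helper21_TS.Lower

namespace Pool.Agent.Helper21TS

universe u

/-- upper bound for the combinatorial extremal problem -/
theorem upper (n m : ℕ) (hm : 2 ≤ m) (hmn : m ≤ n) (S : Finset V)
    (hV : ∀ v ∈ S, Valid n m v) (hI : Indep S) : S.card ≤ F n m := by
  unfold F
  by_cases hodd : (n + m) % 2 = 1
  · rw [if_pos hodd]
    obtain ⟨r, rfl⟩ : ∃ r, n = m + 1 + 2 * r := ⟨(n - m - 1) / 2, by omega⟩
    have h1 := bound_of_labels (by omega) hmn S hV hI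
    have h2 := card_odd m r
    have e : (m + 1 + 2 * r - m - 1) / 2 = r := by omega
    rw [e]
    exact h1.trans h2
  · rw [if_neg hodd]
    obtain ⟨r, rfl⟩ : ∃ r, n = m + 2 * r := ⟨(n - m) / 2, by omega⟩
    by_cases h3 : 3 ≤ m
    · rw [if_pos h3]
      have e : (m + 2 * r - m) / 2 = r := by omega
      rw [e]
      have h2 := card_even m r (by omega)
      by_cases hmo : m % 2 = 1
      · have h1 := bound_odd (by omega) hmo S hV hI
        omega
      · obtain ⟨h, rfl⟩ : ∃ h, m = 2 * h := ⟨m / 2, by omega⟩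
        have h1 := bound_even (by omega : 2 ≤ h) S hV hI
        omega
    · rw [if_neg h3]
      obtain rfl : m = 2 := by omega
      have h1 := bound_of_labels (by omega) hmn S hV hI
      have h2 := card_two r
      have e : (2 + 2 * r) / 2 = r + 1 := by omega
      rw [e]
      exact h1.trans h2

/-- lower bound for the combinatorial extremal problem -/
theorem lower (n m : ℕ) (hm : 2 ≤ m) (hmn : m ≤ n) :
    ∃ S : Finset V, (∀ v ∈ S, Valid n m v) ∧ Indep S ∧ F n m ≤ S.card := by
  unfold F
  by_cases hodd : (n + m) % 2 = 1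
  · rw [if_pos hodd]
    obtain ⟨r, rfl⟩ : ∃ r, n = m + 1 + 2 * r := ⟨(n - m - 1) / 2, by omega⟩
    have e : (m + 1 + 2 * r - m - 1) / 2 = r := by omega
    rw [e]
    exact exists_odd m r
  · rw [if_neg hodd]
    obtain ⟨r, rfl⟩ : ∃ r, n = m + 2 * r := ⟨(n - m) / 2, by omega⟩
    by_cases h3 : 3 ≤ m
    · rw [if_pos h3]
      have e : (m + 2 * r - m) / 2 = r := by omega
      rw [e]
      exact exists_even m r (by omega)
    · rw [if_neg h3]
      obtain rfl : m = 2 := by omega
      have e : (2 + 2 * r) / 2 = r + 1 := by omega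
      rw [e]
      exact exists_two r

theorem complexity_eq (p q : ℕ) (hp : p.Prime) (hq : q.Prime) (hpq : p ≠ q) (n m : ℕ)
    (hm : 2 ≤ m) (hmn : m ≤ n) (G : Type u) [Group G] [IsCyclic G]
    (hG : Nat.card G = p ^ n * q ^ m) : IsComplexity G (F n m) :=
  isComplexity_of_grid G hp hq hpq hG (F n m) (upper n m hm hmn) (lower n m hm hmn)

end Pool.Agent.Helper21TS
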