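import Pool.Agent.Helper21_TS.Defs

namespace Pool.Agent.Helper21TS

universe u

open Relation

variable {G : Type u} [Group G]

/-- conjugation acts trivially on subgroups -/
def ConjTriv (G : Type u) [Group G] : Prop :=
  ∀ (g : G) (K : Subgroup G), K.map (MulAut.conj g).toMonoidHom = K

/-- one restriction step of an element of `S` -/
def Step (S : Set (Subgroup G × Subgroup G)) (a b : Subgroup G) : Prop :=
  ∃ s ∈ S, b ≤ s.2 ∧ a = s.1 ⊓ b

/-- the generated transfer system -/
def gen (hc : ConjTriv G) (S : Set (Subgroup G × Subgroup G)) : TransferSystem G where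
  rel := ReflTransGen (Step S)
  refl := fun _ => ReflTransGen.refl
  trans := fun h1 h2 => h1.trans h2
  le_of_rel := by
    intro K H h
    induction h with
    | refl => exact le_rfl
    | tail _ h2 ih =>
      obtain ⟨s, _, _, rfl⟩ := h2
      exact ih.trans inf_le_right
  antisymm := by
    have key : ∀ K H : Subgroup G, ReflTransGen (Step S) K H → K ≤ H := by
      intro K H h
      induction h with
      | refl => exact le_rfl
      | tail _ h2 ih =>
        obtain ⟨s, _, _, rfl⟩ := h2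
        exact ih.trans inf_le_right
    intro K H h1 h2
    exact le_antisymm (key _ _ h1) (key _ _ h2)
  conj := by
    intro g K H h
    rw [hc, hc]
    exact h
  restrict := by
    intro K H L h
    induction h generalizing L with
    | refl =>
      intro hL
      rw [inf_eq_right.mpr hL]
    | @tail C H _ h2 ih =>
      intro hL
      obtain ⟨s, hs, hH, rfl⟩ := h2
      have h3 := ih (L := (s.1 ⊓ H) ⊓ L) inf_le_left
      have h4 : K ≤ s.1 ⊓ H := by
        have key : ∀ K H : Subgroup G, ReflTransGen (Step S) K H → K ≤ H := by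
          intro K H h
          induction h with
          | refl => exact le_rfl
          | tail _ h2 ih =>
            obtain ⟨s, _, _, rfl⟩ := h2
            exact ih.trans inf_le_right
        exact key _ _ (by assumption)
      have h5 : K ⊓ (s.1 ⊓ H ⊓ L) = K ⊓ L := by
        rw [← inf_assoc, inf_eq_left.mpr h4]
      rw [h5] at h3
      refine h3.tail ⟨s, hs, hL.trans hH, ?_⟩
      rw [inf_assoc, inf_eq_right.mpr hL]

theorem gen_mem (hc : ConjTriv G) (S : Set (Subgroup G × Subgroup G)) (hS : ∀ x ∈ S, x.1 < x.2) :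
    ∀ x ∈ S, (gen hc S).rel x.1 x.2 := by
  intro x hx
  exact ReflTransGen.single ⟨x, hx, le_rfl, (inf_eq_left.mpr (hS x hx).le).symm⟩

theorem step_rel (T : TransferSystem G) (S : Set (Subgroup G × Subgroup G))
    (h : ∀ x ∈ S, T.rel x.1 x.2) {a b : Subgroup G} (hab : Step S a b) : T.rel a b := by
  obtain ⟨s, hs, hb, rfl⟩ := hab
  exact T.restrict (h s hs) hb

theorem rtg_rel (T : TransferSystem G) (S : Set (Subgroup G × Subgroup G))
    (h : ∀ x ∈ S, T.rel x.1 x.2) {a b : Subgroup G} (hab : ReflTransGen (Step S) a b) :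
    T.rel a b := by
  induction hab with
  | refl => exact T.refl _
  | tail _ h2 ih => exact T.trans ih (step_rel T S h h2)

theorem rel_of_basis (hc : ConjTriv G) (T : TransferSystem G) (S : Set (Subgroup G × Subgroup G))
    (h : T.IsBasis S) {a b : Subgroup G} (hab : T.rel a b) : ReflTransGen (Step S) a b :=
  h.2.2 (gen hc S) (gen_mem hc S h.1) a b hab

/-- cover relation in a transfer system -/
def Cov (T : TransferSystem G) (a b : Subgroup G) : Prop :=
  T.rel a b ∧ a ≠ b ∧ ∀ c, T.rel a c → T.rel c b → c = a ∨ c = b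

/-- `x` is a restriction of `y` -/
def Restr (x y : Subgroup G × Subgroup G) : Prop := x.2 ≤ y.2 ∧ x.1 = y.1 ⊓ x.2

theorem Restr.trans {x y z : Subgroup G × Subgroup G} (h1 : Restr x y) (h2 : Restr y z) :
    Restr x z := by
  refine ⟨h1.1.trans h2.1, ?_⟩
  rw [h1.2, h2.2, inf_assoc, inf_eq_right.mpr h1.1]

/-- restriction-maximal covers -/
def MC (T : TransferSystem G) : Set (Subgroup G × Subgroup G) :=
  {x | Cov T x.1 x.2 ∧ ∀ y : Subgroup G × Subgroup G, Cov T y.1 y.2 → Restr x y → x = y}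

theorem cov_restr (hc : ConjTriv G) (T : TransferSystem G) (S : Set (Subgroup G × Subgroup G))
    (h : T.IsBasis S) {a b : Subgroup G} (hab : Cov T a b) : ∃ s ∈ S, Restr (a, b) s := by
  have h1 := rel_of_basis hc T S h hab.1
  have key : ∀ c, ReflTransGen (Step S) a c → Cov T a c → ∃ s ∈ S, Restr (a, c) s := by
    intro c hac
    induction hac with
    | refl => intro h; exact absurd rfl h.2.1
    | @tail d c h2 h3 ih =>
      intro hcov
      have e1 : T.rel a d := rtg_rel T S h.2.1 h2
      have e2 : T.rel d c := step_rel T S h.2.1 h3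
      rcases hcov.2.2 d e1 e2 with rfl | rfl
      · obtain ⟨s, hs, hb, hd⟩ := h3
        exact ⟨s, hs, hb, hd⟩
      · exact ih hcov
  exact key b h1 hab

variable [Finite G]

theorem exists_cov_chain (T : TransferSystem G) (a : Subgroup G) :
    ∀ b, T.rel a b → ReflTransGen (Cov T) a b := by
  intro b
  induction b using (wellFounded_lt (α := Subgroup G)).induction with
  | _ b ih =>
    intro hab
    by_cases hne : a = b
    · rw [hne]
    have hfin : ({c | T.rel a c ∧ T.rel c b ∧ c ≠ b} : Set (Subgroup G)).Finite := Set.toFinite _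
    have hnon : ({c | T.rel a c ∧ T.rel c b ∧ c ≠ b} : Set (Subgroup G)).Nonempty :=
      ⟨a, T.refl a, hab, hne⟩
    obtain ⟨c, hc⟩ := hfin.exists_maximal hnon
    have hcS := hc.prop
    have hlt : c < b := lt_of_le_of_ne (T.le_of_rel hcS.2.1) hcS.2.2
    refine (ih c hlt hcS.1).tail ⟨hcS.2.1, hcS.2.2, ?_⟩
    intro d h1 h2
    by_cases hd : d = b
    · exact Or.inr hd
    · left
      have : d ≤ c := hc.le_of_ge ⟨T.trans hcS.1 h1, h2, hd⟩ (T.le_of_rel h1)
      exact le_antisymm this (T.le_of_rel h1)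

theorem exists_MC_above (T : TransferSystem G) (x : Subgroup G × Subgroup G)
    (hx : Cov T x.1 x.2) : ∃ y ∈ MC T, Restr x y := by
  have hfin : ({c | ∃ y : Subgroup G × Subgroup G, Cov T y.1 y.2 ∧ Restr x y ∧ y.2 = c} :
      Set (Subgroup G)).Finite := Set.toFinite _
  have hnon : ({c | ∃ y : Subgroup G × Subgroup G, Cov T y.1 y.2 ∧ Restr x y ∧ y.2 = c} :
      Set (Subgroup G)).Nonempty :=
    ⟨x.2, x, hx, ⟨le_rfl, (inf_eq_left.mpr (T.le_of_rel hx.1)).symm⟩, rfl⟩
  obtain ⟨c, hc⟩ := hfin.exists_maximal hnon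
  obtain ⟨y, hy, hxy, hyc⟩ := hc.prop
  refine ⟨y, ⟨hy, ?_⟩, hxy⟩
  intro z hz hyz
  have h1 : z.2 ≤ c := by
    apply hc.le_of_ge ⟨z, hz, hxy.trans hyz, rfl⟩
    rw [← hyc]; exact hyz.1
  have h2 : y.2 = z.2 := le_antisymm hyz.1 (hyc ▸ h1)
  have h3 : y.1 = z.1 := by
    rw [hyz.2, h2]
    exact inf_eq_left.mpr (T.le_of_rel hz.1)
  exact Prod.ext h3 h2

theorem rel_of_MC (T T' : TransferSystem G) (h : ∀ x ∈ MC T, T'.rel x.1 x.2) (K H : Subgroup G)
    (hKH : T.rel K H) : T'.rel K H := by
  have h1 := exists_cov_chain T K H hKH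
  induction h1 with
  | refl => exact T'.refl _
  | @tail c d h2 h3 ih =>
    have e1 := ih (by
      have : ∀ c, ReflTransGen (Cov T) K c → T.rel K c := by
        intro c hc
        induction hc with
        | refl => exact T.refl _
        | tail _ h ih => exact T.trans ih h.1
      exact this c h2)
    obtain ⟨y, hy, hr⟩ := exists_MC_above T (c, d) h3
    have e2 := T'.restrict (h y hy) hr.1
    have e3 : T'.rel c d := by
      have := hr.2
      simp only at this
      rw [this]; exact e2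
    exact T'.trans e1 e3

theorem MC_isBasis (T : TransferSystem G) : T.IsBasis (MC T) := by
  refine ⟨?_, ?_, ?_⟩
  · intro x hx
    exact lt_of_le_of_ne (T.le_of_rel hx.1.1) hx.1.2.1
  · intro x hx; exact hx.1.1
  · intro T' h K H hKH
    exact rel_of_MC T T' h K H hKH

theorem MC_isMinimalBasis (hc : ConjTriv G) (T : TransferSystem G) : T.IsMinimalBasis (MC T) := by
  refine ⟨MC_isBasis T, ?_⟩
  intro S' hS' hb
  obtain ⟨x, hx, hxS⟩ := Set.exists_of_ssubset hS'
  obtain ⟨s, hs, hr⟩ := cov_restr hc T S' hb hx.1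
  have := hx.2 s (hS'.1 hs).1 hr
  exact hxS (this ▸ hs)

theorem unique_restr (T : TransferSystem G) (u w : Subgroup G) (huw : T.rel u w) :
    ∃ c, ∀ x ∈ MC T, Restr x (u, w) → x = (u, c) := by
  have h1 := exists_cov_chain T u w huw
  clear huw
  induction h1 using ReflTransGen.head_induction_on with
  | refl =>
    refine ⟨w, ?_⟩
    intro x hx hr
    exfalso
    have h2 : x.1 = x.2 := by rw [hr.2]; exact inf_eq_right.mpr hr.1
    exact hx.1.2.1 h2
  | @head u c h2 h3 ih =>
    obtain ⟨c', hc'⟩ := ih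
    refine ⟨c, ?_⟩
    intro x hx hr
    have hcw : T.rel c w := by
      have : ∀ c, ReflTransGen (Cov T) c w → T.rel c w := by
        intro c hc
        induction hc using ReflTransGen.head_induction_on with
        | refl => exact T.refl _
        | head h _ ih => exact T.trans h.1 ih
      exact this c h3
    have e1 : T.rel x.1 (c ⊓ x.2) := by
      have := T.restrict h2.1 (L := c ⊓ x.2) inf_le_left
      have e : u ⊓ (c ⊓ x.2) = x.1 := by
        rw [← inf_assoc, inf_eq_left.mpr (T.le_of_rel h2.1)]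
        exact hr.2.symm
      rwa [e] at this
    have e2 : T.rel (c ⊓ x.2) x.2 := T.restrict hcw hr.1
    rcases hx.1.2.2 _ e1 e2 with h4 | h4
    · exfalso
      have h5 : Restr x (c, w) := ⟨hr.1, h4.symm⟩
      have h6 := hc' x hx h5
      have h7 : x.1 = c := by rw [h6]
      have h8 : c ≤ u := by
        rw [← h7, hr.2]; exact inf_le_left
      exact h2.2.1 (le_antisymm (T.le_of_rel h2.1) h8)
    · have h5 : x.2 ≤ c := inf_eq_right.mp h4
      exact hx.2 (u, c) h2 ⟨h5, hr.2⟩

theorem encard_of_isMinimalBasis (hc : ConjTriv G) (T : TransferSystem G)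
    (S : Set (Subgroup G × Subgroup G)) (hS : T.IsMinimalBasis S) :
    S.encard = (MC T).encard := by
  have h1 : ∀ x : MC T, ∃ s ∈ S, Restr x.1 s := fun x => cov_restr hc T S hS.1 x.2.1
  choose f hf hr using h1
  have hinj : Function.Injective f := by
    intro x y hxy
    obtain ⟨c, hc'⟩ := unique_restr T (f x).1 (f x).2 (hS.1.2.1 _ (hf x))
    have e1 := hc' x.1 x.2 (hr x)
    have e2 := hc' y.1 y.2 (by rw [hxy]; exact hr y)
    exact Subtype.ext (e1.trans e2.symm)
  have hsub : Set.range f ⊆ S := by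
    rintro _ ⟨x, rfl⟩; exact hf x
  have hbas : T.IsBasis (Set.range f) := by
    refine ⟨fun x hx => hS.1.1 x (hsub hx), fun x hx => hS.1.2.1 x (hsub hx), ?_⟩
    intro T' h K H hKH
    apply rel_of_MC T T' _ K H hKH
    intro x hx
    have e := T'.restrict (h (f ⟨x, hx⟩) ⟨_, rfl⟩) (hr ⟨x, hx⟩).1
    rw [← (hr ⟨x, hx⟩).2] at e
    exact e
  have heq : Set.range f = S := by
    by_contra hne
    exact hS.2 _ (lt_of_le_of_ne hsub hne) hbas
  rw [← heq]
  have := hinj.encard_image (Set.univ : Set (MC T))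
  rw [Set.image_univ] at this
  rw [this, Set.encard_univ]
  rfl

/-- families of pairs in which distinct comparable pairs are stacked -/
def StarSet (S : Set (Subgroup G × Subgroup G)) : Prop :=
  (∀ x ∈ S, x.1 < x.2) ∧
    ∀ x ∈ S, ∀ y ∈ S, x ≠ y → x.1 ≤ y.1 → x.2 ≤ y.2 → x.2 ≤ y.1

theorem MC_star (T : TransferSystem G) : StarSet (MC T) := by
  refine ⟨(MC_isBasis T).1, ?_⟩
  intro x hx y hy hne h1 h2
  have e1 : T.rel (y.1 ⊓ x.2) x.2 := T.restrict hy.1.1 h2
  have e2 : T.rel x.1 (y.1 ⊓ x.2) := by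
    have := T.restrict hx.1.1 (L := y.1 ⊓ x.2) inf_le_right
    have e : x.1 ⊓ (y.1 ⊓ x.2) = x.1 :=
      inf_eq_left.mpr (le_inf h1 (T.le_of_rel hx.1.1))
    rwa [e] at this
  rcases hx.1.2.2 _ e2 e1 with h3 | h3
  · exact absurd (hx.2 y hy.1 ⟨h2, h3.symm⟩) hne
  · exact inf_eq_right.mp h3

omit [Finite G] in
theorem gen_isMinimalBasis (hc : ConjTriv G) (S : Set (Subgroup G × Subgroup G))
    (hS : StarSet S) : (gen hc S).IsMinimalBasis S := by
  refine ⟨⟨hS.1, gen_mem hc S hS.1, ?_⟩, ?_⟩
  · intro T' h K H hKH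
    exact rtg_rel T' S h hKH
  · intro S' hS' hb
    obtain ⟨x, hx, hxS⟩ := Set.exists_of_ssubset hS'
    have h1 : ReflTransGen (Step S') x.1 x.2 :=
      rel_of_basis hc _ S' hb (gen_mem hc S hS.1 x hx)
    have key : ∀ b, ReflTransGen (Step S') x.1 b → x.1 ≠ b →
        ∃ c, c ≠ b ∧ x.1 ≤ c ∧ Step S' c b := by
      intro b hb
      induction hb with
      | refl => intro h; exact absurd rfl h
      | @tail c b h2 h3 ih =>
        intro hne
        by_cases hcb : c = b
        · subst hcb; exact ih hne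
        · exact ⟨c, hcb, (gen hc S').le_of_rel h2, h3⟩
    obtain ⟨c, hc1, hc2, s, hs, hb, hcs⟩ := key _ h1 (hS.1 x hx).ne
    have e1 : x.1 ≤ s.1 := hc2.trans (hcs ▸ inf_le_left)
    have e2 : x ≠ s := fun h => hxS (h ▸ hs)
    have e3 := hS.2 x hx s (hS'.1 hs) e2 e1 hb
    exact hc1 (hcs.trans (inf_eq_right.mpr e3))

theorem isComplexity_of_star (hc : ConjTriv G) (c : ℕ)
    (h1 : ∀ S : Set (Subgroup G × Subgroup G), StarSet S → S.encard ≤ c)
    (h2 : ∃ S : Set (Subgroup G × Subgroup G), StarSet S ∧ (c : ℕ∞) ≤ S.encard) :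
    IsComplexity G c := by
  have hrank : ∀ T : TransferSystem G, T.HasRank (MC T).ncard := by
    intro T
    refine ⟨⟨_, MC_isMinimalBasis hc T⟩, ?_⟩
    intro S hS
    rw [encard_of_isMinimalBasis hc T S hS, (Set.toFinite (MC T)).cast_ncard_eq]
  refine ⟨?_, ?_⟩
  · intro T
    refine ⟨_, ?_, hrank T⟩
    have := h1 _ (MC_star T)
    rw [← (Set.toFinite (MC T)).cast_ncard_eq] at this
    exact_mod_cast this
  · obtain ⟨S, hS, hcS⟩ := h2
    have hmin := gen_isMinimalBasis hc S hS
    refine ⟨gen hc S, ?_⟩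
    have h3 := hrank (gen hc S)
    have h4 : S.encard = ((MC (gen hc S)).ncard : ℕ∞) := h3.2 S hmin
    have h5 : S.encard = (c : ℕ∞) := le_antisymm (h1 S hS) hcS
    have h6 : (MC (gen hc S)).ncard = c := by
      rw [h5] at h4
      exact_mod_cast h4.symm
    rwa [h6] at h3

end Pool.Agent.Helper21TS
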