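import Pool.Agent.Helper21_TS.Count

namespace Pool.Agent.Helper21TS

open Finset

/-- rank of a vertex -/
def rk (v : V) : ℕ := v.1 + v.2.1 + v.2.2.1 + v.2.2.2

theorem Adj.symm {v w : V} (h : Adj v w) : Adj w v := Or.symm h

/-- every independent family is at most as large as the number of labels -/
theorem bound_of_labels {n m : ℕ} (hm : 1 ≤ m) (hmn : m ≤ n) (S : Finset V)
    (hV : ∀ v ∈ S, Valid n m v) (hI : Indep S) : S.card ≤ (L0 n m ∪ R1 m).card := by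
  apply card_le_card_of_injOn (D n m)
  · intro v hv
    exact D_mem hm hmn v (hV v hv)
  · intro v hv w hw h
    by_contra hne
    rcases D_clique hm hmn v w (hV v hv) (hV w hw) h with h1 | h1
    · exact hne h1
    · exact hI v hv w hw hne h1

/-- relinking of the lower and the upper half -/
theorem bound_of_relink {n m : ℕ} (hm : 1 ≤ m) (hmn : m ≤ n) (μ : ℕ)
    (Link : Lab → V → Lab → Prop) (Λ : Finset Lab)
    (hfun : ∀ a p b p' b', Link a p b → Link a p' b' → p = p' ∧ b = b')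
    (hLp : ∀ a p b w, Link a p b → Valid n m w → D n m w = a → rk w < μ → Adj w p)
    (hpU : ∀ a p b v, Link a p b → Valid n m v → D n m v = b → μ < rk v → Adj p v)
    (hLU : ∀ a p b w v, Link a p b → Valid n m w → D n m w = a → rk w < μ → Valid n m v →
      D n m v = b → μ < rk v → Adj w v)
    (hmid : ∀ v, Valid n m v → rk v = μ →
      (∃ a b, Link a v b) ∨ ((∀ p b, ¬ Link (D n m v) p b) ∧ D n m v ∈ Λ))
    (hup : ∀ v, Valid n m v → μ < rk v →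
      (∃ a p, Link a p (D n m v)) ∨ ((∀ p b, ¬ Link (D n m v) p b) ∧ D n m v ∈ Λ))
    (hlow : ∀ v, Valid n m v → rk v < μ → D n m v ∈ Λ)
    (hΛ : ∀ a p b, Link a p b → a ∈ Λ)
    (S : Finset V) (hV : ∀ v ∈ S, Valid n m v) (hI : Indep S) : S.card ≤ Λ.card := by
  classical
  let E : V → Lab → Prop := fun v l =>
    (rk v < μ ∧ D n m v = l) ∨ (rk v = μ ∧ ∃ b, Link l v b) ∨
      (μ < rk v ∧ ∃ p, Link l p (D n m v)) ∨ (μ ≤ rk v ∧ D n m v = l ∧ ∀ p b, ¬ Link l p b)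
  have hex : ∀ v : V, ∃ l : Lab, Valid n m v → l ∈ Λ ∧ E v l := by
    intro v
    by_cases hv : Valid n m v
    · rcases lt_trichotomy (rk v) μ with h | h | h
      · exact ⟨D n m v, fun _ => ⟨hlow v hv h, Or.inl ⟨h, rfl⟩⟩⟩
      · rcases hmid v hv h with ⟨a, b, hab⟩ | ⟨h1, h2⟩
        · exact ⟨a, fun _ => ⟨hΛ a v b hab, Or.inr (Or.inl ⟨h, b, hab⟩)⟩⟩
        · exact ⟨D n m v, fun _ => ⟨h2, Or.inr (Or.inr (Or.inr ⟨h.ge, rfl, h1⟩))⟩⟩
      · rcases hup v hv h with ⟨a, p, hab⟩ | ⟨h1, h2⟩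
        · exact ⟨a, fun _ => ⟨hΛ a p _ hab, Or.inr (Or.inr (Or.inl ⟨h, p, hab⟩))⟩⟩
        · exact ⟨D n m v, fun _ => ⟨h2, Or.inr (Or.inr (Or.inr ⟨h.le, rfl, h1⟩))⟩⟩
    · exact ⟨(0, 0, 0, 0), fun h => absurd h hv⟩
  choose lab hlab using hex
  have hcl : ∀ v w l, Valid n m v → Valid n m w → E v l → E w l → v = w ∨ Adj v w := by
    intro v w l hv hw h1 h2
    rcases h1 with ⟨a1, a2⟩ | ⟨a1, b, a2⟩ | ⟨a1, p, a2⟩ | ⟨a1, a2, a3⟩
    · rcases h2 with ⟨c1, c2⟩ | ⟨c1, b', c2⟩ | ⟨c1, p', c2⟩ | ⟨c1, c2, c3⟩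
      · exact D_clique hm hmn v w hv hw (a2.trans c2.symm)
      · exact Or.inr (hLp l w b' v c2 hv a2 a1)
      · exact Or.inr (hLU l p' _ v w c2 hv a2 a1 hw rfl c1)
      · exact D_clique hm hmn v w hv hw (a2.trans c2.symm)
    · rcases h2 with ⟨c1, c2⟩ | ⟨c1, b', c2⟩ | ⟨c1, p', c2⟩ | ⟨c1, c2, c3⟩
      · exact Or.inr (hLp l v b w a2 hw c2 c1).symm
      · exact Or.inl (hfun _ _ _ _ _ a2 c2).1
      · obtain ⟨e1, e2⟩ := hfun _ _ _ _ _ a2 c2
        exact Or.inr (hpU l v _ w a2 hw e2.symm c1)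
      · exact absurd a2 (c3 _ _)
    · rcases h2 with ⟨c1, c2⟩ | ⟨c1, b', c2⟩ | ⟨c1, p', c2⟩ | ⟨c1, c2, c3⟩
      · exact Or.inr (hLU l p _ w v a2 hw c2 c1 hv rfl a1).symm
      · obtain ⟨e1, e2⟩ := hfun _ _ _ _ _ c2 a2
        exact Or.inr (hpU l w _ v c2 hv e2.symm a1).symm
      · exact D_clique hm hmn v w hv hw (hfun _ _ _ _ _ a2 c2).2
      · exact absurd a2 (c3 _ _)
    · rcases h2 with ⟨c1, c2⟩ | ⟨c1, b', c2⟩ | ⟨c1, p', c2⟩ | ⟨c1, c2, c3⟩
      · exact D_clique hm hmn v w hv hw (a2.trans c2.symm)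
      · exact absurd c2 (a3 _ _)
      · exact absurd c2 (a3 _ _)
      · exact D_clique hm hmn v w hv hw (a2.trans c2.symm)
  apply card_le_card_of_injOn lab
  · intro v hv
    exact (hlab v (hV v hv)).1
  · intro v hv w hw h
    by_contra hne
    have e1 := (hlab v (hV v hv)).2
    have e2 := (hlab w (hV w hw)).2
    rw [← h] at e2
    rcases hcl v w _ (hV v hv) (hV w hw) e1 e2 with h1 | h1
    · exact hne h1
    · exact hI v hv w hw hne h1

end Pool.Agent.Helper21TS
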